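import Pool.Agent.Lib.MP_e9c0f3_ag.H48.Jd
import Pool.Agent.Lib.MP_e9c0f3_ag.Frob

/-! The annihilator of a transition determinant (Wiebe). -/

open MvPolynomial Matrix

namespace Pool.Agent.Lib.MP_e9c0f3_ag.H48

variable {N : ℕ}

section ring

variable {S : Type} [CommRing S]

theorem det_row_adj (M : Matrix (Fin N) (Fin N) S) (t : Fin N) (b : Fin N → S) :
    (M.updateRow t b).det = ∑ j, adjugate M j t * b j := by
  rw [← cramer_transpose_apply, cramer_eq_adjugate_mulVec, ← adjugate_transpose]
  rfl

theorem det_mul_mem (M : Matrix (Fin N) (Fin N) S) (y : Fin N → S) (l : Fin N) :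
    M.det * y l = ∑ i, adjugate M l i * (M *ᵥ y) i := by
  have h : adjugate M *ᵥ (M *ᵥ y) = M.det • y := by
    rw [mulVec_mulVec, adjugate_mul, smul_mulVec, one_mulVec]
  exact (congrFun h l).symm

theorem wb_cross (M : Matrix (Fin N) (Fin N) S) (y : Fin N → S) (t j l : Fin N) :
    adjugate M j t * y l - adjugate M l t * y j ∈ Ideal.span (Set.range (M *ᵥ y)) := by
  have h := det_mul_mem (M.updateRow t (Pi.single j 1)) y l
  rw [← adjugate_apply, ← Finset.add_sum_erase _ _ (Finset.mem_univ t)] at h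
  have h1 : adjugate (M.updateRow t (Pi.single j 1)) l t = adjugate M l t := by
    rw [adjugate_apply, adjugate_apply, updateRow_idem]
  have h2 : (M.updateRow t (Pi.single j 1) *ᵥ y) t = y j := by
    simp [mulVec]
  rw [h, h1, h2, add_sub_cancel_left]
  refine Ideal.sum_mem _ fun i hi => Ideal.mul_mem_left _ _ (Ideal.subset_span ⟨i, ?_⟩)
  simp only [mulVec, updateRow_ne (Finset.ne_of_mem_erase hi)]

theorem wb_syz [Algebra ℚ S] {y : Fin N → S} (hy : RegAll y) (M : Matrix (Fin N) (Fin N) S)
    (t : Fin N) {b : Fin N → S} (hb : ∑ j, y j * b j = 0) :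
    (M.updateRow t b).det ∈ Ideal.span (Set.range (M *ᵥ y)) := by
  obtain ⟨a, a1, -, a3⟩ := hy.koszul hb
  have h1 : (M.updateRow t b).det = ∑ j, ∑ l, a j l * (adjugate M j t * y l) := by
    rw [det_row_adj]
    refine Finset.sum_congr rfl fun j _ => ?_
    rw [a3 j, Finset.mul_sum]
    exact Finset.sum_congr rfl fun l _ => by ring
  have h2 : (M.updateRow t b).det = -∑ j, ∑ l, a j l * (adjugate M l t * y j) := by
    rw [h1, Finset.sum_comm, ← Finset.sum_neg_distrib]
    refine Finset.sum_congr rfl fun j _ => ?_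
    rw [← Finset.sum_neg_distrib]
    exact Finset.sum_congr rfl fun l _ => by rw [a1 j l, neg_mul]
  have h3 : (M.updateRow t b).det + (M.updateRow t b).det ∈ Ideal.span (Set.range (M *ᵥ y)) := by
    nth_rewrite 1 [h1]
    rw [h2, ← sub_eq_add_neg, ← Finset.sum_sub_distrib]
    refine Ideal.sum_mem _ fun j _ => ?_
    rw [← Finset.sum_sub_distrib]
    refine Ideal.sum_mem _ fun l _ => ?_
    rw [← mul_sub]
    exact Ideal.mul_mem_left _ _ (wb_cross M y t j l)
  have h4 := Ideal.mul_mem_left _ (algebraMap ℚ S (1 / 2)) h3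
  rwa [← two_mul, ← mul_assoc, show (2 : S) = algebraMap ℚ S 2 from (map_ofNat _ 2).symm,
    ← map_mul, show (1 / 2 * 2 : ℚ) = 1 by norm_num, map_one, one_mul] at h4

theorem wb_det [Algebra ℚ S] {y : Fin N → S} (hy : RegAll y) {P Q : Matrix (Fin N) (Fin N) S}
    (h : P *ᵥ y = Q *ᵥ y) : P.det - Q.det ∈ Ideal.span (Set.range (Q *ᵥ y)) := by
  have key : ∀ T : Finset (Fin N), (of fun i => if i ∈ T then P i else Q i).det - Q.det ∈
      Ideal.span (Set.range (Q *ᵥ y)) := by
    intro T
    induction T using Finset.induction_on with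
    | empty =>
      simp only [Finset.notMem_empty, if_false]
      exact (sub_self Q.det).symm ▸ zero_mem _
    | insert t T ht ih =>
      set M : Matrix (Fin N) (Fin N) S := of fun i => if i ∈ T then P i else Q i with hM
      have h1 : M *ᵥ y = Q *ᵥ y := by
        funext i
        by_cases hi : i ∈ T
        · rw [← h]
          simp [hM, mulVec, hi]
        · simp [hM, mulVec, hi]
      have h2 : (of fun i => if i ∈ insert t T then P i else Q i) =
          M.updateRow t (M t + (P t - Q t)) := by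
        ext1 i j
        by_cases hi : i = t
        · subst hi
          simp [hM, ht]
        · simp [hM, hi]
      have h3 := wb_syz hy M t (b := P t - Q t) (by
        have := congrFun h t
        simp only [mulVec, dotProduct] at this
        simp only [Pi.sub_apply, mul_comm (y _), sub_mul, Finset.sum_sub_distrib, this, sub_self])
      rw [h1] at h3
      rw [h2, det_updateRow_add, updateRow_eq_self, add_sub_right_comm]
      exact add_mem ih h3
  have h4 := key Finset.univ
  simp only [Finset.mem_univ, if_true] at h4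
  exact h4

end ring

variable {K : Type} [Field K]

theorem wb_pow {y : Fin N → Pol N K} (hy : ∀ i, ∃ e, 0 < e ∧ (y i).IsHomogeneous e)
    (hX : ∀ i, ∃ M, (X i : Pol N K) ^ M ∈ Ideal.span (Set.range y)) (ρ : ℕ) {c : Pol N K}
    (h : c * ∏ i, y i ^ ρ ∈ Ideal.span (Set.range fun i => y i ^ (ρ + 1))) :
    c ∈ Ideal.span (Set.range y) := by
  let w : Finset (Fin N) → Fin N → Pol N K := fun T i => if i ∈ T then y i else y i ^ (ρ + 1)
  have hw : ∀ T, RegAll (w T) := fun T => by
    refine regAll_of_param _ (fun i => ?_) fun i => ?_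
    · obtain ⟨e, he, h1⟩ := hy i
      by_cases hi : i ∈ T
      · exact ⟨e, he, by simpa [w, hi] using h1⟩
      · exact ⟨e * (ρ + 1), by positivity, by simpa [w, hi] using h1.pow (ρ + 1)⟩
    · obtain ⟨M, hM⟩ := hX i
      have h1 : Ideal.span (Set.range y) ≤ (Ideal.span (Set.range (w T))).radical := by
        rw [Ideal.span_le]
        rintro _ ⟨l, rfl⟩
        by_cases hl : l ∈ T
        · exact Ideal.le_radical (Ideal.subset_span ⟨l, by simp [w, hl]⟩)
        · exact ⟨ρ + 1, Ideal.subset_span ⟨l, by simp [w, hl]⟩⟩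
      obtain ⟨n, hn⟩ := h1 hM
      exact ⟨M * n, by rwa [pow_mul]⟩
  have key : ∀ T : Finset (Fin N), c * ∏ i ∈ Tᶜ, y i ^ ρ ∈ Ideal.span (Set.range (w T)) := by
    intro T
    induction T using Finset.induction_on with
    | empty => simpa [w] using h
    | insert j T hj ih =>
      have hj' : j ∈ Tᶜ := Finset.mem_compl.2 hj
      rw [← Finset.mul_prod_erase _ _ hj', ← Finset.compl_insert] at ih
      obtain ⟨b, hb⟩ := Ideal.mem_span_range_iff_exists_fun.1 ih
      rw [← Finset.add_sum_erase _ _ (Finset.mem_univ j)] at hb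
      have h1 : y j ^ ρ * (c * ∏ i ∈ (insert j T)ᶜ, y i ^ ρ - b j * y j) ∈
          Ideal.span (w (insert j T) '' (Finset.univ.erase j : Finset (Fin N))) := by
        have h2 : y j ^ ρ * (c * ∏ i ∈ (insert j T)ᶜ, y i ^ ρ - b j * y j) =
            ∑ i ∈ Finset.univ.erase j, b i * w T i := by
          have h3 : w T j = y j ^ (ρ + 1) := if_neg hj
          rw [h3] at hb
          linear_combination -hb
        rw [h2]
        refine Ideal.sum_mem _ fun i hi => Ideal.mul_mem_left _ _
          (Ideal.subset_span ⟨i, Finset.mem_coe.2 hi, ?_⟩)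
        simp [w, Finset.ne_of_mem_erase hi]
      have h4 : ∀ (n : ℕ) (z : Pol N K), y j ^ n * z ∈
          Ideal.span (w (insert j T) '' (Finset.univ.erase j : Finset (Fin N))) → z ∈
          Ideal.span (w (insert j T) '' (Finset.univ.erase j : Finset (Fin N))) := by
        intro n
        induction n with
        | zero => intro z hz; simpa using hz
        | succ n ihn =>
          intro z hz
          refine hw (insert j T) _ j (Finset.notMem_erase j _) z ?_
          have h5 : w (insert j T) j = y j := if_pos (Finset.mem_insert_self j T)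
          rw [h5]
          exact ihn _ (by rwa [← mul_assoc, ← pow_succ])
      have h6 := add_mem (Ideal.span_mono (Set.image_subset_range _ _) (h4 _ _ h1))
        (Ideal.mul_mem_left _ (b j) (Ideal.subset_span (s := Set.range (w (insert j T)))
          ⟨j, if_pos (Finset.mem_insert_self j T)⟩))
      rwa [sub_add_cancel] at h6
  simpa [w] using key Finset.univ

theorem wiebe [Algebra ℚ K] {y : Fin N → Pol N K} (hy : ∀ i, ∃ e, 0 < e ∧ (y i).IsHomogeneous e)
    (M : Matrix (Fin N) (Fin N) (Pol N K))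
    (hX : ∀ i, ∃ n, (X i : Pol N K) ^ n ∈ Ideal.span (Set.range (M *ᵥ y))) {c : Pol N K}
    (h : c * M.det ∈ Ideal.span (Set.range (M *ᵥ y))) : c ∈ Ideal.span (Set.range y) := by
  have hle : Ideal.span (Set.range (M *ᵥ y)) ≤ Ideal.span (Set.range y) := by
    rw [Ideal.span_le]
    rintro _ ⟨i, rfl⟩
    change ∑ j, M i j * y j ∈ Ideal.span (Set.range y)
    exact Ideal.sum_mem _ fun j _ => Ideal.mul_mem_left _ _ (Ideal.subset_span ⟨j, rfl⟩)
  have hX' : ∀ i, ∃ n, (X i : Pol N K) ^ n ∈ Ideal.span (Set.range y) := fun i =>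
    (hX i).imp fun _ h => hle h
  choose n hn using fun i => frob_mx_le_radical _ hX (reg_mem (hy i))
  let ρ := Finset.univ.sup n
  have h1 : ∀ i, y i ^ (ρ + 1) ∈ Ideal.span (Set.range (M *ᵥ y)) := fun i =>
    Ideal.pow_mem_of_pow_mem _ (hn i)
      ((Finset.le_sup (f := n) (Finset.mem_univ i)).trans (Nat.le_succ _))
  choose B hB using fun i => Ideal.mem_span_range_iff_exists_fun.1 (h1 i)
  have h2 : of B *ᵥ (M *ᵥ y) = fun i => y i ^ (ρ + 1) := funext hB
  have h3 : diagonal (fun i => y i ^ ρ) *ᵥ y = fun i => y i ^ (ρ + 1) := by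
    funext i
    rw [mulVec_diagonal, pow_succ]
  have h4 := wb_det (regAll_of_param y hy hX') (P := of B * M) (Q := diagonal fun i => y i ^ ρ)
    (by rw [← mulVec_mulVec, h2, h3])
  rw [h3, det_mul, det_diagonal] at h4
  have h5 : (of B).det * (c * M.det) ∈ Ideal.span (Set.range fun i => y i ^ (ρ + 1)) := by
    obtain ⟨b, hb⟩ := Ideal.mem_span_range_iff_exists_fun.1 h
    rw [← hb, Finset.mul_sum]
    refine Ideal.sum_mem _ fun i _ => ?_
    rw [mul_left_comm, det_mul_mem, h2]
    exact Ideal.mul_mem_left _ _ (Ideal.sum_mem _ fun j _ =>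
      Ideal.mul_mem_left _ _ (Ideal.subset_span ⟨j, rfl⟩))
  refine wb_pow hy hX' ρ ?_
  have h6 := sub_mem h5 (Ideal.mul_mem_left _ c h4)
  convert h6 using 1
  ring

/-- The annihilator of the class of a complete intersection. -/
theorem ann_jd [Algebra ℚ K] {n : ℕ} {u v : Fin n → Pol (n + n) K}
    (hu : ∀ i, ∃ e, 0 < e ∧ (u i).IsHomogeneous e) (hv : ∀ i, ∃ e, 0 < e ∧ (v i).IsHomogeneous e)
    (hF : Isol (∑ l, u l * v l)) {c : Pol (n + n) K}
    (h : c * jd (Fin.append u v) ∈ jac (∑ l, u l * v l)) :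
    ∃ a b : Fin n → Pol (n + n) K, c = ∑ l, a l * u l + ∑ l, b l * v l := by
  have h1 : (jm (Fin.append u v))ᵀ *ᵥ Fin.append v u = fun i => pderiv i (∑ l, u l * v l) := by
    funext i
    simp only [mulVec, dotProduct, transpose_apply, jm, of_apply, Fin.sum_univ_add,
      Fin.append_left, Fin.append_right, map_sum, Derivation.leibniz, smul_eq_mul,
      ← Finset.sum_add_distrib]
    exact Finset.sum_congr rfl fun l _ => by ring
  have h2 := wiebe (y := Fin.append v u) (fun ν => by
    refine Fin.addCases (fun i => ?_) (fun i => ?_) ν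
    · rw [Fin.append_left]
      exact hv i
    · rw [Fin.append_right]
      exact hu i) (jm (Fin.append u v))ᵀ (by rw [h1]; exact hF) (c := c)
    (by rw [h1, det_transpose]; exact h)
  obtain ⟨b, hb⟩ := Ideal.mem_span_range_iff_exists_fun.1 h2
  refine ⟨fun l => b (Fin.natAdd n l), fun l => b (Fin.castAdd n l), ?_⟩
  rw [← hb, Fin.sum_univ_add]
  simp only [Fin.append_left, Fin.append_right]
  exact add_comm _ _

end Pool.Agent.Lib.MP_e9c0f3_ag.H48
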