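import Pool.Agent.Lib.MP_e9c0f3_ag.H48.Key
import Pool.Agent.Lib.MP_e9c0f3_ag.H48.Wb

/-! Commutative algebra on the special fibre. -/

open MvPolynomial Matrix

namespace Pool.Agent.Lib.MP_e9c0f3_ag.H48

variable {k m : ℕ}

section ring

variable {R : Type} [CommRing R]

/-- `a` is a nonzerodivisor modulo `I`. -/
def Rg {S : Type} [CommRing S] (I : Ideal S) (a : S) : Prop := ∀ z, a * z ∈ I → z ∈ I

theorem Rg.prod {S α : Type} [CommRing S] {I : Ideal S} (T : Finset α) {a : α → S}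
    (h : ∀ i ∈ T, Rg I (a i)) : Rg I (∏ i ∈ T, a i) :=
  Finset.prod_induction a (Rg I) (fun p q hp hq z hz => hq z (hp _ (by rwa [← mul_assoc])))
    (fun z hz => by rwa [one_mul] at hz) h

theorem hom_dec {N : ℕ} {ι : Type} [Fintype ι] {y c : ι → Pol N R} {n : ι → ℕ}
    (hy : ∀ i, (y i).IsHomogeneous (n i)) {d : ℕ} {p : Pol N R} (hp : p.IsHomogeneous d)
    (h : p = ∑ i, c i * y i) :
    p = ∑ i, (if n i ≤ d then homogeneousComponent (d - n i) (c i) else 0) * y i := by
  rw [← homogeneousComponent_eq_self hp, h, map_sum]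
  refine Finset.sum_congr rfl fun i _ => ?_
  rw [mul_comm, tw2_hc_mul (hy i)]
  split_ifs
  · exact mul_comm _ _
  · exact (zero_mul _).symm

variable (x g : Fin k → PS k R)

/-- The ideal `(P, x, g)`. -/
noncomputable def KP (P : PS k R) : Ideal (PS k R) :=
  Ideal.span (insert P (Set.range (Sum.elim x g)))

/-- The ideal `(x, P, Q)`. -/
noncomputable def XP (P Q : PS k R) : Ideal (PS k R) := Ideal.span (Set.range x ∪ {P, Q})

variable {x g}

theorem mem_KP {P z : PS k R} : z ∈ KP x g P ↔ ∃ (p : PS k R) (e : Fin k ⊕ Fin k → PS k R),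
    z = p * P + ∑ t, e t * Sum.elim x g t := by
  rw [KP, Ideal.mem_span_insert]
  refine exists_congr fun p => ⟨?_, ?_⟩
  · rintro ⟨y, hy, rfl⟩
    obtain ⟨e, rfl⟩ := Ideal.mem_span_range_iff_exists_fun.1 hy
    exact ⟨e, rfl⟩
  · rintro ⟨e, rfl⟩
    exact ⟨_, Ideal.mem_span_range_iff_exists_fun.2 ⟨e, rfl⟩, rfl⟩

theorem self_mem_KP (P : PS k R) : P ∈ KP x g P := Ideal.subset_span (Set.mem_insert _ _)

theorem gen_mem_KP (P : PS k R) (t : Fin k ⊕ Fin k) : Sum.elim x g t ∈ KP x g P :=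
  Ideal.subset_span (Set.mem_insert_of_mem _ ⟨t, rfl⟩)

theorem mem_XP {P Q z : PS k R} : z ∈ XP x P Q ↔ ∃ (p q : PS k R) (e : Fin k → PS k R),
    z = p * P + q * Q + ∑ i, e i * x i := by
  rw [XP, Ideal.span_union, Submodule.mem_sup]
  constructor
  · rintro ⟨y, hy, y', hy', rfl⟩
    obtain ⟨e, rfl⟩ := Ideal.mem_span_range_iff_exists_fun.1 hy
    obtain ⟨p, q, rfl⟩ := Ideal.mem_span_pair.1 hy'
    exact ⟨p, q, e, add_comm _ _⟩
  · rintro ⟨p, q, e, rfl⟩
    exact ⟨_, Ideal.mem_span_range_iff_exists_fun.2 ⟨e, rfl⟩, _,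
      Ideal.mem_span_pair.2 ⟨p, q, rfl⟩, add_comm _ _⟩

theorem KP_mul_cyc {f : Fin m → PS k R} {r z : PS k R} {j : Fin m} (hz : z ∈ KP x g (f j)) :
    z * cyc x g f r j ∈ jac (tot x g f r) := by
  obtain ⟨p, e, rfl⟩ := mem_KP.1 hz
  rw [add_mul, mul_assoc, Finset.sum_mul]
  exact add_mem (Ideal.mul_mem_left _ _ (f_cyc_mem x g f r j)) (Ideal.sum_mem _ fun t _ => by
    rw [mul_assoc]
    exact Ideal.mul_mem_left _ _ (gen_cyc_mem x g f r j t))

theorem XP_prod {α : Type} [DecidableEq α] {P z : PS k R} {f : α → PS k R} (T : Finset α)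
    (h : ∀ i ∈ T, z ∈ XP x P (f i)) : z ^ T.card ∈ XP x P (∏ i ∈ T, f i) := by
  induction T using Finset.induction_on with
  | empty => exact mem_XP.2 ⟨0, 1, 0, by simp⟩
  | insert i T hi ih =>
    obtain ⟨p, q, e, h1⟩ := mem_XP.1 (ih fun l hl => h l (Finset.mem_insert_of_mem hl))
    obtain ⟨p', q', e', h2⟩ := mem_XP.1 (h i (Finset.mem_insert_self i T))
    refine mem_XP.2 ⟨p * z + p' * (q * ∏ l ∈ T, f l), q * q',
      fun l => e l * z + e' l * (q * ∏ l ∈ T, f l), ?_⟩
    have h3 : ∑ l, (e l * z + e' l * (q * ∏ l ∈ T, f l)) * x l =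
        (∑ l, e l * x l) * z + (∑ l, e' l * x l) * (q * ∏ l ∈ T, f l) := by
      rw [Finset.sum_mul, Finset.sum_mul, ← Finset.sum_add_distrib]
      exact Finset.sum_congr rfl fun l _ => by ring
    rw [Finset.card_insert_of_notMem hi, Finset.prod_insert hi, pow_succ, h1, h3]
    linear_combination (q * ∏ l ∈ T, f l) * h2

end ring

variable {K : Type} [Field K] {x g : Fin k → PS k K}

theorem rg_KP (hx : ∀ t, ∃ e, 0 < e ∧ (Sum.elim x g t).IsHomogeneous e) {P Q W : PS k K}
    (hP : ∃ e, 0 < e ∧ P.IsHomogeneous e) (hQ : ∃ e, 0 < e ∧ Q.IsHomogeneous e)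
    (hF : Isol (∑ i, x i * g i + P * Q * W)) : Rg (KP x g P) Q ∧ RegAll (fam x g P Q) := by
  have hle : jac (∑ i, x i * g i + P * Q * W) ≤ Ideal.span (Set.range (fam x g P Q)) := by
    unfold jac
    rw [Ideal.span_le]
    rintro _ ⟨i, rfl⟩
    have h1 : P ∈ Ideal.span (Set.range (fam x g P Q)) := Ideal.subset_span ⟨_, fam_p0 x g P Q⟩
    have h2 : Q ∈ Ideal.span (Set.range (fam x g P Q)) := Ideal.subset_span ⟨_, fam_q0 x g P Q⟩
    have h3 : ∀ l, g l ∈ Ideal.span (Set.range (fam x g P Q)) := fun l =>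
      Ideal.subset_span ⟨_, fam_row x g P Q (Sum.inl l)⟩
    have h4 : ∀ l, x l ∈ Ideal.span (Set.range (fam x g P Q)) := fun l =>
      Ideal.subset_span ⟨_, fam_row x g P Q (Sum.inr l)⟩
    simp only [map_add, map_sum, Derivation.leibniz, smul_eq_mul, SetLike.mem_coe]
    exact add_mem (Ideal.sum_mem _ fun l _ => add_mem (Ideal.mul_mem_right _ _ (h4 l))
      (Ideal.mul_mem_right _ _ (h3 l))) (add_mem
        (Ideal.mul_mem_right _ _ (Ideal.mul_mem_right _ _ h1)) (Ideal.mul_mem_left _ _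
          (add_mem (Ideal.mul_mem_right _ _ h1) (Ideal.mul_mem_right _ _ h2))))
  have hr : RegAll (fam x g P Q) := regAll_of_param _ (fun ν => by
    rcases idx_cases ν with rfl | rfl | ⟨t, rfl⟩
    · rwa [fam_p0]
    · rwa [fam_q0]
    · rw [fam_row]
      rcases t with i | i
      · exact hx (Sum.inr i)
      · exact hx (Sum.inl i)) fun i => (hF i).imp fun _ h => hle h
  have he : fam x g P Q '' (Finset.univ.erase (q0 k) : Finset _) =
      insert P (Set.range (Sum.elim x g)) := by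
    ext z
    constructor
    · rintro ⟨ν, hν, rfl⟩
      rcases idx_cases ν with rfl | rfl | ⟨t, rfl⟩
      · exact Or.inl (fam_p0 x g P Q)
      · simp at hν
      · rw [fam_row]
        rcases t with i | i
        · exact Or.inr ⟨Sum.inr i, rfl⟩
        · exact Or.inr ⟨Sum.inl i, rfl⟩
    · rintro (rfl | ⟨i | i, rfl⟩)
      · exact ⟨p0 k, by simpa using p0_ne_q0, fam_p0 _ _ _ _⟩
      · exact ⟨row (Sum.inr i), by simpa using row_ne_q0 _, fam_row _ _ _ _ _⟩
      · exact ⟨row (Sum.inl i), by simpa using row_ne_q0 _, fam_row _ _ _ _ _⟩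
  refine ⟨fun z hz => ?_, hr⟩
  have h5 := hr (Finset.univ.erase (q0 k)) (q0 k) (Finset.notMem_erase _ _) z
  rw [he, fam_q0] at h5
  exact h5 hz

/-- The hypotheses on the special fibre. -/
structure Pt (d : ℕ) (e : Fin m → ℕ) (x g : Fin k → PS k K) (f : Fin m → PS k K) (r : PS k K) :
    Prop where
  sp : Split d e (tot x g f r) x g f r
  he : ∀ j, 0 < e j
  hd : 2 * ∑ j, e j + 1 < d
  isol : Isol (tot x g f r)

variable {d : ℕ} {e : Fin m → ℕ} {f : Fin m → PS k K} {r : PS k K}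

theorem Pt.gen (h : Pt d e x g f r) (t : Fin k ⊕ Fin k) :
    (Sum.elim x g t).IsHomogeneous (Sum.elim (fun _ => 1) (fun _ => d - 1) t) := by
  rcases t with i | i
  · exact h.sp.hx i
  · exact h.sp.hg i

theorem Pt.gen_pos (h : Pt d e x g f r) (t : Fin k ⊕ Fin k) :
    ∃ n, 0 < n ∧ (Sum.elim x g t).IsHomogeneous n := by
  have := h.hd
  rcases t with i | i
  · exact ⟨1, one_pos, h.sp.hx i⟩
  · exact ⟨d - 1, by omega, h.sp.hg i⟩

theorem Pt.le (_ : Pt d e x g f r) (j : Fin m) : e j ≤ ∑ j, e j :=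
  Finset.single_le_sum (fun _ _ => Nat.zero_le _) (Finset.mem_univ j)

theorem Pt.rg_r (h : Pt d e x g f r) (j : Fin m) : Rg (KP x g (f j)) r := by
  have := h.hd
  refine (rg_KP h.gen_pos (W := hat f j) ⟨_, h.he j, h.sp.hf j⟩ ⟨_, by omega, h.sp.hr⟩ ?_).1
  have h1 := h.isol
  rwa [tot, ← mul_hat f j, mul_right_comm] at h1

theorem Pt.rg_f (h : Pt d e x g f r) {i j : Fin m} (hij : i ≠ j) : Rg (KP x g (f j)) (f i) := by
  refine (rg_KP h.gen_pos (W := (∏ l ∈ (Finset.univ.erase j).erase i, f l) * r)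
    ⟨_, h.he j, h.sp.hf j⟩ ⟨_, h.he i, h.sp.hf i⟩ ?_).1
  have h1 := h.isol
  rwa [tot, ← mul_hat f j, hat, ← Finset.mul_prod_erase _ _
    (Finset.mem_erase.2 ⟨hij, Finset.mem_univ i⟩), ← mul_assoc, mul_assoc (f j * f i)] at h1

theorem Pt.hc_KP (h : Pt d e x g f r) {j : Fin m} {z : PS k K} (hz : z ∈ KP x g (f j)) (n : ℕ) :
    homogeneousComponent n z ∈ KP x g (f j) := by
  let := MvPolynomial.gradedAlgebra (σ := Fin (k + 1 + (k + 1))) (R := K)
  have hI := Ideal.homogeneous_span (homogeneousSubmodule (Fin (k + 1 + (k + 1))) K)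
    (insert (f j) (Set.range (Sum.elim x g))) (by
      rintro _ (rfl | ⟨t, rfl⟩)
      · exact ⟨_, h.sp.hf j⟩
      · exact ⟨_, h.gen t⟩)
  exact decomposition.decompose'_apply z n ▸ hI n hz

variable [Algebra ℚ K]

theorem Pt.ann (h : Pt d e x g f r) {j : Fin m} {c : PS k K}
    (hc : c * cyc x g f r j ∈ jac (tot x g f r)) : ∃ z, c - z * (hat f j * r) ∈ KP x g (f j) := by
  have h1 := h.hd
  have h2 := h.le j
  obtain ⟨a, b, h3⟩ := ann_jd (u := (Fin.cons (f j) x : Fin (k + 1) → PS k K))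
    (v := Fin.cons (hat f j * r) g) (c := c)
    (Fin.cases ⟨_, h.he j, h.sp.hf j⟩ fun i => h.gen_pos (Sum.inl i))
    (Fin.cases ⟨d - e j, by omega, h.sp.hat_homog (by omega) j⟩ fun i => h.gen_pos (Sum.inr i))
    (by rw [tot_eq]; exact h.isol) (by rw [tot_eq]; exact hc)
  refine ⟨b 0, mem_KP.2 ⟨a 0, Sum.elim (fun i => a i.succ) fun i => b i.succ, ?_⟩⟩
  rw [h3, Fin.sum_univ_succ, Fin.sum_univ_succ, Fintype.sum_sum_type]
  simp only [Fin.cons_zero, Fin.cons_succ, Sum.elim_inl, Sum.elim_inr]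
  ring

/-- The relations between the classes. -/
theorem Pt.crt (h : Pt d e x g f r) {b : Fin m → PS k K}
    (hb : ∑ j, b j * cyc x g f r j ∈ jac (tot x g f r)) :
    ∃ w, ∀ j, b j - w * r ∈ KP x g (f j) := by
  have key : ∀ T : Finset (Fin m), ∃ w, ∀ j ∈ T, b j - w * r ∈ KP x g (f j) := by
    intro T
    induction T using Finset.induction_on with
    | empty => exact ⟨0, by simp⟩
    | insert i T hi ih =>
      obtain ⟨w, hw⟩ := ih
      set W := ∏ l ∈ (insert i T)ᶜ, f l with hW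
      have h1 : ∑ j, W * (b j - w * r) * cyc x g f r j ∈ jac (tot x g f r) := by
        have h2 := Ideal.mul_mem_left _ W (sub_mem hb (Ideal.mul_mem_left _ w (r_sum_mem x g f r)))
        convert h2 using 1
        simp only [Finset.mul_sum, ← Finset.sum_sub_distrib]
        exact Finset.sum_congr rfl fun j _ => by ring
      rw [← Finset.add_sum_erase _ _ (Finset.mem_univ i)] at h1
      have h3 : ∑ j ∈ Finset.univ.erase i, W * (b j - w * r) * cyc x g f r j ∈
          jac (tot x g f r) := Ideal.sum_mem _ fun j hj => KP_mul_cyc (by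
        by_cases hjT : j ∈ T
        · exact Ideal.mul_mem_left _ _ (hw j hjT)
        · refine Ideal.mul_mem_right _ _ (Ideal.mem_of_dvd _ ?_ (self_mem_KP (f j)))
          exact Finset.dvd_prod_of_mem f (by simp [hjT, Finset.ne_of_mem_erase hj]))
      obtain ⟨z, hz⟩ := h.ann ((Ideal.add_mem_iff_left _ h3).1 h1)
      have h4 : hat f i = W * ∏ l ∈ T, f l := by
        rw [hat, hW, ← Finset.prod_union]
        · congr 1
          ext l
          by_cases hl : l = i
          · simp [hl, hi]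
          · by_cases hl' : l ∈ T <;> simp [hl, hl']
        · exact Finset.disjoint_left.2 fun l hl hl' => by simp [hl'] at hl
      have h5 : Rg (KP x g (f i)) W := Rg.prod _ fun l hl => h.rg_f (by
        rintro rfl
        simp at hl)
      have h6 := h5 (b i - (w + z * ∏ l ∈ T, f l) * r) (by
        convert hz using 1
        rw [h4]
        ring)
      refine ⟨w + z * ∏ l ∈ T, f l, fun j hj => ?_⟩
      rcases Finset.mem_insert.1 hj with rfl | hj
      · exact h6
      · have h7 : z * (∏ l ∈ T, f l) * r ∈ KP x g (f j) := Ideal.mul_mem_right _ _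
          (Ideal.mul_mem_left _ _ (Ideal.mem_of_dvd _ (Finset.dvd_prod_of_mem f hj)
            (self_mem_KP (f j))))
        convert sub_mem (hw j hj) h7 using 1
        ring
  exact (key Finset.univ).imp fun w hw j => hw j (Finset.mem_univ j)

theorem Pt.first (h : Pt d e x g f r) (α : Fin m → K) {G : PS k K} (hG : G.IsHomogeneous d)
    (hb : G * cmb x g f r α ∈ jac (tot x g f r)) :
    ∃ w : PS k K, w.IsHomogeneous (∑ j, e j) ∧ ∀ j, α j • G - w * r ∈ KP x g (f j) := by
  have h0 := h.hd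
  obtain ⟨w, hw⟩ := h.crt (b := fun j => α j • G) (by
    simpa only [cmb, Finset.mul_sum, mul_smul_comm, smul_mul_assoc] using hb)
  refine ⟨homogeneousComponent _ w, homogeneousComponent_isHomogeneous _ _, fun j => ?_⟩
  have h1 := h.hc_KP (hw j) d
  rwa [map_sub, map_smul, homogeneousComponent_eq_self hG, mul_comm w, tw2_hc_mul h.sp.hr,
    if_pos (by omega), show d - (d - ∑ j, e j) = ∑ j, e j by omega, mul_comm r] at h1

theorem Pt.second (h : Pt d e x g f r) {α : Fin m → K} (hα : Function.Injective α) {z : PS k K}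
    (hz : z.IsHomogeneous (∑ j, e j + ∑ j, e j))
    (hb : z * (r * cmb x g f r α) ∈ jac (tot x g f r)) {i j : Fin m} (hij : i ≠ j) :
    z ∈ XP x (f j) (f i) := by
  have h0 := h.hd
  obtain ⟨w, hw⟩ := h.crt (b := fun j => α j • (z * r)) (by
    simpa only [cmb, Finset.mul_sum, mul_smul_comm, smul_mul_assoc, mul_assoc] using hb)
  have h1 : ∀ l, α l • z - w ∈ KP x g (f l) := fun l => h.rg_r l _ (by
    convert hw l using 1
    rw [smul_eq_C_mul, smul_eq_C_mul]
    ring)
  obtain ⟨p, c, h2⟩ := mem_KP.1 (h1 j)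
  obtain ⟨p', c', h3⟩ := mem_KP.1 (h1 i)
  have h4 : α j - α i ≠ 0 := sub_ne_zero.2 fun h => hij (hα h).symm
  have h5 : (C (α j - α i)⁻¹ : PS k K) * (C (α j) - C (α i)) = 1 := by
    rw [← map_sub, ← C_mul, inv_mul_cancel₀ h4, C_1]
  have h6 : z = ∑ o : Fin 2 ⊕ Fin k ⊕ Fin k,
      Sum.elim ![C (α j - α i)⁻¹ * p, -(C (α j - α i)⁻¹ * p')]
        (fun t => C (α j - α i)⁻¹ * (c t - c' t)) o * Sum.elim ![f j, f i] (Sum.elim x g) o := by
    rw [Fintype.sum_sum_type, Fin.sum_univ_two]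
    simp only [Sum.elim_inl, Sum.elim_inr, Matrix.cons_val_zero, Matrix.cons_val_one, mul_assoc,
      ← Finset.mul_sum, sub_mul, Finset.sum_sub_distrib]
    rw [smul_eq_C_mul] at h2 h3
    linear_combination C (α j - α i)⁻¹ * (h2 - h3) - z * h5
  have h7 := hom_dec (n := Sum.elim ![e j, e i] (Sum.elim (fun _ => 1) fun _ => d - 1))
    (fun o => by
      rcases o with o | t
      · fin_cases o
        · exact h.sp.hf j
        · exact h.sp.hf i
      · exact h.gen t) hz h6
  rw [Fintype.sum_sum_type, Fin.sum_univ_two, Fintype.sum_sum_type] at h7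
  have h8 : ¬ d - 1 ≤ ∑ j, e j + ∑ j, e j := by omega
  simp only [Sum.elim_inl, Sum.elim_inr, h8, if_false, zero_mul, Finset.sum_const_zero,
    add_zero] at h7
  exact mem_XP.2 ⟨_, _, _, h7⟩

omit [Algebra ℚ K] in
theorem rad_step {j : Fin m} (hrad : (XP x (f j) (hat f j)).IsRadical) {w : PS k K}
    (h : ∀ i, i ≠ j → w * w ∈ XP x (f j) (f i)) : w ∈ XP x (f j) (hat f j) := by
  have h1 := XP_prod (Finset.univ.erase j) fun i hi => h i (Finset.ne_of_mem_erase hi)
  rw [← pow_two, ← pow_mul] at h1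
  exact hrad ⟨_, h1⟩

omit [Algebra ℚ K] in
/-- The tangent space of the locus where all the cycles persist. -/
theorem Pt.final (h : Pt d e x g f r) {G : PS k K} (hG : G.IsHomogeneous d)
    (hb : ∀ j, ∃ v, G - v * (hat f j * r) ∈ KP x g (f j)) :
    ∃ c : (Fin k ⊕ Fin k) ⊕ Option (Fin m) → PS k K,
      (∀ o, (c o).IsHomogeneous (Sum.elim (Sum.elim (fun _ => d - 1) fun _ => 1)
        (fun o => o.elim (d - ∑ j, e j) e) o)) ∧
      G = ∑ o, c o * Sum.elim (Sum.elim x g) (fun o => o.elim (∏ i, f i) fun j => hat f j * r) o := by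
  have h0 := h.hd
  choose v hv using hb
  have h1 : ∀ j, G - ∑ l, v l * (hat f l * r) ∈ KP x g (f j) := fun j => by
    rw [← Finset.add_sum_erase _ _ (Finset.mem_univ j), ← sub_sub]
    refine sub_mem (hv j) (Ideal.sum_mem _ fun l hl => Ideal.mul_mem_left _ _
      (Ideal.mul_mem_right _ _ (Ideal.mem_of_dvd _ ?_ (self_mem_KP (f j)))))
    exact Finset.dvd_prod_of_mem f (Finset.mem_erase.2 ⟨(Finset.ne_of_mem_erase hl).symm,
      Finset.mem_univ _⟩)
  have h2 : ∀ T : Finset (Fin m), G - ∑ l, v l * (hat f l * r) ∈ KP x g (∏ i ∈ T, f i) := by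
    intro T
    induction T using Finset.induction_on with
    | empty => exact mem_KP.2 ⟨_, 0, by simp; rfl⟩
    | insert i T hi ih =>
      obtain ⟨p, c, h3⟩ := mem_KP.1 ih
      have h4 : Rg (KP x g (f i)) (∏ l ∈ T, f l) := Rg.prod _ fun l hl => h.rg_f (by
        rintro rfl
        exact hi hl)
      have h5 := h1 i
      rw [h3, Ideal.add_mem_iff_left _ (Ideal.sum_mem _ fun t _ =>
        Ideal.mul_mem_left _ _ (gen_mem_KP _ t)), mul_comm] at h5
      obtain ⟨p', c', h6⟩ := mem_KP.1 (h4 p h5)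
      refine mem_KP.2 ⟨p', fun t => c' t * (∏ l ∈ T, f l) + c t, ?_⟩
      rw [h3, h6, Finset.prod_insert hi]
      simp only [add_mul, Finset.sum_add_distrib, Finset.sum_mul]
      rw [add_assoc, mul_assoc]
      congr 2
      exact Finset.sum_congr rfl fun t _ => by ring
  obtain ⟨p, c, h3⟩ := mem_KP.1 (h2 Finset.univ)
  have h4 : G = ∑ o : (Fin k ⊕ Fin k) ⊕ Option (Fin m), Sum.elim c (fun o => o.elim p v) o *
      Sum.elim (Sum.elim x g) (fun o => o.elim (∏ i, f i) fun j => hat f j * r) o := by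
    rw [Fintype.sum_sum_type, Fintype.sum_option]
    simp only [Sum.elim_inl, Sum.elim_inr, Option.elim]
    linear_combination h3
  refine ⟨_, fun o => ?_, hom_dec (n := Sum.elim (Sum.elim (fun _ => 1) fun _ => d - 1)
    fun o => o.elim (∑ j, e j) fun j => d - e j) (fun o => ?_) hG h4⟩
  · split_ifs
    · convert homogeneousComponent_isHomogeneous _ _ using 1
      rcases o with (i | i) | (_ | j)
      · rfl
      · change 1 = d - (d - 1)
        omega
      · rfl
      · have := h.le j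
        change e j = d - (d - e j)
        omega
    · exact isHomogeneous_zero _ _ _
  · rcases o with t | (_ | j)
    · exact h.gen t
    · exact IsHomogeneous.prod Finset.univ f e fun i _ => h.sp.hf i
    · exact h.sp.hat_homog (by omega) j

end Pool.Agent.Lib.MP_e9c0f3_ag.H48
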