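import Pool.Agent.Lib.MP_e9c0f3_ag.H48.Jd

/-! The bracket attached to the forms `x`, `g`. -/

open MvPolynomial Matrix Function

namespace Pool.Agent.Lib.MP_e9c0f3_ag.H48

variable {R : Type} [CommRing R] {k m : ℕ}

/-- The polynomial ring in `2 k + 2` variables. -/
abbrev PS (k : ℕ) (R : Type) [CommRing R] : Type := Pol (k + 1 + (k + 1)) R

/-- The list `P, x, Q, g`. -/
noncomputable def fam (x g : Fin k → PS k R) (P Q : PS k R) : Fin (k + 1 + (k + 1)) → PS k R :=
  Fin.append (Fin.cons P x : Fin (k + 1) → PS k R) (Fin.cons Q g : Fin (k + 1) → PS k R)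

/-- The place of `P`. -/
def p0 (k : ℕ) : Fin (k + 1 + (k + 1)) := Fin.castAdd (k + 1) 0

/-- The place of `Q`. -/
def q0 (k : ℕ) : Fin (k + 1 + (k + 1)) := Fin.natAdd (k + 1) 0

/-- The places of `g` and `x`. -/
def row : Fin k ⊕ Fin k → Fin (k + 1 + (k + 1)) :=
  Sum.elim (fun i => Fin.natAdd (k + 1) i.succ) fun i => Fin.castAdd (k + 1) i.succ

theorem p0_ne_q0 : p0 k ≠ q0 k := cast_ne_nat _ _

theorem row_ne_p0 (t : Fin k ⊕ Fin k) : row t ≠ p0 k := by
  intro h
  have := congrArg Fin.val h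
  rcases t with i | i <;> simp [row, p0] at this

theorem row_ne_q0 (t : Fin k ⊕ Fin k) : row t ≠ q0 k := by
  intro h
  have := congrArg Fin.val h
  rcases t with i | i
  · simp [row, q0] at this
  · simp only [row, q0, Sum.elim_inr, Fin.val_castAdd, Fin.val_succ, Fin.val_natAdd,
      Fin.val_zero] at this
    omega

theorem idx_cases (ν : Fin (k + 1 + (k + 1))) : ν = p0 k ∨ ν = q0 k ∨ ∃ t, ν = row t := by
  refine Fin.addCases (fun i => ?_) (fun i => ?_) ν
  · exact Fin.cases (Or.inl rfl) (fun l => Or.inr (Or.inr ⟨Sum.inr l, rfl⟩)) i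
  · exact Fin.cases (Or.inr (Or.inl rfl)) (fun l => Or.inr (Or.inr ⟨Sum.inl l, rfl⟩)) i

variable (x g : Fin k → PS k R)

theorem fam_p0 (P Q : PS k R) : fam x g P Q (p0 k) = P := by
  rw [fam, p0, Fin.append_left, Fin.cons_zero]

theorem fam_q0 (P Q : PS k R) : fam x g P Q (q0 k) = Q := by
  rw [fam, q0, Fin.append_right, Fin.cons_zero]

theorem fam_row (P Q : PS k R) (t : Fin k ⊕ Fin k) : fam x g P Q (row t) = Sum.elim g x t := by
  rcases t with i | i
  · rw [fam, row, Sum.elim_inl, Fin.append_right, Fin.cons_succ, Sum.elim_inl]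
  · rw [fam, row, Sum.elim_inr, Fin.append_left, Fin.cons_succ, Sum.elim_inr]

theorem fam_update_p0 (P Q K : PS k R) : update (fam x g P Q) (p0 k) K = fam x g K Q := by
  funext ν
  rcases idx_cases ν with rfl | rfl | ⟨t, rfl⟩
  · rw [update_self, fam_p0]
  · rw [update_of_ne p0_ne_q0.symm, fam_q0, fam_q0]
  · rw [update_of_ne (row_ne_p0 t), fam_row, fam_row]

theorem fam_update_q0 (P Q K : PS k R) : update (fam x g P Q) (q0 k) K = fam x g P K := by
  funext ν
  rcases idx_cases ν with rfl | rfl | ⟨t, rfl⟩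
  · rw [update_of_ne p0_ne_q0, fam_p0, fam_p0]
  · rw [update_self, fam_q0]
  · rw [update_of_ne (row_ne_q0 t), fam_row, fam_row]

/-- The bracket. -/
noncomputable def br (P Q : PS k R) : PS k R := jd (fam x g P Q)

/-- The vector field `K ↦ br K Q`. -/
noncomputable def cq (Q : PS k R) : Fin (k + 1 + (k + 1)) → PS k R := cof (fam x g 0 Q) (p0 k)

theorem vf_cq (K Q : PS k R) : vf (cq x g Q) K = br x g K Q := by
  rw [cq, ← jd_update, fam_update_p0, br]

theorem br_right (P K : PS k R) : br x g P K = vf (cof (fam x g P 0) (q0 k)) K := by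
  rw [← jd_update, fam_update_q0, br]

theorem br_self (P : PS k R) : br x g P P = 0 :=
  jd_of_eq p0_ne_q0 (by rw [fam_p0, fam_q0])

theorem br_add_left (P P' Q : PS k R) : br x g (P + P') Q = br x g P Q + br x g P' Q := by
  simp only [← vf_cq, vf_add]

theorem br_add_right (P Q Q' : PS k R) : br x g P (Q + Q') = br x g P Q + br x g P Q' := by
  simp only [br_right, vf_add]

theorem br_mul_left (P P' Q : PS k R) :
    br x g (P * P') Q = P * br x g P' Q + P' * br x g P Q := by
  simp only [← vf_cq, vf_mul]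

theorem br_mul_right (P Q Q' : PS k R) :
    br x g P (Q * Q') = Q * br x g P Q' + Q' * br x g P Q := by
  simp only [br_right, vf_mul]

theorem br_swap (P Q : PS k R) : br x g P Q = -br x g Q P := by
  have h := br_self x g (P + Q)
  rw [br_add_left, br_add_right, br_add_right, br_self, br_self] at h
  linear_combination h

theorem vf_cq_xg (Q f : PS k R) : vf (cq x g Q) (∑ i, x i * g i + f) = br x g f Q := by
  rw [vf_add, vf_cq x g f, vf_sum, Finset.sum_eq_zero, zero_add]
  intro i _
  have h1 := vf_cof_ne (fam x g 0 Q) (row_ne_p0 (Sum.inl i))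
  have h2 := vf_cof_ne (fam x g 0 Q) (row_ne_p0 (Sum.inr i))
  rw [fam_row] at h1 h2
  rw [vf_mul, cq, show vf _ (g i) = 0 from h1, show vf _ (x i) = 0 from h2]
  ring

theorem br_prod_left {α : Type} [DecidableEq α] (T : Finset α) (f : α → PS k R) (Q : PS k R) :
    br x g (∏ j ∈ T, f j) Q = ∑ j ∈ T, br x g (f j) Q * ∏ i ∈ T.erase j, f i := by
  have h := der_prod (AddMonoidHom.mk' (vf (cq x g Q)) (vf_add _)) (fun p q => by
    change vf _ (p * q) = vf _ p * q + p * vf _ q
    rw [vf_mul]
    ring) T f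
  simp only [← vf_cq]
  exact h

theorem br_sum_zero {α : Type} [DecidableEq α] (T : Finset α) (f : α → PS k R) :
    ∑ j ∈ T, br x g (∏ i ∈ T.erase j, f i) (f j) = 0 := by
  induction T using Finset.induction_on with
  | empty => simp
  | insert i T hi ih =>
    rw [Finset.sum_insert hi, Finset.erase_insert hi, br_prod_left]
    have h1 : ∀ j ∈ T, br x g (∏ l ∈ (insert i T).erase j, f l) (f j) =
        f i * br x g (∏ l ∈ T.erase j, f l) (f j) -
          br x g (f j) (f i) * ∏ l ∈ T.erase j, f l := fun j hj => by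
      have hij : i ≠ j := fun h => hi (h ▸ hj)
      rw [Finset.erase_insert_of_ne hij,
        Finset.prod_insert fun h => hi (Finset.mem_of_mem_erase h), br_mul_left,
        br_swap x g (f i) (f j)]
      ring
    rw [Finset.sum_congr rfl h1, Finset.sum_sub_distrib, ← Finset.mul_sum, ih]
    ring

/-- The vector field of the row `t`. -/
noncomputable def ct (t : Fin k ⊕ Fin k) (P Q : PS k R) : Fin (k + 1 + (k + 1)) → PS k R :=
  cof (fam x g P Q) (row t)

/-- The triple bracket. -/
noncomputable def tr (t : Fin k ⊕ Fin k) (K P Q : PS k R) : PS k R := vf (ct x g t P Q) K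

variable (t : Fin k ⊕ Fin k)

theorem tr_two (K P Q : PS k R) :
    tr x g t K P Q = vf (cof (update (fam x g 0 Q) (row t) K) (p0 k)) P := by
  rw [tr, ct, ← jd_update, ← jd_update, update_comm (row_ne_p0 t), fam_update_p0]

theorem tr_three (K P Q : PS k R) :
    tr x g t K P Q = vf (cof (update (fam x g P 0) (row t) K) (q0 k)) Q := by
  rw [tr, ct, ← jd_update, ← jd_update, update_comm (row_ne_q0 t), fam_update_q0]

theorem tr_z12 (P Q : PS k R) : tr x g t P P Q = 0 := by
  have h := vf_cof_ne (fam x g P Q) (row_ne_p0 t).symm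
  rwa [fam_p0] at h

theorem tr_z13 (P Q : PS k R) : tr x g t Q P Q = 0 := by
  have h := vf_cof_ne (fam x g P Q) (row_ne_q0 t).symm
  rwa [fam_q0] at h

theorem tr_z23 (K P : PS k R) : tr x g t K P P = 0 := by
  rw [tr, ct, ← jd_update]
  exact jd_of_eq p0_ne_q0 (by
    rw [update_of_ne (row_ne_p0 t).symm, update_of_ne (row_ne_q0 t).symm, fam_p0, fam_q0])

theorem tr_swap12 (K P Q : PS k R) : tr x g t K P Q = -tr x g t P K Q := by
  have h := tr_z12 x g t (K + P) Q
  have a1 : ∀ K K' P, tr x g t (K + K') P Q = tr x g t K P Q + tr x g t K' P Q :=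
    fun K K' P => vf_add _ _ _
  have a2 : ∀ K P P', tr x g t K (P + P') Q = tr x g t K P Q + tr x g t K P' Q :=
    fun K P P' => by simp only [tr_two, vf_add]
  rw [a1, a2, a2, tr_z12, tr_z12] at h
  linear_combination h

theorem tr_swap23 (K P Q : PS k R) : tr x g t K P Q = -tr x g t K Q P := by
  have h := tr_z23 x g t K (P + Q)
  have a2 : ∀ P P' Q, tr x g t K (P + P') Q = tr x g t K P Q + tr x g t K P' Q :=
    fun P P' Q => by simp only [tr_two, vf_add]
  have a3 : ∀ P Q Q', tr x g t K P (Q + Q') = tr x g t K P Q + tr x g t K P Q' :=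
    fun P Q Q' => by simp only [tr_three, vf_add]
  rw [a2, a3, a3, tr_z23, tr_z23] at h
  linear_combination h

theorem tr_mul1 (K K' P Q : PS k R) :
    tr x g t (K * K') P Q = K * tr x g t K' P Q + K' * tr x g t K P Q := vf_mul _ _ _

theorem tr_mul3 (K P Q Q' : PS k R) :
    tr x g t K P (Q * Q') = Q * tr x g t K P Q' + Q' * tr x g t K P Q := by
  simp only [tr_three, vf_mul]

theorem vf_ct_xg (P Q f : PS k R) :
    vf (ct x g t P Q) (∑ i, x i * g i + f) = Sum.elim x g t * br x g P Q + tr x g t f P Q := by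
  rw [vf_add]
  congr 1
  have h0 : vf (ct x g t P Q) (P * Q) = 0 := by
    have h := tr_mul1 x g t P Q P Q
    rw [tr_z12, tr_z13, mul_zero, mul_zero, add_zero] at h
    exact h
  have h1 : ∑ l : Fin (k + 1), (Fin.cons P x : Fin (k + 1) → PS k R) l *
      (Fin.cons Q g : Fin (k + 1) → PS k R) l = P * Q + ∑ i, x i * g i := by
    rw [Fin.sum_univ_succ]
    rfl
  rcases t with i | i
  · have h := vf_cof_right (Fin.cons P x : Fin (k + 1) → PS k R) (Fin.cons Q g) i.succ
    rw [h1, vf_add] at h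
    exact (zero_add _).symm.trans (h0 ▸ h)
  · have h := vf_cof_left (Fin.cons P x : Fin (k + 1) → PS k R) (Fin.cons Q g) i.succ
    rw [h1, vf_add] at h
    exact (zero_add _).symm.trans (h0 ▸ h)

/-- The identity behind the second-order obstruction. -/
theorem tr_key (P H r : PS k R) : tr x g t (P * H) P (H * r) =
    vf (ct x g t H P) (∑ i, x i * g i + P * H * r) - Sum.elim x g t * br x g H P := by
  rw [vf_ct_xg, tr_mul1, tr_z12, tr_mul3, tr_z13, tr_mul1 x g t (P * H), tr_mul1 x g t P H,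
    tr_z12, tr_z13, tr_swap12 x g t r H P, tr_swap23 x g t H r P]
  ring

section cyc

variable (f : Fin m → PS k R) (r : PS k R)

/-- The product of all the `f i` but one. -/
noncomputable def hat (j : Fin m) : PS k R := ∏ i ∈ Finset.univ.erase j, f i

theorem mul_hat (j : Fin m) : f j * hat f j = ∏ i, f i :=
  Finset.mul_prod_erase _ _ (Finset.mem_univ j)

theorem cyc_eq (j : Fin m) : cyc x g f r j = br x g (f j) (hat f j * r) := rfl

theorem sum_cyc : ∑ j, cyc x g f r j = br x g (∏ i, f i) r := by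
  have h := br_sum_zero x g Finset.univ f
  rw [br_prod_left]
  have h1 : ∀ j, cyc x g f r j = br x g (f j) r * ∏ i ∈ Finset.univ.erase j, f i -
      r * br x g (∏ i ∈ Finset.univ.erase j, f i) (f j) := fun j => by
    rw [cyc_eq, br_mul_right, br_swap x g (f j) (hat f j), hat]
    ring
  simp only [h1, Finset.sum_sub_distrib, ← Finset.mul_sum, h, mul_zero, sub_zero]

theorem f_mul_cyc (j : Fin m) : f j * cyc x g f r j =
    -vf (cq x g (f j)) (∑ i, x i * g i + (∏ i, f i) * r) := by
  rw [vf_cq_xg, ← mul_hat f j, mul_assoc, br_mul_left, br_self, cyc_eq,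
    br_swap x g (hat f j * r) (f j)]
  ring

theorem hat_mul_cyc (j : Fin m) : hat f j * r * cyc x g f r j =
    vf (cq x g (hat f j * r)) (∑ i, x i * g i + (∏ i, f i) * r) := by
  rw [vf_cq_xg, ← mul_hat f j, mul_assoc (f j), br_mul_left, br_self, cyc_eq]
  ring

theorem r_mul_br : r * br x g (∏ i, f i) r =
    vf (cq x g r) (∑ i, x i * g i + (∏ i, f i) * r) := by
  rw [vf_cq_xg, br_mul_left, br_self]
  ring

theorem gen_mul_cyc (j : Fin m) : Sum.elim x g t * cyc x g f r j =
    vf (ct x g t (f j) (hat f j * r)) (∑ i, x i * g i + (∏ i, f i) * r) := by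
  rw [vf_ct_xg, ← mul_hat f j, mul_assoc, tr_mul1, tr_z12, tr_z13, cyc_eq]
  ring

end cyc

end Pool.Agent.Lib.MP_e9c0f3_ag.H48
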