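import Pool.Agent.Lib.MP_e9c0f3_ag.Defs

/-! Hypersurfaces in a common linear subspace and their classes. -/

open MvPolynomial

namespace Pool.Agent.Lib.MP_e9c0f3_ag.H48

variable {R : Type} [CommRing R] {k m : ℕ}

/-- The Jacobian determinant. -/
noncomputable def jd {N : ℕ} (P : Fin N → MvPolynomial (Fin N) R) : MvPolynomial (Fin N) R :=
  Matrix.det (Matrix.of fun i j => pderiv j (P i))

/-- The form `F` of degree `d` restricts to `f 1 ⋯ f m * r` on the linear space `x = 0`. -/
structure Split (d : ℕ) (e : Fin m → ℕ) (F : MvPolynomial (Fin (k + 1 + (k + 1))) R)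
    (x g : Fin k → MvPolynomial (Fin (k + 1 + (k + 1))) R)
    (f : Fin m → MvPolynomial (Fin (k + 1 + (k + 1))) R)
    (r : MvPolynomial (Fin (k + 1 + (k + 1))) R) : Prop where
  hx : ∀ i, (x i).IsHomogeneous 1
  hg : ∀ i, (g i).IsHomogeneous (d - 1)
  hf : ∀ j, (f j).IsHomogeneous (e j)
  hr : r.IsHomogeneous (d - ∑ j, e j)
  eq : F = ∑ i, x i * g i + (∏ j, f j) * r

/-- The class of the complete intersection `x = f j = 0`: the Jacobian determinant of its
equations and of their cofactors in `F`. -/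
noncomputable def cyc (x g : Fin k → MvPolynomial (Fin (k + 1 + (k + 1))) R)
    (f : Fin m → MvPolynomial (Fin (k + 1 + (k + 1))) R)
    (r : MvPolynomial (Fin (k + 1 + (k + 1))) R) (j : Fin m) :
    MvPolynomial (Fin (k + 1 + (k + 1))) R :=
  jd (Fin.append (Fin.cons (f j) x) (Fin.cons ((∏ i ∈ Finset.univ.erase j, f i) * r) g))

end Pool.Agent.Lib.MP_e9c0f3_ag.H48
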