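import Pool.Agent.Lib.MP_e9c0f3_ag.Jet2

/-! Multiplicative functionals on the associated graded ring of a smooth point. -/

open MvPolynomial

namespace Pool.Agent.Lib.MP_e9c0f3_ag.H48

variable {A : Type} [CommRing A] [Algebra ℂ A] {N : ℕ} {s : A →ₐ[ℂ] ℂ}

theorem der_pow_mem (D : Derivation ℂ A A) (n : ℕ) :
    ∀ a ∈ RingHom.ker s ^ (n + 1), D a ∈ RingHom.ker s ^ n := by
  induction n with
  | zero =>
    intro a _
    simp
  | succ n ih =>
    intro a ha
    rw [pow_succ] at ha
    refine Submodule.mul_induction_on ha (fun x hx y hy => ?_) (fun x y hx hy => ?_)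
    · rw [Derivation.leibniz, smul_eq_mul, smul_eq_mul]
      refine add_mem (Ideal.mul_mem_right _ _ hx) ?_
      rw [mul_comm, pow_succ]
      exact Ideal.mul_mem_mul (ih x hx) hy
    · rw [map_add]
      exact add_mem hx hy

/-- The value at `s` of the `n`-th derivative. -/
noncomputable def ev (s : A →ₐ[ℂ] ℂ) (D : Derivation ℂ A A) (n : ℕ) : A →+ ℂ :=
  (s.toLinearMap ∘ₗ ((D : A →ₗ[ℂ] A) ^ n : Module.End ℂ A)).toAddMonoidHom

theorem ev_zero (D : Derivation ℂ A A) (a : A) : ev s D 0 a = s a := rfl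

theorem ev_succ (D : Derivation ℂ A A) (n : ℕ) (a : A) : ev s D (n + 1) a = ev s D n (D a) := by
  change s (((D : A →ₗ[ℂ] A) ^ (n + 1) : Module.End ℂ A) a) = _
  rw [pow_succ]
  rfl

theorem ev_van (D : Derivation ℂ A A) (n : ℕ) :
    ∀ a ∈ RingHom.ker s ^ (n + 1), ev s D n a = 0 := by
  induction n with
  | zero =>
    intro a ha
    rw [zero_add, pow_one] at ha
    exact ha
  | succ n ih =>
    intro a ha
    rw [ev_succ]
    exact ih _ (der_pow_mem D _ a ha)

theorem ev_mul (D : Derivation ℂ A A) (n : ℕ) : ∀ i j, i + j = n → ∀ a ∈ RingHom.ker s ^ i,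
    ∀ b ∈ RingHom.ker s ^ j, ev s D n (a * b) = (n.choose i : ℂ) * (ev s D i a * ev s D j b) := by
  induction n with
  | zero =>
    intro i j h a _ b _
    obtain rfl : i = 0 := by omega
    obtain rfl : j = 0 := by omega
    simp [ev_zero]
  | succ n ih =>
    intro i j h a ha b hb
    rw [ev_succ, Derivation.leibniz, smul_eq_mul, smul_eq_mul, map_add, mul_comm b]
    rcases i with _ | i
    · obtain rfl : j = n + 1 := by omega
      rw [ih 0 n (by omega) a ha _ (der_pow_mem D _ b hb),
        ev_van D n _ (Ideal.mul_mem_left _ _ hb), ev_succ]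
      simp
    · rcases j with _ | j
      · obtain rfl : i = n := by omega
        rw [ih i 0 (by omega) _ (der_pow_mem D _ a ha) b hb,
          ev_van D i _ (Ideal.mul_mem_right _ _ ha), ev_succ]
        simp
      · rw [ih (i + 1) j (by omega) a ha _ (der_pow_mem D _ b hb),
          ih i (j + 1) (by omega) _ (der_pow_mem D _ a ha) b hb, Nat.choose_succ_succ', ← ev_succ,
          ← ev_succ]
        push_cast
        ring

theorem ev_level (D : Derivation ℂ A A) (n : ℕ) : Level s n (ev s D n) :=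
  ⟨fun x y hy => by
    rw [ev_mul D n 0 n (by omega) x (by simp) y hy]
    simp [ev_zero], ev_van D n⟩

theorem level_smul {n : ℕ} {φ : A →+ ℂ} (hφ : Level s n φ) (c : ℂ) {y : A}
    (hy : y ∈ RingHom.ker s ^ n) : φ (c • y) = c * φ y := by
  rw [Algebra.smul_def, hφ.mul _ _ hy]
  exact congrArg (· * φ y) (s.commutes c)

theorem exists_der [Algebra.FormallySmooth ℂ A] {ξ : A →+ ℂ} (hξ : Level s 1 ξ) :
    ∃ D : Derivation ℂ A A, ∀ a ∈ RingHom.ker s, s (D a) = ξ a := by
  have hm : ∀ a, a - algebraMap ℂ A (s a) ∈ RingHom.ker s ^ 1 := fun a => by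
    rw [pow_one]
    exact jet_sub_mem s a
  let l : A →ₗ[ℂ] A ⧸ RingHom.ker s :=
    { toFun := fun a => Ideal.Quotient.mk _ (algebraMap ℂ A (ξ (a - algebraMap ℂ A (s a))))
      map_add' := fun a b => by
        rw [← map_add, ← map_add, ← map_add, map_add s, map_add (algebraMap ℂ A)]
        congr 3
        ring
      map_smul' := fun c a => by
        have h1 : c • a - algebraMap ℂ A (s (c • a)) = c • (a - algebraMap ℂ A (s a)) := by
          rw [map_smul, smul_sub, smul_eq_mul, map_mul, ← Algebra.smul_def]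
        rw [h1, level_smul hξ c (hm a), map_mul, ← Algebra.smul_def]
        rfl }
  have hl : ∀ a, l a = Ideal.Quotient.mk _ (algebraMap ℂ A (ξ (a - algebraMap ℂ A (s a)))) :=
    fun _ => rfl
  let δ : Derivation ℂ A (A ⧸ RingHom.ker s) := Derivation.mk' l fun a b => by
    have h1 : a * b - algebraMap ℂ A (s (a * b)) =
        a * (b - algebraMap ℂ A (s b)) + s b • (a - algebraMap ℂ A (s a)) := by
      rw [map_mul, map_mul, Algebra.smul_def]
      ring
    rw [hl, hl, hl, h1, map_add ξ, hξ.mul _ _ (hm b), level_smul hξ _ (hm a)]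
    change _ = Ideal.Quotient.mk _ (a * _) + Ideal.Quotient.mk _ (b * _)
    rw [← map_add, Ideal.Quotient.eq, RingHom.mem_ker]
    simp
  obtain ⟨h, hh⟩ := Module.projective_lifting_property (Submodule.mkQ (RingHom.ker s))
    δ.liftKaehlerDifferential (Submodule.mkQ_surjective _)
  refine ⟨h.compDer (KaehlerDifferential.D ℂ A), fun a ha => ?_⟩
  have h1 := LinearMap.congr_fun hh (KaehlerDifferential.D ℂ A a)
  rw [Derivation.liftKaehlerDifferential_comp_D] at h1
  have h2 : h (KaehlerDifferential.D ℂ A a) -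
      algebraMap ℂ A (ξ (a - algebraMap ℂ A (s a))) ∈ RingHom.ker s := Ideal.Quotient.eq.mp h1
  rw [RingHom.mem_ker, map_sub, AlgHom.commutes, (RingHom.mem_ker.1 ha : s a = 0), map_zero,
    sub_zero, sub_eq_zero] at h2
  exact h2

variable [IsNoetherianRing A] [Algebra.FormallySmooth ℂ A]

/-- The functionals `ev` separate the points of the graded piece. -/
theorem ev_sep {n : ℕ} {a : A} (ha : a ∈ RingHom.ker s ^ n) (h : ∀ D, ev s D n a = 0) :
    a ∈ RingHom.ker s ^ (n + 1) := by
  obtain ⟨r, t, φ, ht, hφ, hdual⟩ := exists_dual (N := 0) s 1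
  have hd : ∀ c ∈ RingHom.ker s, c - ∑ μ, t μ * algebraMap ℂ A (φ μ c) ∈ RingHom.ker s ^ 2 := by
    intro c hc
    have h1 := mem_CI.1 (hdual (C c) (Ideal.mem_map_of_mem _ (by rwa [pow_one]))) 0
    simpa only [coeff_sub, coeff_sum, coeff_smul, coeff_map, coeff_cmap, coeff_zero_C,
      smul_eq_mul] using h1
  have hD : ∀ v : Fin r → ℂ, ∃ D : Derivation ℂ A A, ∀ c ∈ RingHom.ker s,
      s (D c) = ∑ μ, v μ * φ μ c := fun v => by
    have h1 : Level s 1 (∑ μ, (AddMonoidHom.mulLeft (v μ)).comp (φ μ)) := by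
      refine ⟨fun x y hy => ?_, fun y hy => ?_⟩
      · simp only [AddMonoidHom.finset_sum_apply, AddMonoidHom.comp_apply,
          AddMonoidHom.coe_mulLeft, Finset.mul_sum]
        refine Finset.sum_congr rfl fun μ _ => ?_
        rw [(hφ μ).mul x y hy]
        ring
      · simp only [AddMonoidHom.finset_sum_apply, AddMonoidHom.comp_apply,
          AddMonoidHom.coe_mulLeft, (hφ _).zero y hy, mul_zero, Finset.sum_const_zero]
    obtain ⟨D, hD⟩ := exists_der h1
    refine ⟨D, fun c hc => ?_⟩
    rw [hD c hc]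
    simp only [AddMonoidHom.finset_sum_apply, AddMonoidHom.comp_apply, AddMonoidHom.coe_mulLeft]
  choose D hD using hD
  have key : ∀ n : ℕ, ∀ a ∈ RingHom.ker s ^ n, ∃ P : MvPolynomial (Fin r) ℂ,
      a - aeval t P ∈ RingHom.ker s ^ (n + 1) ∧
        ∀ v, ev s (D v) n a = (n.factorial : ℂ) * eval v P := by
    intro n
    induction n with
    | zero =>
      intro a _
      refine ⟨C (s a), ?_, fun v => by simp [ev_zero]⟩
      rw [zero_add, pow_one, aeval_C]
      exact jet_sub_mem s a
    | succ n ih =>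
      intro a ha
      rw [pow_succ] at ha
      refine Submodule.mul_induction_on ha (fun b hb c hc => ?_) (fun x y hx hy => ?_)
      · obtain ⟨P, h1, h2⟩ := ih b hb
        refine ⟨P * ∑ μ, X μ * C (φ μ c), ?_, fun v => ?_⟩
        · have h3 := hd c hc
          have h4 : ∑ μ, t μ * algebraMap ℂ A (φ μ c) ∈ RingHom.ker s :=
            Ideal.sum_mem _ fun μ _ => Ideal.mul_mem_right _ _ (by simpa using ht μ)
          have h5 := Ideal.mul_mem_mul h1 h4
          have h6 := Ideal.mul_mem_mul hb h3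
          rw [← pow_succ] at h5
          rw [← pow_add] at h6
          have h7 := add_mem h5 h6
          simp only [map_mul, map_sum, aeval_X, aeval_C]
          convert h7 using 1
          ring
        · rw [ev_mul (D v) (n + 1) n 1 rfl b hb c (by rwa [pow_one]), h2, ev_succ, ev_zero,
            hD v c hc, Nat.choose_succ_self_right, Nat.factorial_succ]
          simp only [map_mul, map_sum, eval_X, eval_C]
          push_cast
          ring
      · obtain ⟨P, h1, h2⟩ := hx
        obtain ⟨Q, h3, h4⟩ := hy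
        refine ⟨P + Q, ?_, fun v => ?_⟩
        · have := add_mem h1 h3
          rw [map_add]
          convert this using 1
          ring
        · rw [map_add, map_add, h2, h4, mul_add]
  obtain ⟨P, h1, h2⟩ := key n a ha
  have h3 : P = 0 := MvPolynomial.funext fun v => by
    have := h2 v
    rw [h, eq_comm, mul_eq_zero] at this
    rw [map_zero]
    exact this.resolve_left (Nat.cast_ne_zero.2 n.factorial_ne_zero)
  rwa [h3, map_zero, sub_zero] at h1

omit [IsNoetherianRing A] [Algebra.FormallySmooth ℂ A] in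
theorem cmap_ev_sq (D : Derivation ℂ A A) {n : ℕ} {w : Pol N A} (hw : w ∈ CI N s n) :
    cmap (ev s D (n + n)) (w * w) =
      ((n + n).choose n : ℂ) • (cmap (ev s D n) w * cmap (ev s D n) w) := by
  classical
  ext m
  rw [coeff_cmap, coeff_smul, coeff_mul, coeff_mul, map_sum, Finset.smul_sum]
  refine Finset.sum_congr rfl fun x _ => ?_
  rw [ev_mul D (n + n) n n rfl _ (mem_CI.1 hw _) _ (mem_CI.1 hw _), coeff_cmap, coeff_cmap,
    smul_eq_mul]

theorem level_mem_of_ev {n : ℕ} {w : Pol N A} (hw : w ∈ CI N s n) (I : Ideal (Pol N ℂ))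
    (h : ∀ D, cmap (ev s D n) w ∈ I) {φ : A →+ ℂ} (hφ : Level s n φ) : cmap φ w ∈ I := by
  by_contra h0
  obtain ⟨ρ, hρ, hρ0⟩ := Submodule.exists_dual_map_eq_bot_of_notMem (p := I.restrictScalars ℂ)
    (x := cmap φ w) h0 inferInstance
  have hz : ∀ a ∈ I, ρ a = 0 := fun a ha => by
    have : ρ a ∈ (I.restrictScalars ℂ).map ρ := Submodule.mem_map_of_mem ha
    rwa [hρ0, Submodule.mem_bot] at this
  have h1 : ∀ ψ : A →+ ℂ, Level s n ψ →
      ρ (cmap ψ w) = ψ (∑ m ∈ w.support, ρ (monomial m 1) • coeff m w) := fun ψ hψ => by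
    change ρ (∑ m ∈ w.support, monomial m (ψ (coeff m w))) = _
    rw [map_sum, map_sum]
    refine Finset.sum_congr rfl fun m _ => ?_
    rw [level_smul hψ _ (mem_CI.1 hw m), mul_comm, ← smul_eq_mul, ← map_smul, smul_monomial,
      smul_eq_mul, mul_one]
  have h2 : ∑ m ∈ w.support, ρ (monomial m 1) • coeff m w ∈ RingHom.ker s ^ n :=
    Ideal.sum_mem _ fun m _ => by
      rw [Algebra.smul_def]
      exact Ideal.mul_mem_left _ _ (mem_CI.1 hw m)
  have h3 := ev_sep h2 fun D => by rw [← h1 _ (ev_level D n), hz _ (h D)]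
  exact hρ (by rw [h1 φ hφ, hφ.zero _ h3])

end Pool.Agent.Lib.MP_e9c0f3_ag.H48
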