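import Pool.Agent.Lib.MP_e9c0f3_ag.H48.Step
import Pool.Agent.Lib.MP_e9c0f3_ag.Glob2

/-! From jets to the generic point, and descent of the ground field. -/

open MvPolynomial

namespace Pool.Agent.Lib.MP_e9c0f3_ag.H48

variable {R R' : Type} [CommRing R] [CommRing R'] {k m d : ℕ} {e : Fin m → ℕ}

/-- The class of `β` is the combination of the cycles of a splitting of `F`. -/
def Has (d : ℕ) (e : Fin m → ℕ) (α : Fin m → R) (F β : PS k R) : Prop :=
  ∃ x g f r, Split d e F x g f r ∧ Exact F (β - cmb x g f r α)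

theorem Has.map (φ : R →+* R') {α : Fin m → R} {F β : PS k R} (h : Has d e α F β) :
    Has d e (fun j => φ (α j)) (map φ F) (map φ β) := by
  obtain ⟨x, g, f, r, h1, h2⟩ := h
  refine ⟨_, _, _, _, h1.map φ, ?_⟩
  have h3 := h2.map φ
  rwa [map_sub, map_cmb] at h3

theorem Split.of_map {φ : R →+* R'} (hφ : Function.Injective φ) {F r : PS k R}
    {x g : Fin k → PS k R} {f : Fin m → PS k R}
    (h : Split d e (MvPolynomial.map φ F) (fun i => MvPolynomial.map φ (x i))
      (fun i => MvPolynomial.map φ (g i)) (fun i => MvPolynomial.map φ (f i))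
      (MvPolynomial.map φ r)) : Split d e F x g f r :=
  ⟨fun i => (h.hx i).of_map hφ, fun i => (h.hg i).of_map hφ, fun i => (h.hf i).of_map hφ,
    h.hr.of_map hφ, map_injective φ hφ (h.eq.trans (map_tot x g f r φ).symm)⟩

theorem exists_retract {K L ι : Type} [Field K] [IsAlgClosed K] [Field L] [Fintype ι] {N : ℕ}
    (f : K →+* L) (p : ι → Pol N L) :
    ∃ (B : Type) (_ : CommRing B) (g : B →+* L) (i : K →+* B) (π : B →+* K) (q : ι → Pol N B),
      Function.Injective g ∧ g.comp i = f ∧ π.comp i = RingHom.id K ∧ ∀ a, map g (q a) = p a := by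
  classical
  let : Algebra K L := f.toAlgebra
  let S : Finset L := Finset.univ.biUnion fun a => (p a).coeffs
  let B : Subalgebra K L := Algebra.adjoin K (S : Set L)
  let g : B →+* L := B.val.toRingHom
  have hS : (S : Set L) ⊆ Set.range g := fun x hx => ⟨⟨x, Algebra.subset_adjoin hx⟩, rfl⟩
  have hp : ∀ a, ∃ v : Pol N B, map g v = p a := fun a =>
    mem_range_map_iff_coeffs_subset.mpr fun c hc => hS (Finset.mem_coe.mpr
      (Finset.mem_biUnion.mpr ⟨a, Finset.mem_univ _, hc⟩))
  choose q hq using hp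
  have : Algebra.FiniteType K B := (Subalgebra.fg_iff_finiteType B).mp ⟨S, rfl⟩
  obtain ⟨𝔪, h𝔪⟩ := Ideal.exists_maximal B
  let : Field (B ⧸ 𝔪) := Ideal.Quotient.field 𝔪
  have : Module.Finite K (B ⧸ 𝔪) := finite_of_finite_type_of_isJacobsonRing K (B ⧸ 𝔪)
  let ε : K ≃+* B ⧸ 𝔪 := RingEquiv.ofBijective (algebraMap K (B ⧸ 𝔪))
    IsAlgClosed.algebraMap_bijective_of_isIntegral
  exact ⟨B, inferInstance, g, algebraMap K B, ε.symm.toRingHom.comp (Ideal.Quotient.mk 𝔪), q,
    Subtype.val_injective, RingHom.ext fun _ => rfl, RingHom.ext fun x => ε.symm_apply_apply x, hq⟩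

/-- Descent to an algebraically closed subfield. -/
theorem Has.descend {K L : Type} [Field K] [IsAlgClosed K] [Field L] (φ : K →+* L)
    {α : Fin m → K} {F β : PS k K}
    (h : Has d e (fun j => φ (α j)) (MvPolynomial.map φ F) (MvPolynomial.map φ β)) :
    Has d e α F β := by
  obtain ⟨x, g, f, r, h1, u, hu⟩ := h
  obtain ⟨B, _, ψ, i, π, q, h2, h3, h4, h5⟩ := exists_retract φ
    (Sum.elim (Sum.elim x g) (Sum.elim (fun o : Option (Fin m) => o.elim r f) u))
  have hx : ∀ l, MvPolynomial.map ψ (q (.inl (.inl l))) = x l := fun l => h5 _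
  have hg : ∀ l, MvPolynomial.map ψ (q (.inl (.inr l))) = g l := fun l => h5 _
  have hf : ∀ l, MvPolynomial.map ψ (q (.inr (.inl (some l)))) = f l := fun l => h5 _
  have hr : MvPolynomial.map ψ (q (.inr (.inl none))) = r := h5 _
  have hv : ∀ l, MvPolynomial.map ψ (q (.inr (.inr l))) = u l := fun l => h5 _
  have h6 : ∀ a, ψ (i a) = φ a := fun a => RingHom.congr_fun h3 a
  have hB : Has d e (fun j => i (α j)) (MvPolynomial.map i F) (MvPolynomial.map i β) := by
    refine ⟨fun l => q (.inl (.inl l)), fun l => q (.inl (.inr l)),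
      fun l => q (.inr (.inl (some l))), q (.inr (.inl none)), Split.of_map h2 ?_,
      exact_iff.2 ⟨fun l => q (.inr (.inr l)), map_injective ψ h2 ?_⟩⟩
    · simpa only [hx, hg, hf, hr, MvPolynomial.map_map, h3] using h1
    · rw [map_sub, map_cmb, map_dtw]
      simp only [hx, hg, hf, hr, hv, MvPolynomial.map_map, h3, h6]
      exact hu
  have h7 := hB.map π
  have h8 : ∀ a, π (i a) = a := fun a => RingHom.congr_fun h4 a
  simpa only [MvPolynomial.map_map, h4, MvPolynomial.map_id, h8] using h7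

theorem assemble_hom {N : ℕ} {B : ℕ → Type} [∀ n, CommRing (B n)] {D : ℕ} (p : ∀ n, Pol N (B n))
    (hp : ∀ n, (p n).IsHomogeneous D) :
    ∃ P : Pol N (∀ n, B n), P.IsHomogeneous D ∧ ∀ n, map (Pi.evalRingHom B n) P = p n := by
  obtain ⟨P, hP⟩ := glob2_assemble (D + 1) p fun n =>
    mem_lt_of_isHomogeneous (hp n) (Nat.lt_succ_self D)
  refine ⟨P, fun μ hμ => ?_, hP⟩
  obtain ⟨n, hn⟩ := Function.ne_iff.1 hμ
  refine hp n ?_
  rw [← hP n, coeff_map]
  exact hn

/-- The cycles extend over an extension of the function field. -/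
theorem Start.generic {A : Type} [CommRing A] [IsDomain A] [IsNoetherianRing A] [Algebra ℂ A]
    [Algebra.FormallySmooth ℂ A] {s : A →ₐ[ℂ] ℂ} {E : Derivation ℂ A A} {F β : PS k A}
    {α : Fin m → ℂ} {x₀ g₀ : Fin k → PS k ℂ} {f₀ : Fin m → PS k ℂ} {r₀ : PS k ℂ}
    (h : Start d e s E F β α x₀ g₀ f₀ r₀) :
    ∃ (L : Type) (_ : Field L) (φ : A →+* L), Function.Injective φ ∧
      Has d e (fun j => φ (algebraMap ℂ A (α j))) (map φ F) (map φ β) := by
  choose x g f r l u hu hex using h.lift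
  let B : ℕ → Type := fun n => A ⧸ RingHom.ker s ^ (n + 1)
  let mk : ∀ n, A →+* B n := fun n => Ideal.Quotient.mk (RingHom.ker s ^ (n + 1))
  let j : A →+* ∀ n, B n := RingHom.pi mk
  have hj : ∀ n (p : PS k A), map (Pi.evalRingHom B n) (map j p) = map (mk n) p := fun n p => by
    rw [MvPolynomial.map_map]
    rfl
  choose x' x1 x2 using fun i => assemble_hom (fun n => map (mk n) (x n i))
    fun n => ((l n).sp.hx i).map _
  choose g' g1 g2 using fun i => assemble_hom (fun n => map (mk n) (g n i))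
    fun n => ((l n).sp.hg i).map _
  choose f' f1 f2 using fun i => assemble_hom (fun n => map (mk n) (f n i))
    fun n => ((l n).sp.hf i).map _
  obtain ⟨r', r1, r2⟩ := assemble_hom (fun n => map (mk n) (r n)) fun n => (l n).sp.hr.map _
  choose U hU using fun i => glob2_assemble (k * (d - 2)) (fun n => map (mk n) (u n i))
    fun n => map_mem_lt _ (hu n i)
  have H : Has d e (fun i => j (algebraMap ℂ A (α i))) (map j F) (map j β) := by
    refine ⟨x', g', f', r', ⟨x1, g1, f1, r1, glob2_ext fun n => ?_⟩,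
      exact_iff.2 ⟨U, glob2_ext fun n => ?_⟩⟩
    · have e3 := glob2_map_eq_zero (l n).mem
      rw [map_sub, sub_eq_zero, map_tot] at e3
      rw [hj]
      refine e3.trans (Eq.trans ?_ (map_tot x' g' f' r' _).symm)
      simp only [x2, g2, f2, r2]
      rfl
    · have e3 := glob2_map_eq_zero (hex n)
      rw [map_sub, map_sub, sub_eq_zero, map_cmb, map_dtw] at e3
      rw [map_sub, map_cmb, map_dtw, hj, hj]
      simp only [x2, g2, f2, r2, hU]
      exact e3
  have hbot : ⨅ n : ℕ, RingHom.ker s ^ n = ⊥ :=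
    Ideal.iInf_pow_eq_bot_of_isDomain _ (RingHom.ker_ne_top s)
  obtain ⟨L, hL, ψ, hψ⟩ := glob2_field (j := j) fun a ha => by
    rw [← Ideal.mem_bot, ← hbot, Ideal.mem_iInf]
    intro n
    exact Ideal.pow_le_pow_right (Nat.le_succ n) (Ideal.Quotient.eq_zero_iff_mem.1 (congrFun ha n))
  refine ⟨L, hL, ψ.comp j, hψ, ?_⟩
  have h1 := H.map ψ
  rwa [MvPolynomial.map_map, MvPolynomial.map_map] at h1

end Pool.Agent.Lib.MP_e9c0f3_ag.H48
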