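import Pool.Agent.Lib.MP_e9c0f3_ag.H48.Key
import Pool.Agent.Lib.MP_e9c0f3_ag.Flat

/-! The class does not depend on the choice of the equations. -/

open MvPolynomial
open Matrix (reindex fromBlocks of det_mul det_reindex_self det_fromBlocks_zero₂₁ det_one
  det_transpose transpose)

namespace Pool.Agent.Lib.MP_e9c0f3_ag.H48

variable {R : Type} [CommRing R] {n k : ℕ}

theorem jd_mat (M : Matrix (Fin n) (Fin n) R) (u v : Fin n → Pol (n + n) R) :
    jd (Fin.append (fun i => ∑ l, C (M i l) * u l) v) =
      jd (Fin.append u fun l => ∑ i, C (M i l) * v i) := by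
  have h1 : jm (Fin.append (fun i => ∑ l, C (M i l) * u l) v) =
      reindex finSumFinEquiv finSumFinEquiv (fromBlocks (M.map C) 0 0 1) *
        jm (Fin.append u v) := by
    ext1 ν c
    rw [Matrix.mul_apply, Fin.sum_univ_add]
    refine Fin.addCases (fun i => ?_) (fun i => ?_) ν
    · simp [-Fin.natAdd_eq_addNat, jm, Fin.append_left]
    · simp [-Fin.natAdd_eq_addNat, jm, Fin.append_right, Matrix.one_apply]
  have h2 : jm (Fin.append u fun l => ∑ i, C (M i l) * v i) =
      reindex finSumFinEquiv finSumFinEquiv (fromBlocks 1 0 0 (transpose (M.map C))) *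
        jm (Fin.append u v) := by
    ext1 ν c
    rw [Matrix.mul_apply, Fin.sum_univ_add]
    refine Fin.addCases (fun i => ?_) (fun i => ?_) ν
    · simp [-Fin.natAdd_eq_addNat, jm, Fin.append_left, Matrix.one_apply]
    · simp [-Fin.natAdd_eq_addNat, jm, Fin.append_right]
  rw [jd_eq, jd_eq, h1, h2, det_mul, det_mul, det_reindex_self, det_reindex_self,
    det_fromBlocks_zero₂₁, det_fromBlocks_zero₂₁, det_one, det_transpose, mul_one, one_mul]

theorem br_mat (M : Matrix (Fin k) (Fin k) R) (x g : Fin k → PS k R) (P Q : PS k R) :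
    br (fun i => ∑ l, C (M i l) * x l) g P Q = br x (fun l => ∑ i, C (M i l) * g i) P Q := by
  have h := jd_mat (of fun i l => Fin.cases (Fin.cases 1 (fun _ => 0) l)
    (fun i' => Fin.cases 0 (fun l' => M i' l') l) i : Matrix (Fin (k + 1)) (Fin (k + 1)) R)
    (Fin.cons P x) (Fin.cons Q g)
  rw [br, br, fam, fam]
  convert h using 3
  · funext i
    refine Fin.cases ?_ (fun i => ?_) i <;> simp [Fin.sum_univ_succ]
  · funext i
    refine Fin.cases ?_ (fun i => ?_) i <;> simp [Fin.sum_univ_succ]

theorem br_scale (x g : Fin k → PS k R) (P Q : PS k R) {a b : R} (h : a * b = 1) :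
    br x g (C a * P) (C b * Q) = br x g P Q := by
  rw [br_mul_left, br_mul_right, ← vf_cq x g (C a), vf_C, br_right x g P (C b), vf_C, mul_zero,
    mul_zero, add_zero, add_zero, ← mul_assoc, ← C_mul, h, C_1, one_mul]

variable [Algebra ℚ R]

/-- Integration over the unit interval. -/
noncomputable def integ (R : Type) [CommRing R] [Algebra ℚ R] : Polynomial R →ₗ[R] R :=
  Polynomial.lsum fun n => LinearMap.mulRight R (algebraMap ℚ R ((n : ℚ) + 1)⁻¹)

theorem integ_derivative (p : Polynomial R) :
    integ R (Polynomial.derivative p) = p.eval 1 - p.eval 0 := by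
  induction p using Polynomial.induction_on' with
  | add p q hp hq =>
    rw [map_add, map_add, hp, hq, Polynomial.eval_add, Polynomial.eval_add]
    ring
  | monomial n a =>
    rw [Polynomial.derivative_monomial, integ, Polynomial.lsum_apply,
      Polynomial.sum_monomial_index _ _ (by simp)]
    rcases n with _ | n
    · simp
    · have h : ((n + 1 : ℕ) : R) * algebraMap ℚ R ((n : ℚ) + 1)⁻¹ = 1 := by
        rw [← map_natCast (algebraMap ℚ R), ← map_mul, Nat.cast_succ,
          mul_inv_cancel₀ (by positivity), map_one]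
      simp only [Nat.add_sub_cancel, LinearMap.mulRight_apply, mul_assoc, h,
        Polynomial.eval_monomial, one_pow, mul_one, zero_pow (Nat.succ_ne_zero n), mul_zero,
        sub_zero]

theorem jd_inv (u v u' v' : Fin n → Pol (n + n) R) (h1 : ∑ l, (u' l * v l + u l * v' l) = 0)
    (h2 : ∑ l, u' l * v' l = 0) :
    Exact (∑ l, u l * v l) (jd (Fin.append (u + u') (v + v')) - jd (Fin.append u v)) := by
  classical
  let ι : R →+* Polynomial R := Polynomial.C
  let U : Fin n → Pol (n + n) (Polynomial R) := fun l => map ι (u l) + C Polynomial.X * map ι (u' l)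
  let V : Fin n → Pol (n + n) (Polynomial R) := fun l => map ι (v l) + C Polynomial.X * map ι (v' l)
  have h3 : ∑ l, U l * V l = map ι (∑ l, u l * v l) := by
    have e1 := congrArg (map ι) h1
    have e2 := congrArg (map ι) h2
    simp only [map_sum, map_add, map_mul, map_zero] at e1 e2 ⊢
    have e3 : ∑ l, U l * V l = ∑ l, map ι (u l) * map ι (v l) + C Polynomial.X *
        ∑ l, (map ι (u' l) * map ι (v l) + map ι (u l) * map ι (v' l)) +
        C Polynomial.X * C Polynomial.X * ∑ l, map ι (u' l) * map ι (v' l) := by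
      simp only [Finset.mul_sum, ← Finset.sum_add_distrib]
      exact Finset.sum_congr rfl fun l _ => by simp only [U, V]; ring
    rw [e3, e1, e2, mul_zero, mul_zero, add_zero, add_zero]
  let D : Polynomial R →+ Polynomial R := (Polynomial.derivative : _ →ₗ[R] _).toAddMonoidHom
  let I : Polynomial R →+ R := (integ R).toAddMonoidHom
  have h4 := jd_flat (cmap D) (cmap_leibniz fun a b => Polynomial.derivative_mul)
    (cmap_pderiv D) U V
  have h5 : ∀ p : Pol (n + n) R, cmap D (map ι p) = 0 := fun p => by
    ext1 m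
    rw [coeff_cmap, coeff_map, coeff_zero]
    exact Polynomial.derivative_C
  have h6 : ∀ (q : Pol (n + n) R) (p : Pol (n + n) (Polynomial R)),
      cmap I (map ι q * p) = q * cmap I p := fun q p => by
    ext1 m
    rw [coeff_cmap, coeff_mul, coeff_mul, map_sum]
    refine Finset.sum_congr rfl fun y _ => ?_
    rw [coeff_map, coeff_cmap]
    change integ R (Polynomial.C _ * _) = _
    rw [← Polynomial.smul_eq_C_mul, map_smul]
    rfl
  have h7 : ∀ p : Pol (n + n) (Polynomial R), cmap I (cmap D p) =
      map (Polynomial.evalRingHom 1) p - map (Polynomial.evalRingHom 0) p := fun p => by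
    ext1 m
    rw [coeff_cmap, coeff_cmap, coeff_sub, coeff_map, coeff_map]
    exact integ_derivative _
  have h8 : ∀ (t : R) (p : Pol (n + n) R), map (Polynomial.evalRingHom t) (map ι p) = p :=
    fun t p => by
      ext1 m
      rw [coeff_map, coeff_map]
      exact Polynomial.eval_C
  have h9 : ∀ t : R, map (Polynomial.evalRingHom t) (jd (Fin.append U V)) =
      jd (Fin.append (u + (C t : Pol (n + n) R) • u') (v + (C t : Pol (n + n) R) • v')) := fun t => by
    rw [map_jd]
    congr 1
    funext ν
    refine Fin.addCases (fun i => ?_) (fun i => ?_) ν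
    · simp [-Fin.natAdd_eq_addNat, U, h8]
    · simp [-Fin.natAdd_eq_addNat, V, h8]
  rw [h3, h5, zero_mul, add_zero] at h4
  have h10 := congrArg (cmap I) h4
  rw [h7, h9, h9, C_1, C_0, one_smul, one_smul, zero_smul, zero_smul, add_zero, add_zero] at h10
  rw [h10]
  refine exact_iff.2 ⟨fun i => cmap I ((∑ ν, cmap D (Fin.append U V ν) •
    cof (Fin.append U V) ν) i), ?_⟩
  unfold dtw
  rw [map_sum]
  refine Finset.sum_congr rfl fun i _ => ?_
  rw [map_add, cmap_pderiv, pderiv_map, h6]

theorem br_inv_b (x g h : Fin k → PS k R) (P Q : PS k R) : Exact (P * Q + ∑ i, x i * g i)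
    (br x (fun i => g i + h i * Q) (P - ∑ i, h i * x i) Q - br x g P Q) := by
  have h1 := jd_inv (Fin.cons P x : Fin (k + 1) → PS k R) (Fin.cons Q g)
    (Fin.cons (-∑ i, h i * x i) 0) (Fin.cons 0 fun i => h i * Q) (by
      simp only [Fin.sum_univ_succ, Fin.cons_zero, Fin.cons_succ, Pi.zero_apply, zero_mul,
        mul_zero, add_zero, zero_add, neg_mul, Finset.sum_mul]
      rw [neg_add_eq_zero]
      exact Finset.sum_congr rfl fun i _ => by ring) (by simp [Fin.sum_univ_succ])
  simp only [Fin.sum_univ_succ, Fin.cons_zero, Fin.cons_succ] at h1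
  rw [br, br, fam, fam]
  convert h1 using 4
  · funext i
    refine Fin.cases ?_ (fun i => ?_) i <;> simp [sub_eq_add_neg]
  · funext i
    refine Fin.cases ?_ (fun i => ?_) i <;> simp

theorem br_inv_c (x g g' : Fin k → PS k R) (P Q Q' : PS k R)
    (h : P * Q + ∑ i, x i * g i = P * Q' + ∑ i, x i * g' i) :
    Exact (P * Q + ∑ i, x i * g i) (br x g' P Q' - br x g P Q) := by
  have h1 := jd_inv (Fin.cons P x : Fin (k + 1) → PS k R) (Fin.cons Q g) 0
    (Fin.cons (Q' - Q) fun i => g' i - g i) (by
      simp only [Fin.sum_univ_succ, Fin.cons_zero, Fin.cons_succ, Pi.zero_apply, zero_mul,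
        zero_add, mul_sub, Finset.sum_sub_distrib]
      linear_combination -h) (by simp)
  simp only [Fin.sum_univ_succ, Fin.cons_zero, Fin.cons_succ, add_zero] at h1
  rw [br, br, fam, fam]
  convert h1 using 4
  · funext i
    refine Fin.cases ?_ (fun i => ?_) i <;> simp

end Pool.Agent.Lib.MP_e9c0f3_ag.H48
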