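import Pool.Agent.Lib.MP_e9c0f3_ag.H48.Defs
import Pool.Agent.Lib.MP_e9c0f3_ag.Tw2

/-! Calculus of Jacobian determinants. -/

open MvPolynomial Matrix Function

namespace Pool.Agent.Lib.MP_e9c0f3_ag.H48

variable {R : Type} [CommRing R] {N : ℕ}

/-- A vector field applied to a polynomial. -/
noncomputable def vf (c : Fin N → Pol N R) (K : Pol N R) : Pol N R := ∑ i, c i * pderiv i K

/-- The divergence. -/
noncomputable def dv (c : Fin N → Pol N R) : Pol N R := ∑ i, pderiv i (c i)

theorem vf_add (c : Fin N → Pol N R) (K L : Pol N R) : vf c (K + L) = vf c K + vf c L := by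
  simp only [vf, map_add, mul_add, Finset.sum_add_distrib]

theorem vf_zero (c : Fin N → Pol N R) : vf c 0 = 0 := by simp [vf]

theorem vf_one (c : Fin N → Pol N R) : vf c 1 = 0 := by simp [vf]

theorem vf_C (c : Fin N → Pol N R) (a : R) : vf c (C a) = 0 := by simp [vf]

theorem vf_mul (c : Fin N → Pol N R) (K L : Pol N R) :
    vf c (K * L) = K * vf c L + L * vf c K := by
  simp only [vf, Derivation.leibniz, smul_eq_mul, Finset.mul_sum, ← Finset.sum_add_distrib]
  exact Finset.sum_congr rfl fun i _ => by ring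

theorem vf_sum {α : Type} (c : Fin N → Pol N R) (T : Finset α) (K : α → Pol N R) :
    vf c (∑ a ∈ T, K a) = ∑ a ∈ T, vf c (K a) := by
  simp only [vf, map_sum, Finset.mul_sum]
  exact Finset.sum_comm

theorem vf_add_left (c c' : Fin N → Pol N R) (K : Pol N R) :
    vf (c + c') K = vf c K + vf c' K := by
  simp only [vf, Pi.add_apply, add_mul, Finset.sum_add_distrib]

theorem vf_sub_left (c c' : Fin N → Pol N R) (K : Pol N R) :
    vf (c - c') K = vf c K - vf c' K := by
  simp only [vf, Pi.sub_apply, sub_mul, Finset.sum_sub_distrib]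

theorem vf_smul_left (p : Pol N R) (c : Fin N → Pol N R) (K : Pol N R) :
    vf (p • c) K = p * vf c K := by
  simp only [vf, Pi.smul_apply, smul_eq_mul, Finset.mul_sum, mul_assoc]

theorem vf_sum_left {α : Type} (T : Finset α) (c : α → Fin N → Pol N R) (K : Pol N R) :
    vf (∑ a ∈ T, c a) K = ∑ a ∈ T, vf (c a) K := by
  simp only [vf, Finset.sum_apply, Finset.sum_mul]
  exact Finset.sum_comm

theorem dv_add (c c' : Fin N → Pol N R) : dv (c + c') = dv c + dv c' := by
  simp only [dv, Pi.add_apply, map_add, Finset.sum_add_distrib]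

theorem dv_sub (c c' : Fin N → Pol N R) : dv (c - c') = dv c - dv c' := by
  simp only [dv, Pi.sub_apply, map_sub, Finset.sum_sub_distrib]

theorem dv_smul (p : Pol N R) (c : Fin N → Pol N R) : dv (p • c) = vf c p + p * dv c := by
  simp only [dv, vf, Pi.smul_apply, smul_eq_mul, Derivation.leibniz, Finset.mul_sum,
    ← Finset.sum_add_distrib]
  exact Finset.sum_congr rfl fun i _ => by ring

theorem dv_sum {α : Type} (T : Finset α) (c : α → Fin N → Pol N R) :
    dv (∑ a ∈ T, c a) = ∑ a ∈ T, dv (c a) := by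
  simp only [dv, Finset.sum_apply, map_sum]
  exact Finset.sum_comm

theorem dtw_eq (F : Pol N R) (c : Fin N → Pol N R) : dtw F c = dv c + vf c F := by
  simp only [dtw, dv, vf, Finset.sum_add_distrib, mul_comm]

theorem vf_mem_jac (c : Fin N → Pol N R) (F : Pol N R) : vf c F ∈ jac F :=
  Ideal.sum_mem _ fun i _ => Ideal.mul_mem_left _ _ (Ideal.subset_span ⟨i, rfl⟩)

theorem mem_jac_iff {F p : Pol N R} : p ∈ jac F ↔ ∃ c, p = vf c F := by
  unfold jac
  rw [Ideal.mem_span_range_iff_exists_fun]
  exact exists_congr fun c => eq_comm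

/-- The Jacobian matrix. -/
noncomputable def jm (P : Fin N → Pol N R) : Matrix (Fin N) (Fin N) (Pol N R) :=
  of fun i j => pderiv j (P i)

theorem jd_eq (P : Fin N → Pol N R) : jd P = (jm P).det := rfl

/-- The cofactor vector field of the row `ν`. -/
noncomputable def cof (P : Fin N → Pol N R) (ν : Fin N) : Fin N → Pol N R :=
  fun i => adjugate (jm P) i ν

theorem jm_update (P : Fin N → Pol N R) (ν : Fin N) (K : Pol N R) :
    jm (update P ν K) = (jm P).updateRow ν fun j => pderiv j K := by
  ext1 i j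
  by_cases h : i = ν
  · subst h
    simp [jm]
  · simp [jm, h]

theorem jd_update (P : Fin N → Pol N R) (ν : Fin N) (K : Pol N R) :
    jd (update P ν K) = vf (cof P ν) K := by
  rw [jd_eq, jm_update, ← cramer_transpose_apply, cramer_eq_adjugate_mulVec,
    ← adjugate_transpose]
  rfl

theorem det_row {S : Type} [CommRing S] (M : Matrix (Fin N) (Fin N) S) (ν : Fin N)
    (w : Fin N → S) : (M.updateRow ν w).det = ∑ σ : Equiv.Perm (Fin N),
      (Equiv.Perm.sign σ : ℤ) • (w (σ ν) * ∏ a ∈ Finset.univ.erase ν, M a (σ a)) := by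
  rw [← det_transpose, det_apply]
  refine Finset.sum_congr rfl fun σ _ => ?_
  rw [← Finset.mul_prod_erase _ _ (Finset.mem_univ ν), Units.smul_def]
  congr 2
  · simp
  · refine Finset.prod_congr rfl fun a ha => ?_
    rw [transpose_apply, updateRow_ne (Finset.ne_of_mem_erase ha)]

theorem der_prod {S α : Type} [CommRing S] [DecidableEq α] (E : S →+ S)
    (hE : ∀ p q, E (p * q) = E p * q + p * E q) (T : Finset α) (p : α → S) :
    E (∏ a ∈ T, p a) = ∑ b ∈ T, E (p b) * ∏ a ∈ T.erase b, p a := by
  induction T using Finset.induction_on with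
  | empty =>
    have h := hE 1 1
    simp only [mul_one, one_mul, left_eq_add] at h
    simp [h]
  | insert i T hi ih =>
    rw [Finset.prod_insert hi, hE, ih, Finset.sum_insert hi, Finset.erase_insert hi,
      Finset.mul_sum]
    congr 1
    refine Finset.sum_congr rfl fun b hb => ?_
    have hbi : i ≠ b := fun h => hi (h ▸ hb)
    rw [Finset.erase_insert_of_ne hbi, Finset.prod_insert fun h => hi (Finset.mem_of_mem_erase h)]
    ring

theorem der_det {S : Type} [CommRing S] (E : S →+ S)
    (hE : ∀ p q, E (p * q) = E p * q + p * E q) (M : Matrix (Fin N) (Fin N) S) :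
    E M.det = ∑ ν, (M.updateRow ν fun j => E (M ν j)).det := by
  simp only [det_row]
  rw [Finset.sum_comm, ← det_transpose, det_apply, map_sum]
  refine Finset.sum_congr rfl fun σ _ => ?_
  rw [Units.smul_def, map_zsmul, der_prod E hE, Finset.smul_sum]
  rfl

/-- The cofactor fields are divergence free. -/
theorem dv_cof (P : Fin N → Pol N R) (ν : Fin N) : dv (cof P ν) = 0 := by
  have h1 : ∀ i, cof P ν i = ∑ σ : Equiv.Perm (Fin N), (Equiv.Perm.sign σ : ℤ) •
      ((Pi.single i 1 : Fin N → Pol N R) (σ ν) *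
        ∏ a ∈ Finset.univ.erase ν, pderiv (σ a) (P a)) := fun i => by
    rw [cof, adjugate_apply, det_row]
    rfl
  have h2 : dv (cof P ν) = ∑ σ : Equiv.Perm (Fin N), (Equiv.Perm.sign σ : ℤ) •
      pderiv (σ ν) (∏ a ∈ Finset.univ.erase ν, pderiv (σ a) (P a)) := by
    simp only [dv, h1, map_sum, map_zsmul]
    rw [Finset.sum_comm]
    refine Finset.sum_congr rfl fun σ _ => ?_
    rw [← Finset.smul_sum, Finset.sum_eq_single (σ ν)]
    · simp
    · intro i _ hi
      rw [Pi.single_eq_of_ne hi.symm, zero_mul, map_zero]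
    · simp
  have h3 : ∀ (i : Fin N) (p : Fin N → Pol N R), pderiv i (∏ a ∈ Finset.univ.erase ν, p a) =
      ∑ b ∈ Finset.univ.erase ν, pderiv i (p b) * ∏ a ∈ (Finset.univ.erase ν).erase b, p a :=
    fun i p => der_prod (pderiv i : Derivation R (Pol N R) (Pol N R)).toLinearMap.toAddMonoidHom
      (fun p q => by
        change pderiv i (p * q) = pderiv i p * q + p * pderiv i q
        rw [Derivation.leibniz, smul_eq_mul, smul_eq_mul]
        ring) _ p
  rw [h2]
  simp only [h3, Finset.smul_sum]
  rw [Finset.sum_comm]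
  refine Finset.sum_eq_zero fun b hb => ?_
  have hbν : b ≠ ν := Finset.ne_of_mem_erase hb
  refine Finset.sum_involution (fun σ _ => σ * Equiv.swap ν b) (fun σ _ => ?_) (fun σ _ _ h => ?_)
    (fun _ _ => Finset.mem_univ _) (fun σ _ => by simp [mul_assoc])
  · have e1 : ∏ a ∈ (Finset.univ.erase ν).erase b, pderiv ((σ * Equiv.swap ν b) a) (P a) =
        ∏ a ∈ (Finset.univ.erase ν).erase b, pderiv (σ a) (P a) := by
      refine Finset.prod_congr rfl fun a ha => ?_
      rw [Equiv.Perm.mul_apply, Equiv.swap_apply_of_ne_of_ne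
        (Finset.ne_of_mem_erase (Finset.mem_of_mem_erase ha)) (Finset.ne_of_mem_erase ha)]
    rw [e1, Equiv.Perm.sign_mul, Equiv.Perm.sign_swap hbν.symm, Equiv.Perm.mul_apply,
      Equiv.Perm.mul_apply, Equiv.swap_apply_left, Equiv.swap_apply_right,
      pderiv_pderiv_comm (σ b) (σ ν)]
    simp
  · have := congrArg (fun τ : Equiv.Perm (Fin N) => τ ν) h
    simp only [Equiv.Perm.mul_apply, Equiv.swap_apply_left, EmbeddingLike.apply_eq_iff_eq] at this
    exact hbν this

theorem jd_of_eq {P : Fin N → Pol N R} {μ ν : Fin N} (h : μ ≠ ν) (hP : P μ = P ν) : jd P = 0 :=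
  det_zero_of_row_eq h (by funext j; simp [hP])

theorem vf_cof_self (P : Fin N → Pol N R) (ν : Fin N) : vf (cof P ν) (P ν) = jd P := by
  rw [← jd_update, update_eq_self]

theorem vf_cof_ne (P : Fin N → Pol N R) {μ ν : Fin N} (h : μ ≠ ν) : vf (cof P ν) (P μ) = 0 := by
  rw [← jd_update]
  exact jd_of_eq h (by rw [update_of_ne h, update_self])

theorem map_jd {R' : Type} [CommRing R'] (φ : R →+* R') (P : Fin N → Pol N R) :
    map φ (jd P) = jd fun i => map φ (P i) := by
  rw [jd_eq, jd_eq, RingHom.map_det]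
  congr 1
  ext1 i j
  simp [jm, pderiv_map]

theorem jd_homog {P : Fin N → Pol N R} {n : Fin N → ℕ} (h : ∀ i, (P i).IsHomogeneous (n i)) :
    (jd P).IsHomogeneous (∑ i, (n i - 1)) := by
  rw [jd_eq, ← det_transpose, det_apply]
  refine IsHomogeneous.sum _ _ _ fun σ _ => ?_
  rw [Units.smul_def]
  have h1 : (∏ i, pderiv (σ i) (P i)) ∈ homogeneousSubmodule (Fin N) R (∑ i, (n i - 1)) :=
    IsHomogeneous.prod _ _ _ fun i _ => (h i).pderiv
  exact zsmul_mem h1 _

theorem der_jd (E : Pol N R →+ Pol N R) (hE : ∀ p q, E (p * q) = E p * q + p * E q)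
    (hEd : ∀ i p, E (pderiv i p) = pderiv i (E p)) (P : Fin N → Pol N R) :
    E (jd P) = ∑ ν, vf (cof P ν) (E (P ν)) := by
  rw [jd_eq, der_det E hE]
  refine Finset.sum_congr rfl fun ν _ => ?_
  rw [← jd_update, jd_eq, jm_update]
  simp only [jm, of_apply, hEd]

section pair

variable {n : ℕ}

theorem cast_ne_nat (i l : Fin n) : Fin.castAdd n i ≠ Fin.natAdd n l := fun h => by
  have := congrArg Fin.val h
  simp only [Fin.val_castAdd, Fin.val_natAdd] at this
  omega

theorem vf_cof_left (u v : Fin n → Pol (n + n) R) (i : Fin n) :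
    vf (cof (Fin.append u v) (Fin.castAdd n i)) (∑ l, u l * v l) = v i * jd (Fin.append u v) := by
  rw [vf_sum, Finset.sum_eq_single i]
  · have h1 := vf_cof_self (Fin.append u v) (Fin.castAdd n i)
    have h2 := vf_cof_ne (Fin.append u v) (μ := Fin.natAdd n i) (ν := Fin.castAdd n i)
      (cast_ne_nat i i).symm
    rw [Fin.append_left] at h1
    rw [Fin.append_right] at h2
    rw [vf_mul, h1, h2, mul_zero, zero_add]
  · intro l _ hl
    have h1 := vf_cof_ne (Fin.append u v) (μ := Fin.castAdd n l) (ν := Fin.castAdd n i)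
      fun h => hl (Fin.castAdd_injective _ _ h)
    have h2 := vf_cof_ne (Fin.append u v) (μ := Fin.natAdd n l) (ν := Fin.castAdd n i)
      (cast_ne_nat i l).symm
    rw [Fin.append_left] at h1
    rw [Fin.append_right] at h2
    rw [vf_mul, h1, h2, mul_zero, mul_zero, add_zero]
  · simp

theorem vf_cof_right (u v : Fin n → Pol (n + n) R) (i : Fin n) :
    vf (cof (Fin.append u v) (Fin.natAdd n i)) (∑ l, u l * v l) = u i * jd (Fin.append u v) := by
  rw [vf_sum, Finset.sum_eq_single i]
  · have h1 := vf_cof_self (Fin.append u v) (Fin.natAdd n i)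
    have h2 := vf_cof_ne (Fin.append u v) (μ := Fin.castAdd n i) (ν := Fin.natAdd n i)
      (cast_ne_nat i i)
    rw [Fin.append_right] at h1
    rw [Fin.append_left] at h2
    rw [vf_mul, h1, h2, mul_zero, add_zero]
  · intro l _ hl
    have h1 := vf_cof_ne (Fin.append u v) (μ := Fin.natAdd n l) (ν := Fin.natAdd n i)
      fun h => hl (Fin.natAdd_injective _ _ h)
    have h2 := vf_cof_ne (Fin.append u v) (μ := Fin.castAdd n l) (ν := Fin.natAdd n i)
      (cast_ne_nat l i)
    rw [Fin.append_right] at h1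
    rw [Fin.append_left] at h2
    rw [vf_mul, h1, h2, mul_zero, mul_zero, add_zero]
  · simp

/-- The class of a family of complete intersections is flat. -/
theorem jd_flat (E : Pol (n + n) R →+ Pol (n + n) R) (hE : ∀ p q, E (p * q) = E p * q + p * E q)
    (hEd : ∀ i p, E (pderiv i p) = pderiv i (E p)) (u v : Fin n → Pol (n + n) R) :
    E (jd (Fin.append u v)) + E (∑ l, u l * v l) * jd (Fin.append u v) =
      dtw (∑ l, u l * v l) (∑ ν, E (Fin.append u v ν) • cof (Fin.append u v) ν) := by
  rw [dtw_eq, dv_sum, vf_sum_left, der_jd E hE hEd]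
  simp only [dv_smul, dv_cof, mul_zero, add_zero, vf_smul_left]
  congr 1
  rw [Fin.sum_univ_add, map_sum, Finset.sum_mul, ← Finset.sum_add_distrib]
  refine Finset.sum_congr rfl fun i _ => ?_
  rw [vf_cof_left, vf_cof_right, Fin.append_left, Fin.append_right, hE]
  ring

end pair

end Pool.Agent.Lib.MP_e9c0f3_ag.H48
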