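import Pool.Agent.Lib.MP_e9c0f3_ag.H48.Br

/-! The explicit vector fields and the second-order identity. -/

open MvPolynomial Matrix Function

namespace Pool.Agent.Lib.MP_e9c0f3_ag.H48

variable {R : Type} [CommRing R] {k m : ℕ}

theorem vf_rsmul {N : ℕ} (c : Fin N → Pol N R) (a : R) (K : Pol N R) :
    vf c (a • K) = a • vf c K := by
  rw [smul_eq_C_mul, vf_mul, vf_C, mul_zero, add_zero, smul_eq_C_mul]

variable (x g : Fin k → PS k R) (f : Fin m → PS k R) (r : PS k R) (α : Fin m → R)

/-- The form with the given splitting. -/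
noncomputable def tot : PS k R := ∑ i, x i * g i + (∏ i, f i) * r

/-- The combination of the classes. -/
noncomputable def cmb : PS k R := ∑ j, α j • cyc x g f r j

/-- The field that divides `G * cmb`. -/
noncomputable def fu (p : Fin m → PS k R) (w : PS k R) (e : Fin m → Fin k ⊕ Fin k → PS k R) :
    Fin (k + 1 + (k + 1)) → PS k R :=
  w • cq x g r + ∑ j, ∑ t, e j t • ct x g t (f j) (hat f j * r) - ∑ j, p j • cq x g (f j)

/-- The field that divides `(∏ f) * cmb`, up to sign. -/
noncomputable def fs : Fin (k + 1 + (k + 1)) → PS k R := ∑ j, (α j • hat f j) • cq x g (f j)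

/-- The error term. -/
noncomputable def err (G : PS k R) (p : Fin m → PS k R) (w : PS k R)
    (e : Fin m → Fin k ⊕ Fin k → PS k R) (j : Fin m) : PS k R :=
  α j • G - (p j * f j + w * r + ∑ t, e j t * Sum.elim x g t)

variable (G : PS k R) (p : Fin m → PS k R) (w : PS k R) (e : Fin m → Fin k ⊕ Fin k → PS k R)

theorem key1 : G * cmb x g f r α - vf (fu x g f r p w e) (tot x g f r) =
    ∑ j, err x g f r α G p w e j * cyc x g f r j := by
  have h1 : ∀ j, vf (cq x g (f j)) (tot x g f r) = -(f j * cyc x g f r j) := fun j => by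
    rw [f_mul_cyc, neg_neg, tot]
  have h2 : vf (cq x g r) (tot x g f r) = ∑ j, r * cyc x g f r j := by
    rw [← Finset.mul_sum, sum_cyc, r_mul_br, tot]
  have h3 : ∀ j t, vf (ct x g t (f j) (hat f j * r)) (tot x g f r) =
      Sum.elim x g t * cyc x g f r j := fun j t => (gen_mul_cyc x g t f r j).symm
  simp only [fu, vf_sub_left, vf_add_left, vf_sum_left, vf_smul_left, h1, h2, h3, cmb, err,
    Finset.mul_sum, ← Finset.sum_add_distrib, ← Finset.sum_sub_distrib]
  refine Finset.sum_congr rfl fun j _ => ?_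
  simp only [← mul_assoc, ← Finset.sum_mul, smul_eq_C_mul]
  ring

theorem key2 : (∏ i, f i) * cmb x g f r α = -vf (fs x g f α) (tot x g f r) := by
  simp only [fs, cmb, vf_sum_left, vf_smul_left, Finset.mul_sum, ← Finset.sum_neg_distrib]
  refine Finset.sum_congr rfl fun j _ => ?_
  rw [← mul_neg, tot, ← f_mul_cyc, ← mul_hat f j, smul_eq_C_mul, smul_eq_C_mul]
  ring

theorem key2' : dv (fs x g f α) = ∑ j, α j • br x g (hat f j) (f j) := by
  rw [fs, dv_sum]
  refine Finset.sum_congr rfl fun j _ => ?_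
  rw [dv_smul, vf_rsmul, vf_cq, cq, dv_cof, mul_zero, add_zero]

theorem key3 : vf (fu x g f r p w e) (∏ i, f i) + G * dv (fs x g f α) -
    w * br x g (∏ i, f i) r - ∑ j, err x g f r α G p w e j * br x g (hat f j) (f j) ∈
      jac (tot x g f r) := by
  have h1 : ∀ j, vf (cq x g (f j)) (∏ i, f i) = f j * br x g (hat f j) (f j) := fun j => by
    rw [vf_cq, ← mul_hat f j, br_mul_left, br_self, mul_zero, add_zero]
  have h3 : ∀ j t, vf (ct x g t (f j) (hat f j * r)) (∏ i, f i) =
      vf (ct x g t (hat f j) (f j)) (tot x g f r) -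
        Sum.elim x g t * br x g (hat f j) (f j) := fun j t => by
    rw [tot, ← mul_hat f j]
    exact tr_key x g t (f j) (hat f j) r
  have h0 : ∑ j, w * r * br x g (hat f j) (f j) = 0 := by
    rw [← Finset.mul_sum]
    exact mul_eq_zero_of_right _ (br_sum_zero x g Finset.univ f)
  have h4 : vf (fu x g f r p w e) (∏ i, f i) + G * dv (fs x g f α) -
      w * br x g (∏ i, f i) r - ∑ j, err x g f r α G p w e j * br x g (hat f j) (f j) =
      ∑ j, ∑ t, e j t * vf (ct x g t (hat f j) (f j)) (tot x g f r) +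
        ∑ j, w * r * br x g (hat f j) (f j) := by
    simp only [fu, vf_sub_left, vf_add_left, vf_sum_left, vf_smul_left, h1, h3, key2', err, vf_cq]
    have h5 : ∀ a b c d e : PS k R, a + b - c + d - a - e = b - c + d - e := fun _ _ _ _ _ => by
      ring
    rw [h5]
    simp only [Finset.mul_sum, ← Finset.sum_add_distrib, ← Finset.sum_sub_distrib]
    refine Finset.sum_congr rfl fun j _ => ?_
    simp only [mul_sub, Finset.sum_sub_distrib, ← mul_assoc, ← Finset.sum_mul, smul_eq_C_mul]
    ring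
  rw [h4, h0, add_zero]
  exact Ideal.sum_mem _ fun j _ => Ideal.sum_mem _ fun t _ =>
    Ideal.mul_mem_left _ _ (vf_mem_jac _ _)

theorem f_cyc_mem (j : Fin m) : f j * cyc x g f r j ∈ jac (tot x g f r) := by
  rw [f_mul_cyc]
  exact neg_mem (vf_mem_jac _ _)

theorem hat_cyc_mem (j : Fin m) : hat f j * r * cyc x g f r j ∈ jac (tot x g f r) := by
  rw [hat_mul_cyc]
  exact vf_mem_jac _ _

theorem gen_cyc_mem (j : Fin m) (t : Fin k ⊕ Fin k) :
    Sum.elim x g t * cyc x g f r j ∈ jac (tot x g f r) := by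
  rw [gen_mul_cyc]
  exact vf_mem_jac _ _

theorem r_sum_mem : r * ∑ j, cyc x g f r j ∈ jac (tot x g f r) := by
  rw [sum_cyc, r_mul_br]
  exact vf_mem_jac _ _

theorem key4 {α' : Fin m → R} (h : ∀ j, α' j * α j = 1) :
    G * (w * br x g (∏ i, f i) r) - w * w * (r * cmb x g f r α') -
      w * ∑ j, α' j • (err x g f r α G p w e j * cyc x g f r j) ∈ jac (tot x g f r) := by
  have h4 : G * (w * br x g (∏ i, f i) r) - w * w * (r * cmb x g f r α') -
      w * ∑ j, α' j • (err x g f r α G p w e j * cyc x g f r j) =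
      ∑ j, w * C (α' j) * (p j * (f j * cyc x g f r j) +
        ∑ t, e j t * (Sum.elim x g t * cyc x g f r j)) := by
    rw [← sum_cyc]
    simp only [cmb, err, Finset.mul_sum, ← Finset.sum_sub_distrib]
    refine Finset.sum_congr rfl fun j _ => ?_
    have h5 : (C (α' j) : PS k R) * C (α j) = 1 := by rw [← C_mul, h j, C_1]
    simp only [← mul_assoc, ← Finset.sum_mul, smul_eq_C_mul]
    linear_combination (-(w * G * cyc x g f r j)) * h5
  rw [h4]
  exact Ideal.sum_mem _ fun j _ => Ideal.mul_mem_left _ _ (add_mem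
    (Ideal.mul_mem_left _ _ (f_cyc_mem x g f r j)) (Ideal.sum_mem _ fun t _ =>
      Ideal.mul_mem_left _ _ (gen_cyc_mem x g f r j t)))

theorem tot_eq (j : Fin m) : ∑ l : Fin (k + 1), (Fin.cons (f j) x : Fin (k + 1) → PS k R) l *
    (Fin.cons (hat f j * r) g : Fin (k + 1) → PS k R) l = tot x g f r := by
  rw [Fin.sum_univ_succ, tot, ← mul_hat f j, add_comm, mul_assoc]
  rfl

/-- The combination is flat, with a primitive in every ideal that contains the derivatives of
the data. -/
theorem cmb_flat (E : PS k R →+ PS k R) (hE : ∀ p q, E (p * q) = E p * q + p * E q)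
    (hEd : ∀ i p, E (pderiv i p) = pderiv i (E p)) (hα : ∀ j, E (C (α j)) = 0)
    (I : Ideal (PS k R)) (hI : ∀ p, E p ∈ I) :
    ∃ η, (∀ i, η i ∈ I) ∧ E (cmb x g f r α) + E (tot x g f r) * cmb x g f r α =
      dtw (tot x g f r) η := by
  refine ⟨∑ j, α j • ∑ ν, E (fam x g (f j) (hat f j * r) ν) • cof (fam x g (f j) (hat f j * r)) ν,
    fun i => ?_, ?_⟩
  · simp only [Finset.sum_apply, Pi.smul_apply, smul_eq_mul, smul_eq_C_mul]
    exact Ideal.sum_mem _ fun j _ => Ideal.mul_mem_left _ _ (Ideal.sum_mem _ fun ν _ =>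
      Ideal.mul_mem_right _ _ (hI _))
  · let D : (Fin (k + 1 + (k + 1)) → PS k R) →+ PS k R :=
      AddMonoidHom.mk' (dtw (tot x g f r)) (dtw_add _)
    change _ = D _
    rw [map_sum D, cmb, map_sum, Finset.mul_sum, ← Finset.sum_add_distrib]
    refine Finset.sum_congr rfl fun j _ => ?_
    have h := jd_flat E hE hEd (Fin.cons (f j) x : Fin (k + 1) → PS k R) (Fin.cons (hat f j * r) g)
    rw [tot_eq] at h
    change _ = dtw _ _
    rw [dtw_smul]
    change _ = α j • dtw (tot x g f r) (∑ ν, E (Fin.append _ _ ν) • cof (Fin.append _ _) ν)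
    rw [← h, smul_eq_C_mul, smul_eq_C_mul, hE, hα]
    change 0 * cyc x g f r j + C (α j) * E (cyc x g f r j) + _ * (_ * cyc x g f r j) =
      _ * (E (cyc x g f r j) + _ * cyc x g f r j)
    ring

theorem map_hat {R' : Type} [CommRing R'] (φ : R →+* R') (j : Fin m) :
    map φ (hat f j) = hat (fun i => map φ (f i)) j := by
  simp only [hat, map_prod]

theorem map_cyc {R' : Type} [CommRing R'] (φ : R →+* R') (j : Fin m) :
    map φ (cyc x g f r j) =
      cyc (fun i => map φ (x i)) (fun i => map φ (g i)) (fun i => map φ (f i)) (map φ r) j := by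
  rw [cyc, cyc, map_jd]
  congr 1
  funext ν
  refine Fin.addCases (fun i => ?_) (fun i => ?_) ν
  · rw [Fin.append_left, Fin.append_left]
    exact Fin.cases rfl (fun _ => rfl) i
  · rw [Fin.append_right, Fin.append_right]
    refine Fin.cases ?_ (fun _ => rfl) i
    simp only [Fin.cons_zero, map_mul, map_prod]

theorem map_cmb {R' : Type} [CommRing R'] (φ : R →+* R') :
    map φ (cmb x g f r α) = cmb (fun i => map φ (x i)) (fun i => map φ (g i))
      (fun i => map φ (f i)) (map φ r) fun j => φ (α j) := by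
  simp only [cmb, map_sum, smul_eq_C_mul, map_mul, map_C, map_cyc]

theorem map_tot {R' : Type} [CommRing R'] (φ : R →+* R') :
    map φ (tot x g f r) =
      tot (fun i => map φ (x i)) (fun i => map φ (g i)) (fun i => map φ (f i)) (map φ r) := by
  simp only [tot, map_add, map_sum, map_mul, map_prod]

variable {x g f r}

theorem Split.hat_homog {d : ℕ} {e : Fin m → ℕ} {F : PS k R} (h : Split d e F x g f r)
    (hd : ∑ j, e j ≤ d) (j : Fin m) : (hat f j * r).IsHomogeneous (d - e j) := by
  have h1 := (IsHomogeneous.prod (Finset.univ.erase j) f e fun i _ => h.hf i).mul h.hr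
  have h2 := Finset.add_sum_erase _ e (Finset.mem_univ j)
  have h3 : d - e j = ∑ i ∈ Finset.univ.erase j, e i + (d - ∑ j, e j) := by omega
  rw [h3]
  exact h1

theorem Split.cyc_homog {d : ℕ} {e : Fin m → ℕ} {F : PS k R} (h : Split d e F x g f r)
    (he : ∀ j, 0 < e j) (hd : ∑ j, e j < d) (j : Fin m) :
    (cyc x g f r j).IsHomogeneous ((k + 1) * (d - 2)) := by
  have h1 := jd_homog (P := fam x g (f j) (hat f j * r))
    (n := Fin.append (Fin.cons (e j) fun _ => 1 : Fin (k + 1) → ℕ)
      (Fin.cons (d - e j) fun _ => d - 1 : Fin (k + 1) → ℕ)) fun ν => by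
    refine Fin.addCases (fun i => ?_) (fun i => ?_) ν
    · rw [fam, Fin.append_left, Fin.append_left]
      exact Fin.cases (h.hf j) (fun l => h.hx l) i
    · rw [fam, Fin.append_right, Fin.append_right]
      exact Fin.cases (h.hat_homog hd.le j) (fun l => h.hg l) i
  have h2 : e j ≤ ∑ j, e j := Finset.single_le_sum (fun _ _ => Nat.zero_le _) (Finset.mem_univ j)
  have h3 := he j
  rw [Fin.sum_univ_add] at h1
  simp only [Fin.append_left, Fin.append_right, Fin.sum_univ_succ, Fin.cons_zero,
    Fin.cons_succ, Nat.sub_self, Finset.sum_const, Finset.card_univ, Fintype.card_fin, smul_eq_mul,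
    mul_zero, add_zero] at h1
  have h4 : (k + 1) * (d - 2) = e j - 1 + (d - e j - 1 + k * (d - 1 - 1)) := by
    rw [add_mul, one_mul, show d - 1 - 1 = d - 2 by omega]
    omega
  rw [h4]
  exact h1

theorem Split.cmb_homog {d : ℕ} {e : Fin m → ℕ} {F : PS k R} (h : Split d e F x g f r)
    (he : ∀ j, 0 < e j) (hd : ∑ j, e j < d) :
    (cmb x g f r α).IsHomogeneous ((k + 1) * (d - 2)) :=
  IsHomogeneous.sum _ _ _ fun j _ =>
    (homogeneousSubmodule _ _ _).smul_mem _ (h.cyc_homog he hd j)

theorem Split.homog {d : ℕ} {e : Fin m → ℕ} {F : PS k R} (h : Split d e F x g f r)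
    (hd : ∑ j, e j < d) : F.IsHomogeneous d := by
  rw [h.eq]
  refine (IsHomogeneous.sum _ _ _ fun i _ => ?_).add ?_
  · convert (h.hx i).mul (h.hg i) using 1
    omega
  · convert (IsHomogeneous.prod Finset.univ f e fun i _ => h.hf i).mul h.hr using 1
    omega

theorem Split.map {R' : Type} [CommRing R'] (φ : R →+* R') {d : ℕ} {e : Fin m → ℕ} {F : PS k R}
    (h : Split d e F x g f r) : Split d e (map φ F) (fun i => map φ (x i)) (fun i => map φ (g i))
      (fun i => map φ (f i)) (map φ r) :=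
  ⟨fun i => (h.hx i).map φ, fun i => (h.hg i).map φ, fun i => (h.hf i).map φ, h.hr.map φ, by
    rw [h.eq]
    exact map_tot x g f r φ⟩

end Pool.Agent.Lib.MP_e9c0f3_ag.H48
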