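import Pool.Agent.Lib.MP_e9c0f3_ag.H48.Sp

/-! Assembly. -/

open MvPolynomial

namespace Pool.Agent.Lib.MP_e9c0f3_ag.H48

theorem main (k d m : ℕ) (e : Fin m → ℕ) (he : ∀ j, 0 < e j) (hd : 2 * ∑ j, e j + 1 < d)
    (A : Type) [CommRing A] [IsDomain A] [Algebra ℂ A] [Algebra.Smooth ℂ A]
    (F β : MvPolynomial (Fin (k + 1 + (k + 1))) A) (hF : F.IsHomogeneous d)
    (hs : ∀ (s : A →ₐ[ℂ] ℂ) (z : Fin (k + 1 + (k + 1)) → ℂ),
      (∀ i, eval z (pderiv i (map (s : A →+* ℂ) F)) = 0) → z = 0)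
    (hβ : β.totalDegree ≤ (k + 1) * (d - 2))
    (hflat : ∀ D : Derivation ℂ A A, Exact F (coeffMap D β + coeffMap D F * β))
    (a : Fin m → ℂ) (ha : ∀ j, a j ≠ 0) (hinj : Function.Injective a) (s₀ : A →ₐ[ℂ] ℂ)
    (x g : Fin k → MvPolynomial (Fin (k + 1 + (k + 1))) ℂ)
    (f : Fin m → MvPolynomial (Fin (k + 1 + (k + 1))) ℂ)
    (r : MvPolynomial (Fin (k + 1 + (k + 1))) ℂ) (hsp : Split d e (map (s₀ : A →+* ℂ) F) x g f r)
    (hrad : ∀ j, (Ideal.span (Set.range x ∪ {f j, ∏ i ∈ Finset.univ.erase j, f i})).IsRadical)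
    (h0 : Exact (map (s₀ : A →+* ℂ) F) (map (s₀ : A →+* ℂ) β - ∑ j, a j • cyc x g f r j))
    (s : A →ₐ[ℂ] ℂ) :
    ∃ x' g' f' r', Split d e (map (s : A →+* ℂ) F) x' g' f' r' ∧
      Exact (map (s : A →+* ℂ) F) (map (s : A →+* ℂ) β - ∑ j, a j • cyc x' g' f' r' j) := by
  have : IsNoetherianRing A := Algebra.FiniteType.isNoetherianRing ℂ A
  have i0 := isol_of_smooth (hs s₀)
  obtain ⟨E, hE⟩ := exists_euler s₀
  have hfl := hflat E
  rw [show coeffMap E β = cmap (E : A →+ A) β from coeffMap_eq_cmap (E : A →+ A) β,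
    show coeffMap E F = cmap (E : A →+ A) F from coeffMap_eq_cmap (E : A →+ A) F] at hfl
  have h1 : map (s₀ : A →+* ℂ) F = tot x g f r := hsp.eq
  have st : Start d e s₀ E F β a x g f r := ⟨hF, hE, mem_lt_of_totalDegree (Nat.lt_succ_of_le hβ),
    hfl, ⟨h1 ▸ hsp, he, hd, h1 ▸ i0⟩, h1, ha, hinj, hrad, h1 ▸ h0⟩
  obtain ⟨L, _, φ, hφ, hL⟩ := st.generic
  exact hL.specialize (by omega) hφ hF s (isol_of_smooth (hs s))

end Pool.Agent.Lib.MP_e9c0f3_ag.H48
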