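import Pool.Agent.Lib.MP_e9c0f3_ag.H48.Syz

/-! The first and the second order terms of a flat section. -/

open MvPolynomial

namespace Pool.Agent.Lib.MP_e9c0f3_ag.H48

variable {A : Type} [CommRing A] [Algebra ℂ A] {N : ℕ} {s : A →ₐ[ℂ] ℂ} {d : ℕ}

theorem hc_dtw_mem {R : Type} [CommRing R] {F : Pol N R} (hd : 2 ≤ d) (hF : F.IsHomogeneous d)
    {n : ℕ} {h : Fin N → Pol N R} (hh : ∀ i, h i ∈ lt N R n) :
    homogeneousComponent (n + (d - 2)) (dtw F h) ∈ jac F := by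
  rcases n with _ | n
  · have : h = 0 := funext fun i => eq_zero_of_mem_lt_zero (hh i)
    rw [this, dtw_zero, map_zero]
    exact zero_mem _
  · rw [show n + 1 + (d - 2) = n + (d - 1) by omega, tw2_hc_dtw hF hh]
    exact Ideal.sum_mem _ fun i _ => Ideal.mul_mem_right _ _ (Ideal.subset_span ⟨i, rfl⟩)

theorem dv_homog {R : Type} [CommRing R] {c : Fin N → Pol N R} {n : ℕ}
    (h : ∀ i, (c i).IsHomogeneous (n + 1)) : (dv c).IsHomogeneous n :=
  IsHomogeneous.sum _ _ _ fun i _ => (h i).pderiv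

theorem vf_mem_CI2 {a b : ℕ} {c : Fin N → Pol N A} (hc : ∀ i, c i ∈ CI N s a) {K : Pol N A}
    (hK : K ∈ CI N s b) : vf c K ∈ CI N s (a + b) :=
  Ideal.sum_mem _ fun i _ => mul_mem_CI (hc i) (pderiv_mem_CI hK i)

theorem vf_mem_IJ {F : Pol N A} {a b : ℕ} {c : Fin N → Pol N A} (hc : ∀ i, c i ∈ IJ F s b)
    {K : Pol N A} (hK : K ∈ CI N s a) : vf c K ∈ IJ F s (a + b) :=
  Ideal.sum_mem _ fun i _ => by
    rw [mul_comm]
    exact mul_mem_IJ (pderiv_mem_CI hK i) (hc i)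

theorem der_leib (E : Derivation ℂ A A) (p q : Pol N A) :
    cmap (E : A →+ A) (p * q) = cmap (E : A →+ A) p * q + p * cmap (E : A →+ A) q :=
  cmap_leibniz (fun a b => by
    change E (a * b) = E a * b + a * E b
    rw [Derivation.leibniz, smul_eq_mul, smul_eq_mul]
    ring) p q

theorem euler_mem {E : Derivation ℂ A A} (hE : Euler s E) {n : ℕ} {p : Pol N A}
    (hp : p ∈ CI N s n) : cmap (E : A →+ A) p ∈ CI N s n := by
  have h := add_mem (CI_mono (Nat.le_succ n) (hE.cmap_sub hp)) (Ideal.mul_mem_left _ (n : Pol N A) hp)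
  rwa [sub_add_cancel] at h

variable [IsNoetherianRing A] {F : Pol N A} {E : Derivation ℂ A A}

theorem flat_zero (hd : 2 ≤ d) (hF : F.IsHomogeneous d)
    (hr : RegAll fun i => pderiv i (map (s : A →+* ℂ) F)) (hE : Euler s E) {e n : ℕ}
    {γ : Pol N A} (hγ : γ ∈ lt N A (e + (d - 1))) (h0 : γ ∈ CI N s 1) {u : Fin N → Pol N A}
    (hu : cmap (E : A →+ A) γ + cmap (E : A →+ A) F * γ - dtw F u ∈ CI N s (n + 1)) :
    ∃ h : Fin N → Pol N A, (∀ i, h i ∈ lt N A e) ∧ γ - dtw F h ∈ CI N s (n + 1) := by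
  have h1 : ((n + 1 : ℕ) : Pol N A) * C (algebraMap ℂ A ((n + 1 : ℕ) : ℂ)⁻¹) = 1 := by
    rw [← map_natCast (C : A →+* Pol N A), ← map_natCast (algebraMap ℂ A), ← map_mul, ← map_mul,
      mul_inv_cancel₀ (Nat.cast_ne_zero.2 (Nat.succ_ne_zero n)), map_one, map_one]
  obtain ⟨h, h2, h3, -⟩ := flat_vanish hd hF hr hE hγ
    (by rw [mem_CI_one.1 h0]; exact Exact.zero _)
    (Ideal.mul_mem_left _ (C (algebraMap ℂ A ((n + 1 : ℕ) : ℂ)⁻¹)) hu) (u := u)
    (by rw [← mul_assoc, h1, one_mul, sub_self]; exact zero_mem _)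
  exact ⟨h, h2, h3⟩

/-- The data of a flat section `β` of `F' + G` that is close to the flat section `b` of `F'`. -/
structure Near (d σ n : ℕ) (s : A →ₐ[ℂ] ℂ) (E : Derivation ℂ A A) (F' G β b : Pol N A) :
    Prop where
  hd : 2 ≤ d
  hF : F'.IsHomogeneous d
  hG : G.IsHomogeneous d
  reg : RegAll fun i => pderiv i (map (s : A →+* ℂ) F')
  euler : Euler s E
  mem : G ∈ CI N s (n + 1)
  deg : β ∈ lt N A (σ + (d - 2) + 1)
  hb : b.IsHomogeneous (σ + (d - 2))
  flat : Exact (F' + G) (cmap (E : A →+ A) β + cmap (E : A →+ A) (F' + G) * β)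
  flat' : ∃ η, (∀ i, η i ∈ CI N s 1) ∧
    cmap (E : A →+ A) b + cmap (E : A →+ A) F' * b = dtw F' η
  zero : Exact (map (s : A →+* ℂ) F') (map (s : A →+* ℂ) (β - b))

variable {σ n : ℕ} {F' G β b : Pol N A}

omit [IsNoetherianRing A] in
theorem Near.red (h : Near d σ n s E F' G β b) :
    map (s : A →+* ℂ) (F' + G) = map (s : A →+* ℂ) F' := by
  rw [map_add, mem_CI_one.1 (CI_mono (by omega) h.mem), add_zero]

theorem Near.hodge (h : Near d σ n s E F' G β b) : ∃ c : Fin N → Pol N A, (∀ i, c i ∈ lt N A σ) ∧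
    β - b - dtw (F' + G) c ∈ CI N s (n + 1) ∧ ∀ φ, Level s (n + 1) φ →
      Exact (map (s : A →+* ℂ) F') (cmap φ (β - b - dtw (F' + G) c) + cmap φ (G * b)) := by
  have hd := h.hd
  obtain ⟨v, hv⟩ := exact_iff.1 h.flat
  obtain ⟨η, h1, h2⟩ := h.flat'
  obtain ⟨c, h3, h4, h5⟩ := flat_vanish (e := σ) (n := n) (γ := β - b) (τ := -(G * b))
    (u := v - η) hd (h.hF.add h.hG) (by rw [h.red]; exact h.reg) h.euler
    (by
      rw [show σ + (d - 1) = σ + (d - 2) + 1 by omega]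
      exact sub_mem h.deg (mem_lt_of_isHomogeneous h.hb (Nat.lt_succ_self _)))
    (by rw [h.red]; exact h.zero) (neg_mem (Ideal.mul_mem_right _ _ h.mem)) (by
      have h6 := sub_mem (CI_mono (by omega) (vf_mem_CI2 h1 h.mem) : _ ∈ CI N s (n + 2))
        (Ideal.mul_mem_right b _ (h.euler.cmap_sub h.mem))
      convert h6 using 1
      rw [dtw_sub, ← hv, dtw_eq, vf_add, ← add_assoc, ← dtw_eq, ← h2, map_sub, map_add]
      ring)
  refine ⟨c, h3, h4, fun φ hφ => ?_⟩
  have h7 := h5 φ hφ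
  rwa [h.red, map_neg, sub_neg_eq_add] at h7

theorem Near.first (h : Near d σ n s E F' G β b) {φ : A →+ ℂ} (hφ : Level s (n + 1) φ) :
    cmap φ G * map (s : A →+* ℂ) b ∈ jac (map (s : A →+* ℂ) F') := by
  have hd := h.hd
  obtain ⟨c, h1, -, h3⟩ := h.hodge
  have h4 := h3 φ hφ
  rw [mul_comm G, hφ.cmap_mul _ h.mem, ← sub_neg_eq_add] at h4
  have h5 := tw_top hd (h.hF.map _) h.reg (n := σ + (d - 2) + 1) (by
    have := ((h.hb.map (s : A →+* ℂ)).mul (cmap_isHomogeneous φ h.hG)).neg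
    convert this using 1
    omega) (lt_mono (by omega) (cmap_mem_lt φ (sub_mem
      (sub_mem h.deg (mem_lt_of_isHomogeneous h.hb (Nat.lt_succ_self _)))
      (lt_mono (by omega) (dtw_mem_lt (h.hF.add h.hG) h1))))) h4
  rw [mul_comm]
  exact (neg_mem_iff).1 h5

/-- The second-order obstruction. -/
theorem Near.second (h : Near d σ n s E F' G β b) : ∃ u : Fin N → Pol N A,
    (∀ i, u i ∈ CI N s (n + 1)) ∧ G * b - vf u F' ∈ CI N s (n + 1 + 1) ∧
      2 * (G * b) + G * dv u - vf u G ∈ IJ F' s (n + 1 + (n + 1) + 1) := by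
  have hd := h.hd
  have hGb : G * b ∈ CI N s (n + 1) := Ideal.mul_mem_right _ _ h.mem
  have hGbh : (G * b).IsHomogeneous (σ + (d - 2) + 2 + (d - 2)) := by
    convert h.hG.mul h.hb using 1
    omega
  obtain ⟨u, hu1, hu2, hu3⟩ := lift_rel (y := fun i => pderiv i F') hGb
    (fun _ => homogeneousSubmodule _ ℂ (σ + (d - 2) + 1))
    (fun _ => homogeneousSubmodule _ A (σ + (d - 2) + 1)) (fun _ q hq => hq.map _) fun φ hφ => by
      have h1 := h.first hφ
      rw [mul_comm, ← hφ.cmap_mul _ h.mem, mul_comm] at h1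
      obtain ⟨c, hc⟩ := mem_jac_iff.1 h1
      refine ⟨fun i => homogeneousComponent (σ + (d - 2) + 1) (c i),
        fun i => homogeneousComponent_isHomogeneous _ _, ?_⟩
      rw [← homogeneousComponent_eq_self (cmap_isHomogeneous φ hGbh), hc, vf, map_sum]
      refine Finset.sum_congr rfl fun i _ => ?_
      rw [mul_comm, tw2_hc_mul (h.hF.map _).pderiv, if_pos (by omega), mul_comm, pderiv_map,
        show σ + (d - 2) + 2 + (d - 2) - (d - 1) = σ + (d - 2) + 1 by omega]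
  change G * b - vf u F' ∈ _ at hu3
  refine ⟨u, hu1, hu3, ?_⟩
  obtain ⟨c, hc1, hc2, hc3⟩ := h.hodge
  set ε := β - b - dtw (F' + G) c with hε
  have hεd : ε ∈ lt N A (σ + (d - 2) + 1) := sub_mem
    (sub_mem h.deg (mem_lt_of_isHomogeneous h.hb (Nat.lt_succ_self _)))
    (lt_mono (by omega) (dtw_mem_lt (h.hF.add h.hG) hc1))
  have hdv : (dv u).IsHomogeneous (σ + (d - 2)) := dv_homog hu2
  have h1 : homogeneousComponent (σ + (d - 2)) ε - dv u ∈ IJ F' s (n + 1 + 1) := by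
    refine IJ_of_level (sub_mem (hc_mem_CI hc2 _) (dv_mem_CI hu1)) fun φ hφ => ?_
    have h2 := hφ.cmap_eq_zero hu3
    rw [map_sub, sub_eq_zero, cmap_vf hφ hu1] at h2
    have h3 := (hc3 φ hφ).sub (exact_iff.2 ⟨fun i => cmap φ (u i), rfl⟩)
    rw [h2, dtw_eq, add_sub_add_right_eq_sub, ← cmap_dv, ← map_sub] at h3
    obtain ⟨l, hl, h4⟩ := tw_strict (m := σ) hd (h.hF.map _) h.reg h3 (lt_mono (by omega)
      (cmap_mem_lt φ (sub_mem hεd (mem_lt_of_isHomogeneous hdv (Nat.lt_succ_self _)))))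
    have h5 := hc_dtw_mem hd (h.hF.map (s : A →+* ℂ)) hl
    rwa [← h4, ← cmap_hc, map_sub, homogeneousComponent_eq_self hdv] at h5
  obtain ⟨v, hv⟩ := exact_iff.1 h.flat
  obtain ⟨η, -, hη⟩ := h.flat'
  have hc := conn_dtw (cmap (E : A →+ A)) (der_leib E) (cmap_pderiv _) (F' + G) c
  have hc' := conn_dtw (cmap (E : A →+ A)) (der_leib E) (cmap_pderiv _) F' (G • u)
  set v' := v - fun i => cmap (E : A →+ A) (c i) + cmap (E : A →+ A) (F' + G) * c i with hv'
  have hfl : cmap (E : A →+ A) (b + ε) + cmap (E : A →+ A) (F' + G) * (b + ε) =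
      dtw (F' + G) v' := by
    rw [hv', dtw_sub, ← hv, ← hc, show b + ε = β - dtw (F' + G) c by rw [hε]; ring, map_sub]
    ring
  have hρ : G * (G * b - vf u F') + ε * G * G ∈ CI N s (n + 1 + (n + 1) + 1) :=
    add_mem (CI_mono (by omega) (mul_mem_CI h.mem hu3))
      (CI_mono (by omega) (mul_mem_CI (mul_mem_CI hc2 h.mem) h.mem))
  have hGG : G * G ∈ CI N s (n + 1 + (n + 1)) := mul_mem_CI h.mem h.mem
  have hdG : (dv (G • u)).IsHomogeneous (σ + (d - 2) + 2 + (d - 2)) := dv_homog fun i => by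
    have h9 : (G * u i).IsHomogeneous (d + (σ + (d - 2) + 1)) := h.hG.mul (hu2 i)
    rwa [show d + (σ + (d - 2) + 1) = σ + (d - 2) + 2 + (d - 2) + 1 by omega] at h9
  have hγ : ε + ε + (G * b + G * b) + (G * ε + G * ε) - dv (G • u) =
      (b + ε) * (1 + 1 + (G + G) + G * G) - (b + b) - dtw F' (G • u) -
        (G * (G * b - vf u F') + ε * G * G) := by
    rw [dtw_eq, vf_smul_left]
    ring
  have hE1 : cmap (E : A →+ A) (1 : Pol N A) = 0 := by
    have := der_leib E (1 : Pol N A) 1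
    simpa using this
  obtain ⟨l, hl1, hl2⟩ := flat_zero (e := σ + (d - 2) + 2) (n := n + 1 + (n + 1))
    (γ := ε + ε + (G * b + G * b) + (G * ε + G * ε) - dv (G • u)) hd h.hF h.reg h.euler
    (by
      have e1 : ε ∈ lt N A (σ + (d - 2) + 2 + (d - 1)) := lt_mono (by omega) hεd
      have e2 : G * b ∈ lt N A (σ + (d - 2) + 2 + (d - 1)) :=
        mem_lt_of_isHomogeneous hGbh (by omega)
      have e3 : G * ε ∈ lt N A (σ + (d - 2) + 2 + (d - 1)) :=
        lt_mono (by omega) (mul_mem_lt h.hG hεd)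
      exact sub_mem (add_mem (add_mem (add_mem e1 e1) (add_mem e2 e2)) (add_mem e3 e3))
        (mem_lt_of_isHomogeneous hdG (by omega)))
    (by
      have e1 : ε ∈ CI N s 1 := CI_mono (by omega) hc2
      have e0 : G ∈ CI N s 1 := CI_mono (by omega) h.mem
      have e2 : G * b ∈ CI N s 1 := Ideal.mul_mem_right _ _ e0
      have e3 : G * ε ∈ CI N s 1 := Ideal.mul_mem_right _ _ e0
      exact sub_mem (add_mem (add_mem (add_mem e1 e1) (add_mem e2 e2)) (add_mem e3 e3))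
        (dv_mem_CI fun i => Ideal.mul_mem_right _ _ e0))
    (u := (1 + 1 + (G + G) + G * G) • v' - (η + η) -
      fun i => cmap (E : A →+ A) ((G • u) i) + cmap (E : A →+ A) F' * (G • u) i)
    (by
      have e1 : G * G * (vf v' G - cmap (E : A →+ A) G * (b + ε)) ∈
          CI N s (n + 1 + (n + 1) + 1) := CI_mono (by omega) (mul_mem_CI hGG (sub_mem
        (vf_mem_CI' v' h.mem) (Ideal.mul_mem_right _ _ (euler_mem h.euler h.mem))))
      have e2 := sub_mem e1 (add_mem (euler_mem h.euler hρ)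
        (Ideal.mul_mem_left _ (cmap (E : A →+ A) F') hρ))
      convert e2 using 1
      have e3 : dtw F' ((1 + 1 + (G + G) + G * G) • v') =
          (1 + 1 + (G + G)) * vf v' G +
            (1 + 1 + (G + G) + G * G) * (dtw (F' + G) v' - vf v' G) := by
        simp only [dtw_eq, dv_smul, vf_smul_left, vf_add, vf_mul, vf_one]
        ring
      rw [hγ, dtw_sub, dtw_sub, dtw_add, ← hη, ← hc', e3, ← hfl]
      simp only [map_sub, map_add, der_leib, hE1]
      ring)
  have h6 := add_mem (IJ_of_CI (F := F') (hc_mem_CI hl2 (σ + (d - 2) + 2 + (d - 2))))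
    (IJ_of_jac (hc_dtw_mem hd h.hF hl1))
  rw [map_sub, sub_add_cancel] at h6
  simp only [map_sub, map_add, homogeneousComponent_eq_self hGbh, homogeneousComponent_eq_self hdG,
    tw2_hc_eq_zero hεd (show σ + (d - 2) + 1 ≤ σ + (d - 2) + 2 + (d - 2) by omega)] at h6
  rw [tw2_hc_mul h.hG _ ε, if_pos (by omega),
    show σ + (d - 2) + 2 + (d - 2) - d = σ + (d - 2) by omega, dv_smul] at h6
  have h7 : G * (homogeneousComponent (σ + (d - 2)) ε - dv u) ∈ IJ F' s (n + 1 + (n + 1) + 1) :=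
    mul_mem_IJ (a := n + 1) (b := n + 1 + 1) h.mem h1
  convert sub_mem h6 (add_mem h7 h7) using 1
  ring

end Pool.Agent.Lib.MP_e9c0f3_ag.H48
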