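import Pool.Agent.Lib.MP_e9c0f3_ag.H48.Val
import Pool.Agent.Lib.MP_e9c0f3_ag.H48.Gen
import Pool.Agent.Lib.MP_e9c0f3_ag.Glob

/-! Specialisation of the cycles. -/

open MvPolynomial

namespace Pool.Agent.Lib.MP_e9c0f3_ag.H48

variable {R R' : Type} [CommRing R] [CommRing R'] {N k m d : ℕ} {e : Fin m → ℕ}

/-- The linear form with given coefficients. -/
noncomputable def lin (v : Fin N → R) : Pol N R := ∑ c, C (v c) * X c

theorem lin_homog (v : Fin N → R) : (lin v).IsHomogeneous 1 :=
  IsHomogeneous.sum _ _ _ fun c _ => (isHomogeneous_X R c).C_mul _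

theorem exists_lin {p : Pol N R} (h : p.IsHomogeneous 1) : ∃ v, p = lin v := by
  refine ⟨fun c => coeff 0 (pderiv c p), ?_⟩
  have h1 := h.sum_X_mul_pderiv
  rw [one_smul] at h1
  refine h1.symm.trans (Finset.sum_congr rfl fun c _ => ?_)
  rw [mul_comm, ← totalDegree_eq_zero_iff_eq_C.1
    (Nat.le_zero.1 (h.pderiv (i := c)).totalDegree_le)]

theorem map_lin (φ : R →+* R') (v : Fin N → R) : map φ (lin v) = lin (φ ∘ v) := by
  simp [lin]

theorem lin_sum (a : Fin k → R) (y : Fin k → Fin N → R) :
    lin (∑ l, a l • y l) = ∑ l, C (a l) * lin (y l) := by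
  simp only [lin, Finset.sum_apply, Pi.smul_apply, smul_eq_mul, map_sum, map_mul, Finset.sum_mul,
    Finset.mul_sum, mul_assoc]
  exact Finset.sum_comm

/-- The projection along the linear forms `y`. -/
noncomputable def th (y T : Fin k → Fin N → R) : Pol N R →ₐ[R] Pol N R :=
  bind₁ fun c => X c - ∑ l, C (T l c) * lin (y l)

theorem th_lin (y T : Fin k → Fin N → R) (v : Fin N → R) :
    th y T (lin v) = lin v - lin (∑ l, (v ⬝ᵥ T l) • y l) := by
  rw [lin_sum]
  simp only [th, dotProduct, map_sum, map_mul, Finset.sum_mul, mul_assoc]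
  rw [Finset.sum_comm, lin, map_sum, ← Finset.sum_sub_distrib]
  refine Finset.sum_congr rfl fun c _ => ?_
  rw [map_mul, bind₁_C_right, bind₁_X_right, mul_sub, Finset.mul_sum]

theorem sub_th (y T : Fin k → Fin N → R) (p : Pol N R) :
    ∃ h : Fin k → Pol N R, p - th y T p = ∑ l, h l * lin (y l) := by
  induction p using MvPolynomial.induction_on with
  | C a => exact ⟨0, by simp [th]⟩
  | add p q hp hq =>
    obtain ⟨h, hh⟩ := hp
    obtain ⟨h', hh'⟩ := hq
    refine ⟨h + h', ?_⟩
    simp only [Pi.add_apply, add_mul, Finset.sum_add_distrib, ← hh, ← hh', map_add]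
    ring
  | mul_X p c hp =>
    obtain ⟨h, hh⟩ := hp
    refine ⟨fun l => X c * h l + th y T p * C (T l c), ?_⟩
    have h1 : th y T (X c) = X c - ∑ l, C (T l c) * lin (y l) := bind₁_X_right _ _
    simp only [add_mul, Finset.sum_add_distrib, mul_assoc, ← Finset.mul_sum, ← hh, map_mul, h1]
    ring

theorem map_th (φ : R →+* R') (y T : Fin k → Fin N → R) (p : Pol N R) :
    map φ (th y T p) = th (fun l => φ ∘ y l) (fun l => φ ∘ T l) (map φ p) := by
  simp only [th, map_bind₁, map_sub, map_sum, map_mul, map_X, map_C, map_lin, Function.comp]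

theorem th_homog (y T : Fin k → Fin N → R) {p : Pol N R} {n : ℕ} (h : p.IsHomogeneous n) :
    (th y T p).IsHomogeneous n := by
  have h1 := h.aeval (fun c => X c - ∑ l, C (T l c) * lin (y l)) fun c =>
    (isHomogeneous_X R c).sub (IsHomogeneous.sum _ _ _ fun l _ => (lin_homog (y l)).C_mul _)
  rwa [one_mul] at h1

theorem exact_comb {F : Pol N R} {g : Fin m → Pol N R} (h : ∀ j, Exact F (g j)) (α : Fin m → R) :
    Exact F (∑ j, α j • g j) :=
  Finset.sum_induction _ (Exact F) (fun _ _ => Exact.add) (Exact.zero F) fun j _ => by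
    obtain ⟨u, hu⟩ := exact_iff.1 (h j)
    exact exact_iff.2 ⟨α j • u, by rw [dtw_smul, hu]⟩

/-- The class does not change under a change of the equations. -/
theorem br_change [Algebra ℚ R] {x g y g' h : Fin k → PS k R} {M : Fin k → Fin k → R}
    {F P Q P' Q' : PS k R} {a b : R} (hab : a * b = 1) (hx : ∀ i, x i = ∑ l, C (M i l) * y l)
    (hP : P' = C a * (P - ∑ l, h l * y l)) (h1 : F = ∑ i, x i * g i + P * Q)
    (h2 : F = ∑ i, y i * g' i + P' * Q') : Exact F (br x g P Q - br y g' P' Q') := by
  have h3 : F = P * Q + ∑ l, y l * ∑ i, C (M i l) * g i := by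
    rw [h1, add_comm]
    simp only [hx, Finset.sum_mul, Finset.mul_sum]
    rw [Finset.sum_comm]
    congr 1
    exact Finset.sum_congr rfl fun _ _ => Finset.sum_congr rfl fun _ _ => by ring
  have h4 := br_inv_b y (fun l => ∑ i, C (M i l) * g i) h P Q
  have h5 : F = (P - ∑ l, h l * y l) * Q + ∑ l, y l * (∑ i, C (M i l) * g i + h l * Q) := by
    have h6 : ∑ l, y l * (h l * Q) = (∑ l, h l * y l) * Q := by
      rw [Finset.sum_mul]
      exact Finset.sum_congr rfl fun _ _ => by ring
    simp only [mul_add, Finset.sum_add_distrib, h6]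
    rw [h3]
    ring
  have h6 := br_inv_c y (fun l => ∑ i, C (M i l) * g i + h l * Q) g' (P - ∑ l, h l * y l) Q
    (C a * Q') (by rw [← h5, h2, hP]; ring)
  have h7 := br_scale y g' (P - ∑ l, h l * y l) (C a * Q') hab
  rw [← hP, ← mul_assoc, ← C_mul, mul_comm b, hab, C_1, one_mul] at h7
  have h8 := br_mat (Matrix.of M) y g P Q
  simp only [Matrix.of_apply, ← hx] at h8
  rw [← h3] at h4
  rw [← h5] at h6
  convert (h4.add h6).neg using 1
  rw [h7, h8]
  ring

theorem Split.eq_hat {F r : PS k R} {x g : Fin k → PS k R} {f : Fin m → PS k R}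
    (h : Split d e F x g f r) (j : Fin m) : F = ∑ i, x i * g i + f j * (hat f j * r) := by
  rw [h.eq, ← mul_hat f j, mul_assoc]

/-- The cycles extend over a valuation ring. -/
theorem Has.integral {L : Type} [Field L] [Algebra ℚ L] (O : ValuationSubring L)
    (hd : ∑ j, e j < d) {α : Fin m → O} {F β : PS k O} (hF : F.IsHomogeneous d)
    (h : Has d e (fun j => algebraMap O L (α j)) (MvPolynomial.map (algebraMap O L) F)
      (MvPolynomial.map (algebraMap O L) β)) :
    ∃ x g f r, Split d e F x g f r ∧ Exact (MvPolynomial.map (algebraMap O L) F)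
      (MvPolynomial.map (algebraMap O L) (β - cmb x g f r α)) := by
  obtain ⟨x, g, f, r, hs, hex⟩ := h
  have hι : Function.Injective (algebraMap O L) := Subtype.val_injective
  have hi := map_injective (σ := Fin (k + 1 + (k + 1))) _ hι
  choose v hv using fun i => exists_lin (hs.hx i)
  obtain ⟨y, T, M, h1, h2, -⟩ := exists_vn O k v
  set θ := th (fun l => algebraMap O L ∘ y l) (fun l => algebraMap O L ∘ T l) with hθ
  have h3 : ∀ i, x i = ∑ l, C (M i l) * MvPolynomial.map (algebraMap O L) (lin (y l)) :=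
    fun i => by simp only [hv i, h1 i, lin_sum, map_lin]
  have h4 : ∀ i, θ (x i) = 0 := fun i => by
    rw [h3, map_sum]
    refine Finset.sum_eq_zero fun l _ => ?_
    rw [map_mul, ← map_th, th_lin, h2, sub_self, map_zero, mul_zero]
  obtain ⟨c, q, h5, h6⟩ := gauss O (fun o : Option (Fin m) => θ (o.elim r f)) (W := th y T F) (by
    rw [map_th, hs.eq, Fintype.prod_option]
    simp only [← hθ, map_add, map_sum, map_mul, map_prod, h4, zero_mul, Finset.sum_const_zero,
      zero_add, Option.elim, mul_comm])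
  have h7 : th y T F = (∏ j, q (some j)) * q none := hi (by
    rw [mul_comm, ← Fintype.prod_option, map_prod, map_th, hs.eq]
    simp only [h6, Finset.prod_mul_distrib, ← map_prod, h5, C_1, one_mul]
    simp only [← hθ, map_add, map_sum, map_mul, map_prod, h4, zero_mul, Finset.sum_const_zero,
      zero_add, Option.elim, Fintype.prod_option, mul_comm])
  obtain ⟨b, hb⟩ := sub_th y T F
  have h8 := hom_dec (fun l => lin_homog (y l)) (hF.sub (th_homog y T hF)) hb
  have h9 : 1 ≤ d := by omega
  simp only [if_pos h9, h7, sub_eq_iff_eq_add, mul_comm (homogeneousComponent _ _)] at h8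
  have sp : Split d e F (fun l => lin (y l)) (fun l => homogeneousComponent (d - 1) (b l))
      (fun j => q (some j)) (q none) := ⟨fun l => lin_homog _,
    fun l => homogeneousComponent_isHomogeneous _ _,
    fun j => IsHomogeneous.of_map hι (h6 _ ▸ (th_homog _ _ (hs.hf j)).C_mul _),
    IsHomogeneous.of_map hι (h6 _ ▸ (th_homog _ _ hs.hr).C_mul _), h8⟩
  refine ⟨_, _, _, _, sp, ?_⟩
  have h10 := exact_comb (fun j => by
    obtain ⟨w, hw⟩ := sub_th (fun l => algebraMap O L ∘ y l) (fun l => algebraMap O L ∘ T l) (f j)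
    have hc : c (some j) ≠ 0 := fun h0 =>
      one_ne_zero (h5.symm.trans (Finset.prod_eq_zero (Finset.mem_univ _) h0))
    have h11 : MvPolynomial.map (algebraMap O L) (q (some j)) = C (c (some j)) *
        (f j - ∑ l, w l * MvPolynomial.map (algebraMap O L) (lin (y l))) := by
      simp only [h6, map_lin, ← hw, sub_sub_cancel]
      rfl
    exact br_change (mul_inv_cancel₀ hc) h3 h11 (hs.eq_hat j)
      ((sp.map (algebraMap O L)).eq_hat j))
    fun j => algebraMap O L (α j)
  convert hex.add h10 using 1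
  rw [map_sub, map_cmb]
  simp only [cmb, cyc_eq, smul_sub, Finset.sum_sub_distrib, sub_add_sub_cancel]

/-- Specialisation from the generic point. -/
theorem Has.specialize (hd : ∑ j, e j + 1 < d) {A L : Type} [CommRing A] [Algebra ℂ A] [Field L]
    {φ : A →+* L} (hφ : Function.Injective φ) {α : Fin m → ℂ} {F β : PS k A}
    (hF : F.IsHomogeneous d) (h : Has d e (fun j => φ (algebraMap ℂ A (α j)))
      (MvPolynomial.map φ F) (MvPolynomial.map φ β)) (s : A →ₐ[ℂ] ℂ)
    (hs : Isol (MvPolynomial.map (s : A →+* ℂ) F)) :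
    Has d e α (MvPolynomial.map (s : A →+* ℂ) F) (MvPolynomial.map (s : A →+* ℂ) β) := by
  have : CharZero L := (φ.comp (algebraMap ℂ A)).charZero_iff (RingHom.injective _) |>.1
    inferInstance
  obtain ⟨O, ψ, c, h1, h2⟩ := exists_valuation hφ s
  rw [← h1, ← MvPolynomial.map_map, ← MvPolynomial.map_map] at h
  obtain ⟨x, g, f, r, h3, h4⟩ := Has.integral O (by omega) (hF.map ψ)
    (α := fun j => ψ (algebraMap ℂ A (α j))) h
  have h5 : ∀ p : PS k A, MvPolynomial.map (IsLocalRing.residue O) (MvPolynomial.map ψ p) =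
      MvPolynomial.map c (MvPolynomial.map (s : A →+* ℂ) p) := fun p => by
    rw [MvPolynomial.map_map, MvPolynomial.map_map, h2]
  have h6 : Has d e (fun j => ψ (algebraMap ℂ A (α j))) (MvPolynomial.map ψ F)
      (MvPolynomial.map ψ β) := ⟨x, g, f, r, h3,
    exact_of_exact_frac (L := L) (by omega) (hF.map ψ) (by
      rw [h5]
      exact (hs.map c).regAll (by omega) ((hF.map _).map c)) h4⟩
  have h7 := h6.map (IsLocalRing.residue O)
  have h8 : ∀ j, IsLocalRing.residue O (ψ (algebraMap ℂ A (α j))) = c (α j) := fun j =>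
    (RingHom.congr_fun h2 _).trans (congrArg c (s.commutes (α j)))
  simp only [h5, h8] at h7
  exact h7.descend c

end Pool.Agent.Lib.MP_e9c0f3_ag.H48
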