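import Pool.Agent.Lib.MP_e9c0f3_ag.H48.Ord
import Pool.Agent.Lib.MP_e9c0f3_ag.H48.Ev
import Pool.Agent.Lib.MP_e9c0f3_ag.H48.Alg

/-! Lifting the cycles to every order. -/

open MvPolynomial

namespace Pool.Agent.Lib.MP_e9c0f3_ag.H48

variable {A : Type} [CommRing A] [Algebra ℂ A] {k m : ℕ}

/-- The hypotheses at the point `s`. -/
structure Start (d : ℕ) (e : Fin m → ℕ) (s : A →ₐ[ℂ] ℂ) (E : Derivation ℂ A A) (F β : PS k A)
    (α : Fin m → ℂ) (x₀ g₀ : Fin k → PS k ℂ) (f₀ : Fin m → PS k ℂ) (r₀ : PS k ℂ) : Prop where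
  hF : F.IsHomogeneous d
  euler : Euler s E
  deg : β ∈ lt _ A ((k + 1) * (d - 2) + 1)
  flat : Exact F (cmap (E : A →+ A) β + cmap (E : A →+ A) F * β)
  pt : Pt d e x₀ g₀ f₀ r₀
  red : map (s : A →+* ℂ) F = tot x₀ g₀ f₀ r₀
  ne : ∀ j, α j ≠ 0
  inj : Function.Injective α
  rad : ∀ j, (XP x₀ (f₀ j) (hat f₀ j)).IsRadical
  zero : Exact (tot x₀ g₀ f₀ r₀) (map (s : A →+* ℂ) β - cmb x₀ g₀ f₀ r₀ α)

/-- A lift of the splitting to order `n`. -/
structure Lv (d : ℕ) (e : Fin m → ℕ) (s : A →ₐ[ℂ] ℂ) (F : PS k A) (x₀ g₀ : Fin k → PS k ℂ)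
    (f₀ : Fin m → PS k ℂ) (r₀ : PS k ℂ) (n : ℕ) (x g : Fin k → PS k A) (f : Fin m → PS k A)
    (r : PS k A) : Prop where
  sp : Split d e (tot x g f r) x g f r
  rx : ∀ i, map (s : A →+* ℂ) (x i) = x₀ i
  rg : ∀ i, map (s : A →+* ℂ) (g i) = g₀ i
  rf : ∀ j, map (s : A →+* ℂ) (f j) = f₀ j
  rr : map (s : A →+* ℂ) r = r₀
  mem : F - tot x g f r ∈ CI _ s n

variable {d n : ℕ} {e : Fin m → ℕ} {s : A →ₐ[ℂ] ℂ} {E : Derivation ℂ A A} {F β : PS k A}
  {α : Fin m → ℂ} {x₀ g₀ : Fin k → PS k ℂ} {f₀ : Fin m → PS k ℂ} {r₀ : PS k ℂ}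
  {x g : Fin k → PS k A} {f : Fin m → PS k A} {r : PS k A}

theorem Lv.tot (l : Lv d e s F x₀ g₀ f₀ r₀ n x g f r) :
    map (s : A →+* ℂ) (tot x g f r) = tot x₀ g₀ f₀ r₀ := by
  simp only [map_tot, l.rx, l.rg, l.rf, l.rr]

theorem Lv.cmb (l : Lv d e s F x₀ g₀ f₀ r₀ n x g f r) (α : Fin m → ℂ) :
    map (s : A →+* ℂ) (cmb x g f r fun j => algebraMap ℂ A (α j)) = cmb x₀ g₀ f₀ r₀ α := by
  simp only [map_cmb, l.rx, l.rg, l.rf, l.rr]
  congr 1
  funext j
  exact s.commutes (α j)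

theorem Lv.gen (l : Lv d e s F x₀ g₀ f₀ r₀ n x g f r) (t : Fin k ⊕ Fin k) :
    map (s : A →+* ℂ) (Sum.elim x g t) = Sum.elim x₀ g₀ t := by
  rcases t with i | i
  · exact l.rx i
  · exact l.rg i

theorem Start.near (h : Start d e s E F β α x₀ g₀ f₀ r₀)
    (l : Lv d e s F x₀ g₀ f₀ r₀ (n + 1) x g f r) :
    Near d (k * (d - 2)) n s E (tot x g f r) (F - tot x g f r) β
      (cmb x g f r fun j => algebraMap ℂ A (α j)) := by
  have hd := h.pt.hd
  have h1 := l.sp.homog (by omega)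
  refine ⟨by omega, h1, h.hF.sub h1, ?_, h.euler, l.mem, ?_, ?_, ?_, ?_, ?_⟩
  · rw [l.tot]
    exact h.pt.isol.regAll (by omega) (h.pt.sp.homog (by omega))
  · rw [← add_one_mul]
    exact h.deg
  · rw [← add_one_mul]
    exact l.sp.cmb_homog _ h.pt.he (by omega)
  · rw [add_sub_cancel]
    exact h.flat
  · refine cmb_flat x g f r _ _ (der_leib E) (cmap_pderiv _) (fun j => ?_) _ h.euler.cmap_mem_one
    ext μ
    rw [coeff_cmap, coeff_C, coeff_zero]
    split_ifs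
    · exact E.map_algebraMap (α j)
    · exact map_zero _
  · rw [l.tot, map_sub, l.cmb]
    exact h.zero

theorem prod_expand {N : ℕ} {α : Type} [DecidableEq α] (T : Finset α) (f : α → Pol N A)
    {c : α → Pol N A} (hc : ∀ j, c j ∈ CI N s n) :
    ∏ j ∈ T, (f j + c j) - ∏ j ∈ T, f j - ∑ j ∈ T, c j * ∏ i ∈ T.erase j, f i ∈
      CI N s (n + n) := by
  induction T using Finset.induction_on with
  | empty => simp
  | insert i T hi ih =>
    have h1 : ∑ j ∈ T, c j * ∏ l ∈ (insert i T).erase j, f l =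
        f i * ∑ j ∈ T, c j * ∏ l ∈ T.erase j, f l := by
      rw [Finset.mul_sum]
      refine Finset.sum_congr rfl fun j hj => ?_
      have hij : i ≠ j := fun h => hi (h ▸ hj)
      rw [Finset.erase_insert_of_ne hij,
        Finset.prod_insert fun h => hi (Finset.mem_of_mem_erase h), mul_left_comm]
    have h2 : ∑ j ∈ T, c j * ∏ l ∈ T.erase j, f l ∈ CI N s n :=
      Ideal.sum_mem _ fun j _ => Ideal.mul_mem_right _ _ (hc j)
    rw [Finset.prod_insert hi, Finset.prod_insert hi, Finset.sum_insert hi, Finset.erase_insert hi,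
      h1]
    convert add_mem (Ideal.mul_mem_left _ (f i + c i) ih) (mul_mem_CI (hc i) h2) using 1
    ring

variable [IsNoetherianRing A]

/-- The first-order term. -/
theorem Start.dec (h : Start d e s E F β α x₀ g₀ f₀ r₀)
    (l : Lv d e s F x₀ g₀ f₀ r₀ (n + 1) x g f r) :
    ∃ (p : Fin m → PS k A) (w : PS k A) (c : Fin m → Fin k ⊕ Fin k → PS k A),
      (∀ j, p j ∈ CI _ s (n + 1)) ∧ w ∈ CI _ s (n + 1) ∧ (∀ j t, c j t ∈ CI _ s (n + 1)) ∧
      w.IsHomogeneous (∑ j, e j) ∧ ∀ j, err x g f r (fun j => algebraMap ℂ A (α j))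
        (F - tot x g f r) p w c j ∈ CI _ s (n + 1 + 1) := by
  have hn := h.near l
  obtain ⟨ρ, a, φ, ha, hφ, hdual⟩ := exists_dual (N := k + 1 + (k + 1)) s (n + 1)
  have h1 := fun μ => h.pt.first α (cmap_isHomogeneous (φ μ) hn.hG) (by
    have := hn.first (hφ μ)
    rwa [l.tot, l.cmb] at this)
  choose w w1 w2 using h1
  choose p c h2 using fun μ j => mem_KP.1 (w2 μ j)
  refine ⟨fun j => ∑ μ, a μ • map (algebraMap ℂ A) (p μ j), ∑ μ, a μ • map (algebraMap ℂ A) (w μ),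
    fun j t => ∑ μ, a μ • map (algebraMap ℂ A) (c μ j t),
    fun j => Ideal.sum_mem _ fun μ _ => smul_mem_CI (ha μ) _,
    Ideal.sum_mem _ fun μ _ => smul_mem_CI (ha μ) _,
    fun j t => Ideal.sum_mem _ fun μ _ => smul_mem_CI (ha μ) _,
    IsHomogeneous.sum _ _ _ fun μ _ => (homogeneousSubmodule _ _ _).smul_mem _ ((w1 μ).map _),
    fun j => ?_⟩
  have h3 : ∑ μ, a μ • (algebraMap ℂ A (α j) •
      map (algebraMap ℂ A) (cmap (φ μ) (F - tot x g f r)) - (map (algebraMap ℂ A) (p μ j) * f j +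
        map (algebraMap ℂ A) (w μ) * r + ∑ t, map (algebraMap ℂ A) (c μ j t) * Sum.elim x g t)) ∈
      CI _ s (n + 1 + 1) := Ideal.sum_mem _ fun μ _ => jet2_smul_mem (ha μ) (by
    have h4 : (s : A →+* ℂ) (algebraMap ℂ A (α j)) = α j := s.commutes (α j)
    have h5 := h2 μ j
    rw [mem_CI_one]
    simp only [smul_eq_C_mul, map_sub (map _), map_add, map_mul, map_sum, map_C,
      map_map_algebraMap, l.rf, l.rr, l.gen, h4] at h5 ⊢
    linear_combination h5)
  have h6 := add_mem (Ideal.mul_mem_left _ (C (algebraMap ℂ A (α j))) (hdual _ l.mem)) h3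
  convert h6 using 1
  simp only [err, smul_sub, smul_add, Finset.sum_sub_distrib, Finset.sum_add_distrib,
    Finset.sum_mul, Finset.smul_sum, mul_sub, Finset.mul_sum, smul_eq_C_mul, mul_assoc,
    mul_left_comm (C (a _) : PS k A) (C (algebraMap ℂ A (α j)))]
  rw [Finset.sum_comm]
  ring

/-- The second-order term. -/
theorem Start.obs (h : Start d e s E F β α x₀ g₀ f₀ r₀)
    (l : Lv d e s F x₀ g₀ f₀ r₀ (n + 1) x g f r) {p : Fin m → PS k A} {w : PS k A}
    {c : Fin m → Fin k ⊕ Fin k → PS k A} (hp : ∀ j, p j ∈ CI _ s (n + 1)) (hw : w ∈ CI _ s (n + 1))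
    (hc : ∀ j t, c j t ∈ CI _ s (n + 1)) (he : ∀ j, err x g f r (fun j => algebraMap ℂ A (α j))
      (F - tot x g f r) p w c j ∈ CI _ s (n + 1 + 1)) :
    w * w * (r * cmb x g f r fun j => algebraMap ℂ A (α j)⁻¹) ∈
      IJ (tot x g f r) s (n + 1 + (n + 1) + 1) := by
  have hn := h.near l
  obtain ⟨u, u1, u2, u3⟩ := hn.second
  set G := F - tot x g f r with hG
  set αA : Fin m → A := fun j => algebraMap ℂ A (α j) with hα
  have hU : ∀ i, fu x g f r p w c i ∈ CI _ s (n + 1) := fun i => by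
    simp only [fu, Pi.sub_apply, Pi.add_apply, Finset.sum_apply, Pi.smul_apply, smul_eq_mul]
    exact sub_mem (add_mem (Ideal.mul_mem_right _ _ hw) (Ideal.sum_mem _ fun j _ =>
      Ideal.sum_mem _ fun t _ => Ideal.mul_mem_right _ _ (hc j t)))
      (Ideal.sum_mem _ fun j _ => Ideal.mul_mem_right _ _ (hp j))
  have h1 : G * cmb x g f r αA - vf (fu x g f r p w c) (tot x g f r) ∈ CI _ s (n + 1 + 1) := by
    rw [key1]
    exact Ideal.sum_mem _ fun j _ => Ideal.mul_mem_right _ _ (he j)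
  have h2 := (syz hn.reg (c := u - fu x g f r p w c) (fun i => sub_mem (u1 i) (hU i)) (by
    rw [vf_sub_left]
    convert sub_mem h1 u2 using 1
    ring)).1
  have h3 : vf (u - fu x g f r p w c) (∏ i, f i) ∈ IJ (tot x g f r) s (n + 1 + 1) :=
    Ideal.sum_mem _ fun i _ => Ideal.mul_mem_right _ _ (h2 i)
  obtain ⟨h4, h5⟩ := syz hn.reg (c := (∏ i, f i) • u + G • fs x g f αA)
    (fun i => add_mem (Ideal.mul_mem_left _ _ (u1 i)) (Ideal.mul_mem_right _ _ hn.mem)) (by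
      rw [vf_add_left, vf_smul_left, vf_smul_left, ← neg_neg (vf (fs x g f αA) _), ← key2]
      convert neg_mem (Ideal.mul_mem_left _ (∏ i, f i) u2) using 1
      ring)
  have h6 := vf_mem_IJ (a := n + 1) h4 hn.mem
  have h7 : (∏ i, f i) * cmb x g f r αA ∈ jac (tot x g f r) := by
    rw [key2]
    exact neg_mem (vf_mem_jac _ _)
  have h8 : ∑ j, err x g f r αA G p w c j * br x g (hat f j) (f j) ∈ CI _ s (n + 1 + 1) :=
    Ideal.sum_mem _ fun j _ => Ideal.mul_mem_right _ _ (he j)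
  have h9 := mul_mem_IJ (a := n + 1) (b := n + 1 + 1) hn.mem (sub_mem h5 (add_mem h3
    (add_mem (IJ_of_jac (key3 x g f r αA G p w c)) (IJ_of_CI h8))))
  have h10 := key4 x g f r αA G p w c (α' := fun j => algebraMap ℂ A (α j)⁻¹) fun j => by
    rw [hα, ← map_mul, inv_mul_cancel₀ (h.ne j), map_one]
  have h11 : w * ∑ j, algebraMap ℂ A (α j)⁻¹ • (err x g f r αA G p w c j * cyc x g f r j) ∈
      CI _ s (n + 1 + (n + 1 + 1)) := mul_mem_CI hw (Ideal.sum_mem _ fun j _ => by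
    rw [smul_eq_C_mul]
    exact Ideal.mul_mem_left _ _ (Ideal.mul_mem_right _ _ (he j)))
  have h12 := sub_mem (sub_mem (sub_mem (sub_mem h9 h6)
    (sub_mem (Ideal.mul_mem_left _ (∏ i, f i) u3)
      (IJ_of_jac (Ideal.mul_mem_left _ (2 * G) h7)))) (IJ_of_jac h10)) (IJ_of_CI h11)
  rw [dv_add, dv_smul, dv_smul, vf_add_left, vf_smul_left, vf_smul_left, vf_sub_left] at h12
  have h13 : ∀ G H a1 a2 a3 a4 a5 a6 a7 a8 a9 y z : PS k A,
      G * (a1 + H * a2 + (a3 + G * a4) - (a1 - a5 + (a5 + G * a4 - a6 - a7 + a7))) -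
        (H * a8 + G * a3) - (H * (2 * (G * a9) + G * a2 - a8) - 2 * G * (H * a9)) -
        (G * a6 - y - z) - z = y := by
    intros
    ring
  rwa [h13] at h12

variable [Algebra.FormallySmooth ℂ A]

theorem Start.step (h : Start d e s E F β α x₀ g₀ f₀ r₀)
    (l : Lv d e s F x₀ g₀ f₀ r₀ (n + 1) x g f r) :
    ∃ x g f r, Lv d e s F x₀ g₀ f₀ r₀ (n + 1 + 1) x g f r := by
  have hn := h.near l
  obtain ⟨p, w, c, hp, hw, hc, hwh, he⟩ := h.dec l
  have h1 := h.obs l hp hw hc he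
  have hww : w * w ∈ CI _ s (n + 1 + (n + 1)) := mul_mem_CI hw hw
  have h2 : ∀ j, ∀ φ, Level s (n + 1) φ → cmap φ w ∈ XP x₀ (f₀ j) (hat f₀ j) := fun j φ hφ => by
    refine level_mem_of_ev hw _ (fun D => rad_step (h.rad j) fun i hi => ?_) hφ
    have h3 := level_of_IJ hn.reg (Ideal.mul_mem_right _ _ hww) h1 (ev_level D _)
    rw [mul_comm, (ev_level D _).cmap_mul _ hww, cmap_ev_sq D hw, l.tot, map_mul, l.rr, l.cmb,
      mul_comm] at h3
    have h4 := cmap_isHomogeneous (ev s D (n + 1)) hwh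
    refine h.pt.second (α := fun j => (α j)⁻¹) (fun a b hab => h.inj (inv_injective hab))
      (h4.mul h4) ?_ hi
    have h5 := Ideal.mul_mem_left _ (C ((n + 1 + (n + 1)).choose (n + 1) : ℂ)⁻¹) h3
    rwa [smul_eq_C_mul, mul_assoc (C _), ← mul_assoc (C _), ← C_mul,
      inv_mul_cancel₀ (Nat.cast_ne_zero.2 (Nat.choose_pos (by omega)).ne'), C_1, one_mul] at h5
  obtain ⟨b, b1, b2, b3⟩ := lift_rel (y := Sum.elim (Sum.elim x g)
      fun o : Option (Fin m) => o.elim (∏ i, f i) fun j => hat f j * r) l.mem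
    (fun o => homogeneousSubmodule _ ℂ (Sum.elim (Sum.elim (fun _ => d - 1) fun _ => 1)
      (fun o : Option (Fin m) => o.elim (d - ∑ j, e j) e) o))
    (fun o => homogeneousSubmodule _ A (Sum.elim (Sum.elim (fun _ => d - 1) fun _ => 1)
      (fun o : Option (Fin m) => o.elim (d - ∑ j, e j) e) o)) (fun _ q hq => hq.map _)
    fun φ hφ => by
      obtain ⟨b, b1, b2⟩ := h.pt.final (cmap_isHomogeneous φ hn.hG) fun j => by
        have h3 := hφ.cmap_eq_zero (he j)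
        have h4 : (s : A →+* ℂ) (algebraMap ℂ A (α j)) = α j := s.commutes (α j)
        rw [err, map_sub, map_add, map_add, map_sum, smul_eq_C_mul, hφ.cmap_mul _ l.mem,
          mul_comm (p j), hφ.cmap_mul _ (hp j), mul_comm w, hφ.cmap_mul _ hw, map_C, h4, l.rf,
          l.rr, sub_eq_zero] at h3
        have h5 : ∑ t, cmap φ (c j t * Sum.elim x g t) ∈ KP x₀ g₀ (f₀ j) :=
          Ideal.sum_mem _ fun t _ => by
            rw [mul_comm, hφ.cmap_mul _ (hc j t), l.gen]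
            exact Ideal.mul_mem_right _ _ (gen_mem_KP _ t)
        obtain ⟨q, q', a, h6⟩ := mem_XP.1 (h2 j φ hφ)
        have h7 : ∑ i, a i * x₀ i ∈ KP x₀ g₀ (f₀ j) := Ideal.sum_mem _ fun i _ =>
          Ideal.mul_mem_left _ _ (gen_mem_KP _ (Sum.inl i))
        have h8 : (C (α j)⁻¹ : PS k ℂ) * C (α j) = 1 := by
          rw [← C_mul, inv_mul_cancel₀ (h.ne j), C_1]
        refine ⟨C (α j)⁻¹ * q', ?_⟩
        have h9 := Ideal.mul_mem_left _ (C (α j)⁻¹) (add_mem (add_mem (Ideal.mul_mem_right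
          (cmap φ (p j) + r₀ * q) _ (self_mem_KP (f₀ j))) (Ideal.mul_mem_left _ r₀ h7)) h5)
        convert h9 using 1
        rw [h6] at h3
        linear_combination C (α j)⁻¹ * h3 - cmap φ (F - tot x g f r) * h8
      refine ⟨b, b1, b2.trans (Finset.sum_congr rfl fun o _ => ?_)⟩
      congr 1
      rcases o with t | (_ | j)
      · exact (l.gen t).symm
      · simp only [Sum.elim_inr, Option.elim, map_prod, l.rf]
      · simp only [Sum.elim_inr, Option.elim, map_mul, map_hat, l.rf, l.rr]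
  have b0 : ∀ o, map (s : A →+* ℂ) (b o) = 0 := fun o => mem_CI_one.1 (CI_mono (by omega) (b1 o))
  refine ⟨fun i => x i + b (.inl (.inr i)), fun i => g i + b (.inl (.inl i)),
    fun j => f j + b (.inr (some j)), r + b (.inr none),
    ⟨fun i => (l.sp.hx i).add (b2 _), fun i => (l.sp.hg i).add (b2 _),
      fun j => (l.sp.hf j).add (b2 _), l.sp.hr.add (b2 _), rfl⟩,
    fun i => by rw [map_add, b0, add_zero, l.rx], fun i => by rw [map_add, b0, add_zero, l.rg],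
    fun j => by rw [map_add, b0, add_zero, l.rf], by rw [map_add, b0, add_zero, l.rr], ?_⟩
  have h3 := prod_expand Finset.univ f (c := fun j => b (.inr (some j))) fun j => b1 _
  have h4 : ∑ j, b (.inr (some j)) * ∏ i ∈ Finset.univ.erase j, f i ∈ CI _ s (n + 1) :=
    Ideal.sum_mem _ fun j _ => Ideal.mul_mem_right _ _ (b1 _)
  have h5 : ∑ i, b (.inl (.inr i)) * b (.inl (.inl i)) ∈ CI _ s (n + 1 + (n + 1)) :=
    Ideal.sum_mem _ fun i _ => mul_mem_CI (b1 _) (b1 _)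
  have h6 := sub_mem b3 (CI_mono (show n + 1 + 1 ≤ n + 1 + (n + 1) by omega) (add_mem
    (add_mem h5 (Ideal.mul_mem_right (r + b (.inr none)) _ h3)) (mul_mem_CI h4 (b1 (.inr none)))))
  convert h6 using 1
  simp only [tot, Fintype.sum_sum_type, Fintype.sum_option, Sum.elim_inl, Sum.elim_inr,
    Option.elim, hat, add_mul, mul_add, Finset.sum_add_distrib, ← mul_assoc, ← Finset.sum_mul,
    mul_comm (x _) (b _)]
  ring

theorem Start.lift (h : Start d e s E F β α x₀ g₀ f₀ r₀) (n : ℕ) :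
    ∃ x g f r, Lv d e s F x₀ g₀ f₀ r₀ (n + 1) x g f r ∧
      ∃ u : Fin (k + 1 + (k + 1)) → PS k A, (∀ i, u i ∈ lt _ A (k * (d - 2))) ∧
        β - cmb x g f r (fun j => algebraMap ℂ A (α j)) - dtw F u ∈ CI _ s (n + 1) := by
  have H : ∀ n, ∃ x g f r, Lv d e s F x₀ g₀ f₀ r₀ (n + 1) x g f r := by
    intro n
    induction n with
    | zero =>
      have h1 := h.pt.sp.map (algebraMap ℂ A)
      rw [map_tot] at h1
      refine ⟨_, _, _, _, h1, fun i => map_map_algebraMap _, fun i => map_map_algebraMap _,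
        fun i => map_map_algebraMap _, map_map_algebraMap _, ?_⟩
      rw [← map_tot, ← h.red]
      exact sub_map_mem_CI F
    | succ n ih =>
      obtain ⟨x, g, f, r, l⟩ := ih
      exact h.step l
  obtain ⟨x, g, f, r, l⟩ := H n
  obtain ⟨u, h1, h2, -⟩ := (h.near l).hodge
  rw [add_sub_cancel] at h2
  exact ⟨x, g, f, r, l, u, h1, h2⟩

end Pool.Agent.Lib.MP_e9c0f3_ag.H48
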