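import Pool.Agent.Lib.MP_e9c0f3_ag.H48.Jd
import Pool.Agent.Lib.MP_e9c0f3_ag.Jet2

/-! The Jacobian ideal to finite order. -/

open MvPolynomial

namespace Pool.Agent.Lib.MP_e9c0f3_ag.H48

variable {A : Type} [CommRing A] [Algebra ℂ A] {N : ℕ} {s : A →ₐ[ℂ] ℂ}

/-- The Jacobian ideal modulo the `n`-th power of the maximal ideal. -/
noncomputable def IJ (F : Pol N A) (s : A →ₐ[ℂ] ℂ) (n : ℕ) : Ideal (Pol N A) := jac F ⊔ CI N s n

theorem IJ_of_jac {F p : Pol N A} {n : ℕ} (h : p ∈ jac F) : p ∈ IJ F s n := Ideal.mem_sup_left h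

theorem IJ_of_CI {F p : Pol N A} {n : ℕ} (h : p ∈ CI N s n) : p ∈ IJ F s n :=
  Ideal.mem_sup_right h

theorem mul_mem_IJ {F p q : Pol N A} {a b : ℕ} (hp : p ∈ CI N s a) (hq : q ∈ IJ F s b) :
    p * q ∈ IJ F s (a + b) := by
  obtain ⟨u, hu, v, hv, rfl⟩ := Submodule.mem_sup.1 hq
  rw [mul_add]
  exact add_mem (IJ_of_jac (Ideal.mul_mem_left _ _ hu)) (IJ_of_CI (mul_mem_CI hp hv))

theorem hc_mem_CI {n : ℕ} {p : Pol N A} (hp : p ∈ CI N s n) (e : ℕ) :
    homogeneousComponent e p ∈ CI N s n := by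
  rw [mem_CI] at hp ⊢
  intro m
  rw [coeff_homogeneousComponent]
  split_ifs
  · exact hp m
  · exact zero_mem _

theorem cmap_hc {R R' : Type} [CommRing R] [CommRing R'] (φ : R →+ R') (e : ℕ) (p : Pol N R) :
    cmap φ (homogeneousComponent e p) = homogeneousComponent e (cmap φ p) := by
  ext m
  rw [coeff_cmap, coeff_homogeneousComponent, coeff_homogeneousComponent, coeff_cmap]
  split_ifs
  · rfl
  · exact map_zero φ

theorem vf_mem_CI {n : ℕ} {c : Fin N → Pol N A} (hc : ∀ i, c i ∈ CI N s n) (K : Pol N A) :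
    vf c K ∈ CI N s n := Ideal.sum_mem _ fun i _ => Ideal.mul_mem_right _ _ (hc i)

theorem vf_mem_CI' {n : ℕ} (c : Fin N → Pol N A) {K : Pol N A} (hK : K ∈ CI N s n) :
    vf c K ∈ CI N s n := Ideal.sum_mem _ fun i _ => Ideal.mul_mem_left _ _ (pderiv_mem_CI hK i)

theorem dv_mem_CI {n : ℕ} {c : Fin N → Pol N A} (hc : ∀ i, c i ∈ CI N s n) :
    dv c ∈ CI N s n := Ideal.sum_mem _ fun i _ => pderiv_mem_CI (hc i) i

theorem cmap_vf {n : ℕ} {φ : A →+ ℂ} (hφ : Level s n φ) {c : Fin N → Pol N A}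
    (hc : ∀ i, c i ∈ CI N s n) (K : Pol N A) :
    cmap φ (vf c K) = vf (fun i => cmap φ (c i)) (map (s : A →+* ℂ) K) := by
  simp only [vf, map_sum]
  refine Finset.sum_congr rfl fun i _ => ?_
  rw [mul_comm, hφ.cmap_mul _ (hc i), pderiv_map, mul_comm]

theorem cmap_dv (φ : A →+ ℂ) (c : Fin N → Pol N A) :
    cmap φ (dv c) = dv fun i => cmap φ (c i) := by
  simp only [dv, map_sum, cmap_pderiv]

theorem lift_mem_IJ {F : Pol N A} {p : Pol N ℂ} (h : p ∈ jac (map (s : A →+* ℂ) F)) :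
    map (algebraMap ℂ A) p ∈ IJ F s 1 := by
  obtain ⟨c, rfl⟩ := mem_jac_iff.1 h
  have h1 : map (algebraMap ℂ A) (vf c (map (s : A →+* ℂ) F)) -
      vf (fun i => map (algebraMap ℂ A) (c i)) F ∈ CI N s 1 := by
    rw [mem_CI_one, map_sub, map_map_algebraMap]
    simp only [vf, map_sum, map_mul, map_map_algebraMap, pderiv_map, sub_self]
  have h2 := add_mem (IJ_of_CI (F := F) h1)
    (IJ_of_jac (vf_mem_jac (fun i => map (algebraMap ℂ A) (c i)) F))
  rwa [sub_add_cancel] at h2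

theorem koszul_dv {S : Type} [CommRing S] (F : Pol N S) {a : Fin N → Fin N → Pol N S}
    (ha : ∀ i j, a j i = -a i j) (ha0 : ∀ i, a i i = 0) :
    vf (fun i => ∑ j, pderiv j F * a i j) F = 0 ∧
      dv (fun i => ∑ j, pderiv j F * a i j) ∈ jac F := by
  constructor
  · have h := sum_antisymm (fun i j => pderiv j F * a i j * pderiv i F)
      (fun i j => by rw [ha i j]; ring) (fun i => by simp [ha0])
    simpa only [vf, Finset.sum_mul] using h
  · have h := sum_antisymm (fun i j => a i j * pderiv i (pderiv j F))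
      (fun i j => by rw [ha i j, pderiv_pderiv_comm j i]; ring) (fun i => by simp [ha0])
    simp only [dv, map_sum, Derivation.leibniz, smul_eq_mul, Finset.sum_add_distrib, h, add_zero]
    exact Ideal.sum_mem _ fun i _ => Ideal.sum_mem _ fun j _ =>
      Ideal.mul_mem_right _ _ (Ideal.subset_span ⟨j, rfl⟩)

variable [IsNoetherianRing A]

theorem IJ_of_level {F p : Pol N A} {n : ℕ} (hp : p ∈ CI N s n)
    (h : ∀ φ, Level s n φ → cmap φ p ∈ jac (map (s : A →+* ℂ) F)) : p ∈ IJ F s (n + 1) := by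
  obtain ⟨r, a, φ, ha, hφ, hdual⟩ := exists_dual (N := N) s n
  have h1 : ∑ μ, a μ • map (algebraMap ℂ A) (cmap (φ μ) p) ∈ IJ F s (n + 1) :=
    Ideal.sum_mem _ fun μ _ => by
      have := mul_mem_IJ (smul_mem_CI (ha μ) 1) (lift_mem_IJ (h _ (hφ μ)))
      rwa [smul_mul_assoc, one_mul] at this
  have h2 := add_mem (IJ_of_CI (F := F) (hdual p hp)) h1
  rwa [sub_add_cancel] at h2

/-- Approximate syzygies of the first derivatives. -/
theorem syz {F : Pol N A} (hr : RegAll fun i => pderiv i (map (s : A →+* ℂ) F)) {n : ℕ}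
    {c : Fin N → Pol N A} (hc : ∀ i, c i ∈ CI N s n) (h : vf c F ∈ CI N s (n + 1)) :
    (∀ i, c i ∈ IJ F s (n + 1)) ∧ dv c ∈ IJ F s (n + 1) := by
  have key : ∀ φ, Level s n φ → (∀ i, cmap φ (c i) ∈ jac (map (s : A →+* ℂ) F)) ∧
      cmap φ (dv c) ∈ jac (map (s : A →+* ℂ) F) := fun φ hφ => by
    have h0 := hφ.cmap_eq_zero h
    rw [cmap_vf hφ hc] at h0
    obtain ⟨a, a1, a2, a3⟩ := hr.koszul (h := fun i => cmap φ (c i))
      (by simpa only [vf, mul_comm] using h0)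
    refine ⟨fun i => ?_, ?_⟩
    · rw [show cmap φ (c i) = _ from a3 i]
      exact Ideal.sum_mem _ fun j _ => Ideal.mul_mem_right _ _ (Ideal.subset_span ⟨j, rfl⟩)
    · rw [cmap_dv, show (fun i => cmap φ (c i)) = _ from funext a3]
      exact (koszul_dv _ a1 a2).2
  exact ⟨fun i => IJ_of_level (hc i) fun φ hφ => (key φ hφ).1 i,
    IJ_of_level (dv_mem_CI hc) fun φ hφ => (key φ hφ).2⟩

theorem jac_reduce {F : Pol N A} (hr : RegAll fun i => pderiv i (map (s : A →+* ℂ) F)) {n : ℕ}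
    {c : Fin N → Pol N A} (h : vf c F ∈ CI N s n) (l : ℕ) (hl : l ≤ n) :
    ∃ c' : Fin N → Pol N A, (∀ i, c' i ∈ CI N s l) ∧ vf c' F = vf c F := by
  induction l with
  | zero => exact ⟨c, fun i => by rw [CI_zero]; trivial, rfl⟩
  | succ l ih =>
    obtain ⟨c', h1, h2⟩ := ih (by omega)
    obtain ⟨r, a, φ, ha, hφ, hdual⟩ := exists_dual (N := N) s l
    have hb : ∀ μ, ∃ b : Fin N → Fin N → Pol N ℂ, (∀ i j, b j i = -b i j) ∧ (∀ i, b i i = 0) ∧
        ∀ i, cmap (φ μ) (c' i) = ∑ j, pderiv j (map (s : A →+* ℂ) F) * b i j := by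
      intro μ
      have h0 := (hφ μ).cmap_eq_zero (CI_mono hl h)
      rw [← h2, cmap_vf (hφ μ) h1] at h0
      exact hr.koszul (h := fun i => cmap (φ μ) (c' i)) (by simpa only [vf, mul_comm] using h0)
    choose b b1 b2 b3 using hb
    refine ⟨c' - fun i => ∑ j, pderiv j F * ∑ μ, a μ • map (algebraMap ℂ A) (b μ i j),
      fun i => ?_, ?_⟩
    · have e1 := hdual _ (h1 i)
      have e2 : ∑ μ, a μ • map (algebraMap ℂ A) (cmap (φ μ) (c' i)) -
          ∑ j, pderiv j F * ∑ μ, a μ • map (algebraMap ℂ A) (b μ i j) ∈ CI N s (l + 1) := by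
        simp only [Finset.mul_sum, mul_smul_comm]
        rw [Finset.sum_comm (s := Finset.univ (α := Fin N)), ← Finset.sum_sub_distrib]
        refine Ideal.sum_mem _ fun μ _ => ?_
        rw [← Finset.smul_sum, ← smul_sub]
        refine jet2_smul_mem (ha μ) ?_
        rw [mem_CI_one, map_sub, map_map_algebraMap, b3]
        simp only [map_sum, map_mul, map_map_algebraMap, pderiv_map, sub_self]
      have e3 := add_mem e1 e2
      rwa [sub_add_sub_cancel] at e3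
    · rw [vf_sub_left, (koszul_dv F _ _).1, sub_zero, h2]
      · intro i j
        rw [← Finset.sum_neg_distrib]
        refine Finset.sum_congr rfl fun μ _ => ?_
        rw [b1 μ i j, map_neg, smul_neg]
      · intro i
        simp only [b2, map_zero, smul_zero, Finset.sum_const_zero]

/-- Flatness of the Jacobian ring. -/
theorem level_of_IJ {F : Pol N A} (hr : RegAll fun i => pderiv i (map (s : A →+* ℂ) F)) {n : ℕ}
    {p : Pol N A} (hp : p ∈ CI N s n) (h : p ∈ IJ F s (n + 1)) {φ : A →+ ℂ} (hφ : Level s n φ) :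
    cmap φ p ∈ jac (map (s : A →+* ℂ) F) := by
  obtain ⟨u, hu, v, hv, rfl⟩ := Submodule.mem_sup.1 h
  obtain ⟨c, rfl⟩ := mem_jac_iff.1 hu
  have h1 : vf c F ∈ CI N s n := by
    have := sub_mem hp (CI_mono (Nat.le_succ n) hv)
    rwa [add_sub_cancel_right] at this
  obtain ⟨c', h2, h3⟩ := jac_reduce hr h1 n le_rfl
  rw [map_add, hφ.cmap_eq_zero hv, add_zero, ← h3, cmap_vf hφ h2]
  exact vf_mem_jac _ _

/-- Lifting a relation from the graded piece. -/
theorem lift_rel {n : ℕ} {ι : Type} [Fintype ι] {y : ι → Pol N A} {p : Pol N A}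
    (hp : p ∈ CI N s n) (W : ι → Submodule ℂ (Pol N ℂ)) (W' : ι → Submodule A (Pol N A))
    (hW : ∀ i, ∀ q ∈ W i, map (algebraMap ℂ A) q ∈ W' i)
    (h : ∀ φ, Level s n φ → ∃ c : ι → Pol N ℂ, (∀ i, c i ∈ W i) ∧
      cmap φ p = ∑ i, c i * map (s : A →+* ℂ) (y i)) :
    ∃ c : ι → Pol N A, (∀ i, c i ∈ CI N s n) ∧ (∀ i, c i ∈ W' i) ∧
      p - ∑ i, c i * y i ∈ CI N s (n + 1) := by
  obtain ⟨r, a, φ, ha, hφ, hdual⟩ := exists_dual (N := N) s n
  choose c c1 c2 using fun μ => h _ (hφ μ)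
  refine ⟨fun i => ∑ μ, a μ • map (algebraMap ℂ A) (c μ i), fun i =>
    Ideal.sum_mem _ fun μ _ => smul_mem_CI (ha μ) _, fun i =>
    Submodule.sum_mem _ fun μ _ => Submodule.smul_mem _ _ (hW i _ (c1 μ i)), ?_⟩
  have e2 : ∑ μ, a μ • map (algebraMap ℂ A) (cmap (φ μ) p) -
      ∑ i, (∑ μ, a μ • map (algebraMap ℂ A) (c μ i)) * y i ∈ CI N s (n + 1) := by
    simp only [Finset.sum_mul, smul_mul_assoc]
    rw [Finset.sum_comm (s := Finset.univ (α := ι)), ← Finset.sum_sub_distrib]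
    refine Ideal.sum_mem _ fun μ _ => ?_
    rw [← Finset.smul_sum, ← smul_sub]
    refine jet2_smul_mem (ha μ) ?_
    rw [mem_CI_one, map_sub, map_map_algebraMap, c2]
    simp only [map_sum, map_mul, map_map_algebraMap, sub_self]
  have e3 := add_mem (hdual _ hp) e2
  rwa [sub_add_sub_cancel] at e3

end Pool.Agent.Lib.MP_e9c0f3_ag.H48
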