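import Pool.Agent.Lib.MP_e9c0f3_ag.H48.Inv

/-! Linear algebra and the lemma of Gauss over a valuation ring. -/

open MvPolynomial

namespace Pool.Agent.Lib.MP_e9c0f3_ag.H48

variable {L : Type} [Field L] (O : ValuationSubring L) {N k : ℕ}

theorem exists_prim {α : Type} {s : Finset α} (x : α → L) (hs : s.Nonempty) :
    ∃ i ∈ s, ∀ j ∈ s, ∃ o : O, (o : L) * x i = x j :=
  let ⟨i, hi, h⟩ := s.exists_max_image (fun a => O.valuation (x a)) hs
  ⟨i, hi, fun j hj => (O.valuation_le_iff _ _).1 (h j hj)⟩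

theorem prim_poly (p : Pol N L) : ∃ (a : L) (q : Pol N O), a ≠ 0 ∧
    p = C a * map (algebraMap O L) q ∧ (p ≠ 0 → map (IsLocalRing.residue O) q ≠ 0) := by
  classical
  by_cases hp : p = 0
  · exact ⟨1, 0, one_ne_zero, by rw [hp, map_zero, mul_zero], fun h => absurd hp h⟩
  obtain ⟨i, hi, h⟩ := exists_prim O (fun μ => coeff μ p) (support_nonempty.2 hp)
  have ha : coeff i p ≠ 0 := mem_support_iff.1 hi
  obtain ⟨q, hq⟩ : ∃ q : Pol N O, map (algebraMap O L) q = C (coeff i p)⁻¹ * p := by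
    refine mem_range_map_iff_coeffs_subset.mpr fun c hc => ?_
    obtain ⟨μ, hμ, rfl⟩ := Finset.mem_image.mp (Finset.mem_coe.mp hc)
    rw [mem_support_iff, coeff_C_mul] at hμ
    obtain ⟨o, ho⟩ := h μ (mem_support_iff.2 (right_ne_zero_of_mul hμ))
    refine ⟨o, ?_⟩
    rw [coeff_C_mul, ← ho, mul_comm, mul_inv_cancel_right₀ ha]
    rfl
  refine ⟨coeff i p, q, ha, ?_, fun _ h0 => ?_⟩
  · rw [hq, ← mul_assoc, ← C_mul, mul_inv_cancel₀ ha, C_1, one_mul]
  · have h1 := congrArg (coeff i) hq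
    rw [coeff_map, coeff_C_mul, inv_mul_cancel₀ ha] at h1
    have h2 : coeff i q = 1 := Subtype.ext h1
    have h3 := congrArg (coeff i) h0
    rw [coeff_map, h2, map_one, coeff_zero] at h3
    exact one_ne_zero h3

theorem gauss {ι : Type} [Fintype ι] [Nonempty ι] (p : ι → Pol N L) {W : Pol N O}
    (h : map (algebraMap O L) W = ∏ o, p o) : ∃ (c : ι → L) (q : ι → Pol N O),
      ∏ o, c o = 1 ∧ ∀ o, map (algebraMap O L) (q o) = C (c o) * p o := by
  classical
  choose a q ha hq hr using fun o => prim_poly O (p o)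
  have h1 : ∀ o, map (algebraMap O L) (q o) = C (a o)⁻¹ * p o := fun o => by
    rw [hq o, ← mul_assoc, ← C_mul, inv_mul_cancel₀ (ha o), C_1, one_mul]
  obtain ⟨o₀, b, hb⟩ : ∃ (o₀ : ι) (b : O), C (algebraMap O L b) * p o₀ = C (∏ o, a o) * p o₀ := by
    by_cases h0 : ∃ o, p o = 0
    · obtain ⟨o, ho⟩ := h0
      exact ⟨o, 0, by rw [ho, mul_zero, mul_zero]⟩
    push Not at h0
    have h2 : map (IsLocalRing.residue O) (∏ o, q o) ≠ 0 := by
      rw [map_prod]
      exact Finset.prod_ne_zero_iff.2 fun o _ => hr o (h0 o)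
    obtain ⟨μ, hμ⟩ := ne_zero_iff.1 h2
    rw [coeff_map, IsLocalRing.residue_ne_zero_iff_isUnit] at hμ
    obtain ⟨v, hv⟩ := hμ.exists_right_inv
    have h3 : map (algebraMap O L) W = C (∏ o, a o) * map (algebraMap O L) (∏ o, q o) := by
      rw [h, map_prod, map_prod, ← Finset.prod_mul_distrib]
      exact Finset.prod_congr rfl fun o _ => hq o
    have h4 := congrArg (coeff μ) h3
    rw [coeff_C_mul, coeff_map, coeff_map] at h4
    refine ⟨Classical.arbitrary ι, coeff μ W * v, ?_⟩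
    rw [map_mul, h4, mul_assoc, ← map_mul, hv, map_one, mul_one]
  refine ⟨fun o => (if o = o₀ then ∏ o, a o else 1) * (a o)⁻¹,
    fun o => if o = o₀ then C b * q o else q o, ?_, fun o => ?_⟩
  · rw [Finset.prod_mul_distrib, Finset.prod_ite_eq', if_pos (Finset.mem_univ _),
      Finset.prod_inv_distrib, mul_inv_cancel₀ (Finset.prod_ne_zero_iff.2 fun o _ => ha o)]
  · beta_reduce
    split_ifs with ho
    · subst ho
      rw [map_mul, map_C, h1, mul_left_comm, mul_comm (∏ o, a o), C_mul, mul_assoc, ← hb]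
    · rw [h1, one_mul]

theorem prim_vec (x : Fin N → L) : ∃ (a : L) (y t : Fin N → O), x = a • (algebraMap O L ∘ y) ∧
    (y ⬝ᵥ t) • y = y ∧ (y ⬝ᵥ t) • t = t ∧
    ∀ v : Fin N → O, x ⬝ᵥ (algebraMap O L ∘ v) = 0 → y ⬝ᵥ v = 0 := by
  by_cases hx : x = 0
  · exact ⟨0, 0, 0, by rw [hx, zero_smul], smul_zero _, smul_zero _, fun v _ => zero_dotProduct v⟩
  obtain ⟨c, hc⟩ := Function.ne_iff.1 hx
  obtain ⟨i, -, h⟩ := exists_prim O x ⟨c, Finset.mem_univ c⟩
  choose y hy using fun j => h j (Finset.mem_univ j)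
  have hi : x i ≠ 0 := fun h0 => hc (by rw [← hy c, h0, mul_zero]; rfl)
  have h1 : y i = 1 := Subtype.ext (mul_right_cancel₀ hi ((hy i).trans (one_mul _).symm))
  have h2 : x = x i • (algebraMap O L ∘ y) := funext fun j => (hy j).symm.trans (mul_comm _ _)
  have h3 : y ⬝ᵥ Pi.single i 1 = 1 := by rw [dotProduct_single, h1, mul_one]
  refine ⟨x i, y, Pi.single i 1, h2, by rw [h3, one_smul], by rw [h3, one_smul], fun v hv => ?_⟩
  rw [h2, smul_dotProduct, ← RingHom.map_dotProduct, smul_eq_mul, mul_eq_zero] at hv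
  exact Subtype.ext (hv.resolve_left hi)

/-- Gaussian elimination over a valuation ring. -/
theorem exists_vn (k : ℕ) (x : Fin k → Fin N → L) :
    ∃ (y T : Fin k → Fin N → O) (M : Fin k → Fin k → L),
      (∀ i, x i = ∑ l, M i l • (algebraMap O L ∘ y l)) ∧
      (∀ l, ∑ l', (y l ⬝ᵥ T l') • y l' = y l) ∧
      ∀ v : Fin N → O, (∀ i, x i ⬝ᵥ (algebraMap O L ∘ v) = 0) → ∀ l, y l ⬝ᵥ v = 0 := by
  induction k with
  | zero => exact ⟨0, 0, 0, fun i => i.elim0, fun i => i.elim0, fun _ _ i => i.elim0⟩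
  | succ k ih =>
    obtain ⟨a, y0, t, h1, h2, h3, h4⟩ := prim_vec O (x 0)
    obtain ⟨y, T, M, h5, h6, h7⟩ := ih fun i =>
      x i.succ - (x i.succ ⬝ᵥ (algebraMap O L ∘ t)) • (algebraMap O L ∘ y0)
    have h8 : ∀ l, y l ⬝ᵥ t = 0 := h7 t fun i => by
      rw [sub_dotProduct, smul_dotProduct, ← RingHom.map_dotProduct, smul_eq_mul, mul_comm,
        ← smul_eq_mul, ← dotProduct_smul, sub_eq_zero]
      congr 1
      funext c
      exact (congrArg (algebraMap O L) (congrFun h3 c)).symm.trans (map_mul _ _ _)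
    refine ⟨Fin.cons y0 y, Fin.cons t fun l => T l - (y0 ⬝ᵥ T l) • t,
      Fin.cons (Fin.cons a 0) fun i => Fin.cons (x i.succ ⬝ᵥ (algebraMap O L ∘ t)) (M i),
      fun i => ?_, fun l => ?_, fun v hv => ?_⟩
    · refine Fin.cases ?_ (fun i => ?_) i
      · simpa [Fin.sum_univ_succ] using h1
      · simp only [Fin.sum_univ_succ, Fin.cons_zero, Fin.cons_succ, ← h5 i, add_sub_cancel]
    · have h9 : ∀ l, y0 ⬝ᵥ (T l - (y0 ⬝ᵥ T l) • t) = 0 := fun l => by
        rw [dotProduct_sub, dotProduct_smul, smul_eq_mul, mul_comm, ← smul_eq_mul,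
          ← smul_dotProduct, h2, sub_self]
      refine Fin.cases ?_ (fun l => ?_) l
      · simp only [Fin.sum_univ_succ, Fin.cons_zero, Fin.cons_succ, h9, h2, zero_smul,
          Finset.sum_const_zero, add_zero]
      · simp only [Fin.sum_univ_succ, Fin.cons_zero, Fin.cons_succ, dotProduct_sub,
          dotProduct_smul, h8, h6, zero_smul, smul_zero, sub_zero, zero_add]
    · have h9 := h4 v (hv 0)
      refine Fin.cases h9 (h7 v fun i => ?_)
      rw [sub_dotProduct, smul_dotProduct, ← RingHom.map_dotProduct, h9, map_zero, smul_zero,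
        sub_zero, hv]

end Pool.Agent.Lib.MP_e9c0f3_ag.H48
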